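import Pool.Agent.Lib.MP_2da099_lc.ADefs
import Mathlib.Algebra.Module.ZMod
import Mathlib.LinearAlgebra.Finsupp.Defs

/-!
# A01: a faithful derivation (Krasner-Kaloujnine embedding)

HINTS.  `Q = G ⧸ A` (a group), `s : Q → G` a section (`Quotient.out`), `B = Additive A × ZMod p` (a
`ZMod p`-module: `AddCommGroup.zmodModule` for `Additive A`, with the commutative group structure of
`A` from `hcomm`), `M = Q → B`.  Action `(ρ g f) x = f (ḡ⁻¹ * x)`.  Derivation
`D g x = (s x)⁻¹ * g * s (ḡ⁻¹ * x)` (an element of `A`) in the first component, and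
`[x = ḡ] - [x = 1]` in `ZMod p` in the second component (classical decidability).
`D (g h) = D g + ρ g (D h)`: `(s x)⁻¹ g h s(h̄⁻¹ ḡ⁻¹ x) = ((s x)⁻¹ g s(ḡ⁻¹ x)) ((s (ḡ⁻¹ x))⁻¹ h
s (h̄⁻¹ (ḡ⁻¹ x)))`.  If `D g = 0` then `ḡ = 1` by the second component (at `x = ḡ`; `1 ≠ 0` in
`ZMod p`), then `(s 1)⁻¹ g (s 1) = 1`, so `g = 1`.
-/

set_option autoImplicit false

namespace Pool.Agent.WPM

universe u

theorem exists_derivation {G : Type u} [Group G] (p : ℕ) [Fact p.Prime] (A : Subgroup G)
    [A.Normal] (hcomm : ∀ a ∈ A, ∀ b ∈ A, a * b = b * a) (hexp : ∀ a ∈ A, a ^ p = 1) :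
    ∃ (M : Type u) (_ : AddCommGroup M) (_ : Module (ZMod p) M)
      (ρ : G →* Module.End (ZMod p) M) (D : G → M),
      (∀ a ∈ A, ρ a = 1) ∧ (∀ x y, D (x * y) = D x + ρ x (D y)) ∧ ∀ x, D x = 0 ↔ x = 1 := by
  classical
  have hp1 : (1 : ZMod p) ≠ 0 := one_ne_zero
  let iA : CommGroup A :=
    { (inferInstance : Group A) with mul_comm := fun a b => Subtype.ext (hcomm a a.2 b b.2) }
  let mA : Module (ZMod p) (Additive A) := AddCommGroup.zmodModule (n := p) (by
    intro x
    have h : (Additive.toMul x) ^ p = 1 := Subtype.ext (hexp _ (Additive.toMul x).2)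
    exact congrArg Additive.ofMul h)
  let s : G ⧸ A → G := Quotient.out
  have hs : ∀ x : G ⧸ A, ((s x : G) : G ⧸ A) = x := fun x => Quotient.out_eq' x
  have hA : ∀ (g : G) (x : G ⧸ A), (s x)⁻¹ * g * s ((g : G ⧸ A)⁻¹ * x) ∈ A := by
    intro g x
    rw [← QuotientGroup.eq_one_iff]
    rw [QuotientGroup.mk_mul, QuotientGroup.mk_mul, QuotientGroup.mk_inv, hs, hs]
    group
  let ρ : G →* Module.End (ZMod p) (G ⧸ A → Additive A × ZMod p) :=
    { toFun := fun g =>
        { toFun := fun f x => f ((g : G ⧸ A)⁻¹ * x)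
          map_add' := fun f f' => rfl
          map_smul' := fun c f => rfl }
      map_one' := by
        apply LinearMap.ext
        intro f
        funext x
        change f (((1 : G) : G ⧸ A)⁻¹ * x) = f x
        rw [QuotientGroup.mk_one, inv_one, one_mul]
      map_mul' := by
        intro g h
        apply LinearMap.ext
        intro f
        funext x
        change f (((g * h : G) : G ⧸ A)⁻¹ * x) = f ((h : G ⧸ A)⁻¹ * ((g : G ⧸ A)⁻¹ * x))
        rw [QuotientGroup.mk_mul, mul_inv_rev, mul_assoc] }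
  let D : G → (G ⧸ A → Additive A × ZMod p) := fun g x =>
    (Additive.ofMul ⟨_, hA g x⟩, (if x = (g : G ⧸ A) then 1 else 0) - (if x = 1 then 1 else 0))
  have hD : ∀ x y, D (x * y) = D x + ρ x (D y) := by
    intro g h
    funext x
    change D (g * h) x = D g x + D h ((g : G ⧸ A)⁻¹ * x)
    apply Prod.ext
    · apply Additive.toMul.injective
      apply Subtype.ext
      change (s x)⁻¹ * (g * h) * s (((g * h : G) : G ⧸ A)⁻¹ * x)
        = ((s x)⁻¹ * g * s ((g : G ⧸ A)⁻¹ * x))
          * ((s ((g : G ⧸ A)⁻¹ * x))⁻¹ * h * s ((h : G ⧸ A)⁻¹ * ((g : G ⧸ A)⁻¹ * x)))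
      rw [QuotientGroup.mk_mul, mul_inv_rev, mul_assoc (h : G ⧸ A)⁻¹]
      group
    · change ((if x = ((g * h : G) : G ⧸ A) then (1 : ZMod p) else 0) - (if x = 1 then 1 else 0))
        = ((if x = (g : G ⧸ A) then 1 else 0) - (if x = 1 then 1 else 0))
          + ((if (g : G ⧸ A)⁻¹ * x = (h : G ⧸ A) then 1 else 0)
            - (if (g : G ⧸ A)⁻¹ * x = 1 then 1 else 0))
      have e1 : ((g : G ⧸ A)⁻¹ * x = (h : G ⧸ A)) ↔ (x = ((g * h : G) : G ⧸ A)) := by
        rw [QuotientGroup.mk_mul]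
        constructor
        · intro hh
          rw [← hh]
          group
        · intro hh
          rw [hh]
          group
      have e2 : ((g : G ⧸ A)⁻¹ * x = 1) ↔ (x = (g : G ⧸ A)) := by
        constructor
        · intro hh
          exact (inv_mul_eq_one.mp hh).symm
        · intro hh
          rw [hh]
          group
      simp only [e1, e2]
      ring
  have hρ : ∀ a ∈ A, ρ a = 1 := by
    intro a ha
    apply LinearMap.ext
    intro f
    funext x
    change f ((a : G ⧸ A)⁻¹ * x) = f x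
    rw [(QuotientGroup.eq_one_iff a).mpr ha, inv_one, one_mul]
  refine ⟨G ⧸ A → Additive A × ZMod p, inferInstance, inferInstance, ρ, D, hρ, hD, ?_⟩
  intro g
  constructor
  · intro h
    have h1 : (g : G ⧸ A) = 1 := by
      by_contra hne
      have h2 := congrArg Prod.snd (congrFun h (g : G ⧸ A))
      change ((if (g : G ⧸ A) = (g : G ⧸ A) then (1 : ZMod p) else 0)
        - (if (g : G ⧸ A) = 1 then 1 else 0)) = 0 at h2
      rw [if_pos rfl, if_neg hne, sub_zero] at h2
      exact hp1 h2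
    have h3 := congrArg Prod.fst (congrFun h (1 : G ⧸ A))
    have h4 : (s 1)⁻¹ * g * s ((g : G ⧸ A)⁻¹ * 1) = 1 :=
      congrArg (fun z : Additive A => ((Additive.toMul z : A) : G)) h3
    rw [h1, inv_one, one_mul] at h4
    have h5 : g = (s 1) * ((s 1)⁻¹ * g * s 1) * (s 1)⁻¹ := by group
    rw [h5, h4]
    group
  · rintro rfl
    have h1 := hD 1 1
    rw [mul_one, map_one] at h1
    have h2 : D 1 = D 1 + D 1 := h1
    exact (left_eq_add.mp h2)

end Pool.Agent.WPM
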