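import Pool.Agent.Lib.MP_2da099_lc.A01

/-!
# A02: the word problem as a sum over the path of the word in a module over the group ring of `ℤ ^ r`

HINTS.  Take `exists_derivation`.  `ρ` kills `A`, hence commutators, so `v ↦ ρ (gpow g v)` is a
homomorphism from `Multiplicative (Fin r → ℤ)` to `Module.End (ZMod p) M`: all `ρ x` commute with each
other (`x * y = (x * y * x⁻¹ * y⁻¹) * (y * x)`), so `ρ (gpow g (v + w)) = ρ (gpow g v) * ρ (gpow g w)` by
induction on lists with commuting values.  `AddMonoidAlgebra.lift` gives an algebra homomorphism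
`Lam p r →ₐ Module.End (ZMod p) M`, and `Module.compHom` the module structure, with
`mon v • m = ρ (gpow g v) m`.  `a l = D (value g [l])`.  For a letter, `ρ (value g [l])` is the action
of `mon (sz (sgl l))` (`gpow` of `± e_i`).  By induction on the word,
`D (u * value g w) = D u + ..`: `Σ mon (c + position) • a l = mon c • D (value g w)`, start `c = 0`.
-/

set_option autoImplicit false

namespace Pool.Agent.WPM

universe u

theorem a02_mk_gpow {G : Type u} [Group G] (A : Subgroup G) [A.Normal]
    (hquot : ∀ x y : G, x * y * x⁻¹ * y⁻¹ ∈ A) {r : ℕ} (g : Fin r → G) :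
    ∃ h : (Fin r → ℤ) → G ⧸ A, (∀ v, h v = ((gpow g v : G) : G ⧸ A)) ∧
      (∀ v w, h (v + w) = h v * h w) ∧
      ∀ l : Letter r, h (sz (sgl l)) = ((if l.2 then g l.1 else (g l.1)⁻¹ : G) : G ⧸ A) := by
  classical
  have hc : ∀ x y : G ⧸ A, x * y = y * x := by
    intro x y
    induction x using QuotientGroup.induction_on with
    | H x =>
      induction y using QuotientGroup.induction_on with
      | H y =>
        have h1 := (QuotientGroup.eq_one_iff (x * y * x⁻¹ * y⁻¹)).mpr (hquot x y)
        rw [QuotientGroup.mk_mul, QuotientGroup.mk_mul, QuotientGroup.mk_mul, QuotientGroup.mk_inv,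
          QuotientGroup.mk_inv] at h1
        have h2 : ((x : G ⧸ A) * y) * ((y : G ⧸ A) * x)⁻¹ = 1 := by
          rw [mul_inv_rev, ← mul_assoc]
          exact h1
        exact mul_inv_eq_one.mp h2
  let iC : CommGroup (G ⧸ A) := { (inferInstance : Group (G ⧸ A)) with mul_comm := hc }
  let P : (Fin r → ℤ) → G ⧸ A := fun v => ∏ i, ((g i : G) : G ⧸ A) ^ v i
  have hP : ∀ v, P v = ((gpow g v : G) : G ⧸ A) := by
    intro v
    have h1 : ((gpow g v : G) : G ⧸ A)
        = ((List.finRange r).map (fun i => ((g i : G) : G ⧸ A) ^ v i)).prod := by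
      unfold gpow
      rw [← QuotientGroup.mk'_apply, map_list_prod, List.map_map]
      rfl
    rw [h1, ← Fin.prod_univ_def]
  refine ⟨P, hP, ?_, ?_⟩
  · intro v w
    change ∏ i, ((g i : G) : G ⧸ A) ^ ((v + w) i) = (∏ i, ((g i : G) : G ⧸ A) ^ v i)
      * ∏ i, ((g i : G) : G ⧸ A) ^ w i
    rw [← Finset.prod_mul_distrib]
    refine Finset.prod_congr rfl fun i _ => ?_
    rw [Pi.add_apply, zpow_add]
  · rintro ⟨k, b⟩
    have h1 : P (sz (sgl (k, b))) = ((g k : G) : G ⧸ A) ^ (sz (sgl (k, b)) k) := by
      change ∏ i, ((g i : G) : G ⧸ A) ^ (sz (sgl (k, b)) i) = _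
      rw [Finset.prod_eq_single k]
      · intro i _ hi
        have h2 : sz (sgl (k, b)) i = 0 := by
          unfold sz sgl
          rw [if_neg hi]
          rfl
        rw [h2, zpow_zero]
      · intro h
        exact absurd (Finset.mem_univ k) h
    rw [h1]
    cases b with
    | true =>
      have h2 : sz (sgl (k, true)) k = 1 := by
        unfold sz sgl
        simp
      rw [h2, zpow_one]
      rfl
    | false =>
      have h2 : sz (sgl (k, false)) k = -1 := by
        unfold sz sgl
        simp
      rw [h2, zpow_neg_one]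
      rfl

theorem exists_cocycle {G : Type u} [Group G] (p : ℕ) [Fact p.Prime] (A : Subgroup G)
    [A.Normal] (hcomm : ∀ a ∈ A, ∀ b ∈ A, a * b = b * a) (hexp : ∀ a ∈ A, a ^ p = 1)
    (hquot : ∀ x y : G, x * y * x⁻¹ * y⁻¹ ∈ A) {r : ℕ} (g : Fin r → G) :
    ∃ (M : Type u) (_ : AddCommGroup M) (_ : Module (Lam p r) M) (a : Letter r → M),
      (∀ w : List (Letter r), value g w = 1 ↔
        ((posl 0 w).map (fun x => (mon x.1 : Lam p r) • a x.2)).sum = 0) ∧
      ∀ v, gpow g v ∈ A → ∀ m : M, (mon v : Lam p r) • m = m := by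
  classical
  obtain ⟨M, iM, mM, ρ, D, hρA, hD, hD1⟩ := exists_derivation p A hcomm hexp
  obtain ⟨h, hh, hadd, hlet⟩ := a02_mk_gpow A hquot g
  have hρ : ∀ x y : G, (x : G ⧸ A) = y → ρ x = ρ y := by
    intro x y hxy
    have h1 : x⁻¹ * y ∈ A := QuotientGroup.eq.mp hxy
    have h2 : y = x * (x⁻¹ * y) := by group
    rw [h2, map_mul, hρA _ h1, mul_one]
  let σ : Multiplicative (Fin r → ℤ) →* Module.End (ZMod p) M :=
    { toFun := fun v => ρ (gpow g (Multiplicative.toAdd v))
      map_one' := by
        have h1 : ((gpow g (0 : Fin r → ℤ) : G) : G ⧸ A) = ((1 : G) : G ⧸ A) := by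
          rw [← hh]
          have h2 := hadd 0 0
          rw [add_zero] at h2
          rw [QuotientGroup.mk_one]
          exact (left_eq_mul.mp h2)
        change ρ (gpow g (0 : Fin r → ℤ)) = 1
        rw [hρ _ _ h1, map_one]
      map_mul' := by
        intro v w
        change ρ (gpow g (Multiplicative.toAdd v + Multiplicative.toAdd w))
          = ρ (gpow g (Multiplicative.toAdd v)) * ρ (gpow g (Multiplicative.toAdd w))
        rw [← map_mul]
        apply hρ
        rw [QuotientGroup.mk_mul, ← hh, ← hh, ← hh]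
        exact hadd _ _ }
  let φ : Lam p r →ₐ[ZMod p] Module.End (ZMod p) M :=
    AddMonoidAlgebra.lift (ZMod p) (Module.End (ZMod p) M) (Fin r → ℤ) σ
  have hφ : ∀ v, φ (mon v) = ρ (gpow g v) := by
    intro v
    have h1 := AddMonoidAlgebra.lift_single σ v (1 : ZMod p)
    rw [one_smul] at h1
    exact h1
  let mL : Module (Lam p r) M := Module.compHom M φ.toRingHom
  have hmon : ∀ v (m : M), (mon v : Lam p r) • m = ρ (gpow g v) m := by
    intro v m
    rw [← hφ v]
    rfl
  refine ⟨M, iM, mL, fun l => D (value g [l]), ?_, ?_⟩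
  · have hv1 : ∀ l : Letter r, value g [l] = if l.2 then g l.1 else (g l.1)⁻¹ := by
      intro l
      unfold value
      rw [List.map_singleton, List.prod_singleton]
    have hv : ∀ (l : Letter r) (w : List (Letter r)), value g (l :: w) = value g [l] * value g w := by
      intro l w
      unfold value
      rw [List.map_cons, List.prod_cons, List.map_singleton, List.prod_singleton]
    have hsum : ∀ (w : List (Letter r)) (c : Fin r → ℤ),
        ((posl c w).map (fun x => (mon x.1 : Lam p r) • D (value g [x.2]))).sum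
          = (mon c : Lam p r) • D (value g w) := by
      intro w
      induction w with
      | nil =>
        intro c
        have h1 : D (value g []) = 0 := (hD1 _).mpr rfl
        rw [h1, smul_zero]
        rfl
      | cons l w ih =>
        intro c
        have h1 : (posl c (l :: w)) = (c, l) :: posl (c + sz (sgl l)) w := rfl
        rw [h1, List.map_cons, List.sum_cons, ih, hv l w, hD, smul_add]
        congr 1
        have h2 : (mon (c + sz (sgl l)) : Lam p r) = mon c * mon (sz (sgl l)) := by
          unfold mon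
          rw [AddMonoidAlgebra.single_mul_single, one_mul]
        rw [h2, mul_smul, hmon (sz (sgl l))]
        congr 1
        have h3 : ρ (gpow g (sz (sgl l))) = ρ (value g [l]) := by
          apply hρ
          rw [← hh, hlet, hv1]
        rw [h3]
    intro w
    rw [hsum w 0]
    have h1 : (mon (0 : Fin r → ℤ) : Lam p r) = 1 := rfl
    rw [h1, one_smul]
    exact (hD1 _).symm
  · intro v hv m
    rw [hmon, hρA _ hv]
    rfl

end Pool.Agent.WPM
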