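import Pool.Agent.Lib.MP_2da099_lc.ADefs
import Mathlib.Algebra.Group.Subgroup.Finsupp
import Mathlib.Algebra.BigOperators.Fin

/-!
# A03: the rank condition on exponent vectors

HINTS.  Modulo `A` the group is commutative, so `v ↦ gpow g v` is a homomorphism
`(Fin r → ℤ) → G ⧸ A` (additive to multiplicative), surjective because the `g i` generate `G`.
`L` = its kernel (`gpow g v ∈ A`), `y i` = a vector with `gpow g (y i) ≡ x i` modulo `A`.  For `v`, some
`(gpow g v) ^ k` lies in `closure (range x) ⊔ A`, i.e. its class lies in the subgroup generated by the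
classes of the `x i`, the image of `closure (range y)`; so `k • v` differs from an element of
`closure (range y)` by an element of `L`.
-/

set_option autoImplicit false

namespace Pool.Agent.WPM

universe u

theorem rank_cond {G : Type u} [Group G] (A : Subgroup G) [A.Normal]
    (hquot : ∀ x y : G, x * y * x⁻¹ * y⁻¹ ∈ A) {r t : ℕ} (g : Fin r → G)
    (hg : Subgroup.closure (Set.range g) = ⊤) (x : Fin t → G)
    (hx : ∀ h : G, ∃ k, 0 < k ∧ h ^ k ∈ Subgroup.closure (Set.range x) ⊔ A) :
    ∃ (L : AddSubgroup (Fin r → ℤ)) (y : Fin t → (Fin r → ℤ)), (∀ v ∈ L, gpow g v ∈ A) ∧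
      ∀ v : Fin r → ℤ, ∃ k : ℕ, 0 < k ∧ k • v ∈ AddSubgroup.closure (Set.range y) ⊔ L := by
  classical
  have hc : ∀ a b : G ⧸ A, a * b = b * a := by
    intro a b
    obtain ⟨a, rfl⟩ := QuotientGroup.mk_surjective a
    obtain ⟨b, rfl⟩ := QuotientGroup.mk_surjective b
    rw [← QuotientGroup.mk_mul, ← QuotientGroup.mk_mul, QuotientGroup.eq]
    have h := hquot b⁻¹ a⁻¹
    have e : (a * b)⁻¹ * (b * a) = b⁻¹ * a⁻¹ * b⁻¹⁻¹ * a⁻¹⁻¹ := by group
    rw [e]
    exact h
  let _ : CommGroup (G ⧸ A) := { (inferInstance : Group (G ⧸ A)) with mul_comm := hc }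
  let π : G →* G ⧸ A := QuotientGroup.mk' A
  have hπ : ∀ v : Fin r → ℤ, π (gpow g v) = ∏ i, π (g i) ^ v i := by
    intro v
    rw [Fin.prod_univ_def, gpow, map_list_prod, List.map_map]
    refine congrArg List.prod ?_
    refine List.map_congr_left (fun i _ => ?_)
    exact map_zpow π (g i) (v i)
  let θ : (Fin r → ℤ) →+ Additive (G ⧸ A) :=
    { toFun := fun v => Additive.ofMul (∏ i, π (g i) ^ v i)
      map_zero' := by simp
      map_add' := by
        intro v w
        rw [← ofMul_mul, ← Finset.prod_mul_distrib]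
        congr 1
        exact Finset.prod_congr rfl (fun i _ => zpow_add _ _ _) }
  have hθ : ∀ v, θ v = Additive.ofMul (π (gpow g v)) := by
    intro v
    rw [hπ]
    rfl
  have hmem : ∀ v, θ v = 0 ↔ gpow g v ∈ A := by
    intro v
    rw [hθ, ofMul_eq_zero]
    exact QuotientGroup.eq_one_iff _
  have hsurj : ∀ q : G ⧸ A, ∃ v : Fin r → ℤ, q = ∏ i, π (g i) ^ v i := by
    intro q
    obtain ⟨z, rfl⟩ := QuotientGroup.mk_surjective q
    apply Subgroup.exists_of_mem_closure_range
    have hz : z ∈ Subgroup.closure (Set.range g) := by rw [hg]; exact Subgroup.mem_top _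
    have h1 : π z ∈ (Subgroup.closure (Set.range g)).map π := ⟨z, hz, rfl⟩
    rw [MonoidHom.map_closure, ← Set.range_comp] at h1
    exact h1
  choose y hy using fun i => hsurj (π (x i))
  refine ⟨θ.ker, y, fun v hv => (hmem v).mp hv, ?_⟩
  intro v
  obtain ⟨k, hk, hkv⟩ := hx (gpow g v)
  refine ⟨k, hk, ?_⟩
  have h1 : π (gpow g v ^ k) ∈ (Subgroup.closure (Set.range x) ⊔ A).map π := ⟨_, hkv, rfl⟩
  have h2 : (Subgroup.closure (Set.range x) ⊔ A).map π
      = Subgroup.closure (Set.range (fun i => π (x i))) := by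
    rw [Subgroup.map_sup, MonoidHom.map_closure, ← Set.range_comp]
    have : A.map π = ⊥ := by
      rw [Subgroup.map_eq_bot_iff]
      exact (QuotientGroup.ker_mk' A).ge
    rw [this, sup_bot_eq]
    rfl
  rw [h2] at h1
  obtain ⟨a, ha⟩ := Subgroup.exists_of_mem_closure_range _ _ h1
  have h3 : θ (k • v) = θ (∑ i, a i • y i) := by
    rw [map_nsmul, map_sum]
    have e1 : k • θ v = Additive.ofMul (π (gpow g v ^ k)) := by
      rw [hθ, map_pow, ofMul_pow]
    rw [e1, ha, ofMul_prod]
    refine Finset.sum_congr rfl (fun i _ => ?_)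
    rw [map_zsmul, ofMul_zpow]
    congr 1
    rw [hy i]
    rfl
  have h4 : k • v = (∑ i, a i • y i) + (k • v - ∑ i, a i • y i) := by abel
  rw [h4]
  refine AddSubgroup.add_mem _ ?_ ?_
  · refine AddSubgroup.mem_sup_left (AddSubgroup.sum_mem _ (fun i _ => ?_))
    have hyi : y i ∈ AddSubgroup.closure (Set.range y) :=
      AddSubgroup.subset_closure (Set.mem_range_self i)
    exact AddSubgroup.zsmul_mem _ hyi _
  · refine AddSubgroup.mem_sup_right ?_
    rw [AddMonoidHom.mem_ker, map_sub, h3, sub_self]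

end Pool.Agent.WPM
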