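import Mathlib.RingTheory.Lasker
import Mathlib.RingTheory.Noetherian.Basic
import Mathlib.RingTheory.FiniteType

/-!
# A04: primary decomposition of a module of relations

HINTS.  `Submodule.isLasker` (Mathlib.RingTheory.Lasker; `ι → Λ` is a Noetherian module):
`N` is the infimum of a finite set of primary submodules.  For a primary `Q`: `P = (Q.colon ⊤).radical`
(`Submodule.IsPrimary.isPrime_radical_colon`); definition of primary: `f • x ∈ Q → x ∈ Q ∨ f ^ n • ⊤ ≤ Q`;
a power of `P` is contained in the colon ideal because `Λ` is Noetherian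
(`Ideal.exists_radical_pow_le_of_fg`).  `Q ≠ ⊤` is `IsPrimary.ne_top`.
`isNoetherian_lam`: `AddMonoidAlgebra` over a finite field of a finitely generated group is an algebra
of finite type (`AddMonoidAlgebra.finiteType_of_fg`), so Noetherian
(`Algebra.FiniteType.isNoetherianRing`).
-/

set_option autoImplicit false

namespace Pool.Agent.WPM

theorem isNoetherian_lam (p r : ℕ) [Fact p.Prime] :
    IsNoetherianRing (AddMonoidAlgebra (ZMod p) (Fin r → ℤ)) := by
  have : AddMonoid.FG (Fin r → ℤ) := by
    have h : Module.Finite ℤ (Fin r → ℤ) := inferInstance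
    have h2 : AddGroup.FG (Fin r → ℤ) := by
      rw [← Module.Finite.iff_addGroup_fg]
      exact h
    exact AddGroup.fg_iff_addMonoid_fg.mp h2
  have : Algebra.FiniteType (ZMod p) (AddMonoidAlgebra (ZMod p) (Fin r → ℤ)) := inferInstance
  exact Algebra.FiniteType.isNoetherianRing (ZMod p) _

theorem lasker (Λ : Type) [CommRing Λ] [IsNoetherianRing Λ] (ι : Type) [Finite ι]
    (N : Submodule Λ (ι → Λ)) :
    ∃ (m : ℕ) (Q : Fin m → Submodule Λ (ι → Λ)) (P : Fin m → Ideal Λ),
      (∀ x, x ∈ N ↔ ∀ i, x ∈ Q i) ∧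
      ∀ i, (P i).IsPrime ∧ Q i ≠ ⊤ ∧ (∀ f, f ∉ P i → ∀ x, f • x ∈ Q i → x ∈ Q i) ∧
        ∃ k : ℕ, ∀ f ∈ (P i) ^ k, ∀ x, f • x ∈ Q i := by
  classical
  have : IsNoetherian Λ (ι → Λ) := isNoetherian_pi
  obtain ⟨s, hs, hp⟩ := Submodule.isLasker Λ (ι → Λ) N
  refine ⟨s.card, fun i => (s.equivFin.symm i).1,
    fun i => ((s.equivFin.symm i).1.colon Set.univ).radical, ?_, ?_⟩
  · intro x
    rw [← hs]
    simp only [Submodule.mem_finsetInf, id]
    constructor
    · intro h i
      exact h _ (s.equivFin.symm i).2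
    · intro h J hJ
      have := h (s.equivFin ⟨J, hJ⟩)
      simpa using this
  · intro i
    have hi := hp (s.equivFin.symm i).2
    refine ⟨hi.isPrime_radical_colon, hi.ne_top, ?_, ?_⟩
    · intro f hf x hx
      rcases hi.mem_or_mem hx with h | h
      · exact h
      · exact absurd h hf
    · obtain ⟨k, hk⟩ := Ideal.exists_radical_pow_le_of_fg
        ((s.equivFin.symm i).1.colon Set.univ) (IsNoetherian.noetherian _)
      refine ⟨k, fun f hf x => ?_⟩
      have h := hk hf
      rw [Submodule.mem_colon] at h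
      exact h x (Set.mem_univ _)

end Pool.Agent.WPM
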