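import Mathlib.RingTheory.Localization.FractionRing
import Mathlib.RingTheory.Localization.BaseChange
import Mathlib.LinearAlgebra.Basis.VectorSpace
import Mathlib.RingTheory.Localization.Module
import Mathlib.LinearAlgebra.FiniteDimensional.Basic
import Mathlib.LinearAlgebra.Dimension.Free

/-!
# A05: coordinates in a torsion-free module

HINTS.  `W_K := LocalizedModule (nonZeroDivisors R) W` or `K ⊗[R] W` (see `IsLocalizedModule`,
`IsLocalizedModule.injective_of_...`: the map `W → W_K` is injective because `W` is torsion-free), a
vector space over `K`.  `U` = the span of the images of the `b i`, finite-dimensional; take a basis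
(`Module.finBasis`), `α i j` = the `j`-th coordinate of the image of `b i`.  Then
`Σ f i • b i = 0 ↔ Σ (algebraMap (f i)) • image (b i) = 0 ↔` all coordinates vanish.
An alternative without localization: choose a maximal `R`-linearly independent subfamily of the `b i`,
so for every `i` there is `c i ≠ 0` with `c i • b i = Σ_j a i j • b (s j)`, and `α i j = a i j / c i`.
-/

set_option autoImplicit false

namespace Pool.Agent.WPM

theorem coords {R : Type} [CommRing R] [IsDomain R] (K : Type) [Field K] [Algebra R K]
    [IsFractionRing R K] (W : Type) [AddCommGroup W] [Module R W]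
    (htf : ∀ (f : R) (x : W), f • x = 0 → f = 0 ∨ x = 0) (κ : Type) [Fintype κ] (b : κ → W) :
    ∃ (s : ℕ) (α : κ → Fin s → K), ∀ f : κ → R,
      (∑ i, f i • b i = 0 ↔ ∀ j, ∑ i, algebraMap R K (f i) * α i j = 0) := by
  classical
  let ι : W →ₗ[R] TensorProduct R K W := TensorProduct.mk R K W 1
  have hloc : IsLocalizedModule (nonZeroDivisors R) ι :=
    (isLocalizedModule_iff_isBaseChange (nonZeroDivisors R) K ι).mpr
      (TensorProduct.isBaseChange R W K)
  have hinj : ∀ w, ι w = 0 → w = 0 := by
    intro w hw
    obtain ⟨c, hc⟩ := (IsLocalizedModule.eq_zero_iff (nonZeroDivisors R) ι).mp hw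
    rcases htf c w hc with h | h
    · exact absurd h (nonZeroDivisors.coe_ne_zero c)
    · exact h
  let U : Submodule K (TensorProduct R K W) := Submodule.span K (Set.range fun i => ι (b i))
  have hfin : FiniteDimensional K U := FiniteDimensional.span_of_finite K (Set.finite_range _)
  have hfree : Module.Free K U := Module.Free.of_divisionRing K U
  let B := Module.finBasis K U
  let y : κ → U := fun i => ⟨ι (b i), Submodule.subset_span ⟨i, rfl⟩⟩
  refine ⟨Module.finrank K U, fun i j => B.repr (y i) j, fun f => ?_⟩
  have h1 : ∑ i, f i • b i = 0 ↔ ∑ i, algebraMap R K (f i) • y i = 0 := by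
    have h2 : ((∑ i, algebraMap R K (f i) • y i : U) : TensorProduct R K W)
        = ι (∑ i, f i • b i) := by
      rw [map_sum, AddSubmonoidClass.coe_finset_sum]
      refine Finset.sum_congr rfl fun i _ => ?_
      rw [Submodule.coe_smul, map_smul, algebraMap_smul]
    constructor
    · intro h
      apply Subtype.ext
      rw [h2, h, map_zero]
      rfl
    · intro h
      apply hinj
      rw [← h2, h]
      rfl
  rw [h1]
  have h3 : ∀ j, B.repr (∑ i, algebraMap R K (f i) • y i) j
      = ∑ i, algebraMap R K (f i) * B.repr (y i) j := by
    intro j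
    rw [map_sum, Finsupp.coe_finset_sum, Finset.sum_apply]
    refine Finset.sum_congr rfl fun i _ => ?_
    rw [map_smul, Finsupp.smul_apply, smul_eq_mul]
  constructor
  · intro h j
    rw [← h3 j, h, map_zero]
    rfl
  · intro h
    apply B.repr.injective
    rw [map_zero]
    ext j
    rw [h3 j, h j]
    rfl

end Pool.Agent.WPM
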