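import Pool.Agent.Lib.MP_2da099_lc.Defs

/-!
# S01: arithmetic of digits and carries
-/

set_option autoImplicit false

namespace Pool.Agent.WPM

theorem sign_cast_of_abs_le {z : ℤ} (h : |z| ≤ 1) : ((SignType.sign z : SignType) : ℤ) = z := by
  rw [abs_le] at h
  have h3 : z = -1 ∨ z = 0 ∨ z = 1 := by omega
  rcases h3 with rfl | rfl | rfl <;> decide

theorem abs_cast_le (s : SignType) : |(s : ℤ)| ≤ 1 := by
  cases s <;> decide

theorem md_val {r : ℕ} (q : ℕ) [NeZero q] (c : Fin r → ℤ) (i : Fin r) :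
    (((md q c i : Fin q) : ℕ) : ℤ) = c i % (q : ℤ) := by
  have hq : (0 : ℤ) < q := by exact_mod_cast Nat.pos_of_ne_zero (NeZero.ne q)
  have h0 : 0 ≤ c i % (q : ℤ) := Int.emod_nonneg _ hq.ne'
  have h1 : c i % (q : ℤ) < q := Int.emod_lt_of_pos _ hq
  have h2 : (c i % (q : ℤ)).toNat < q := by omega
  show (((Fin.ofNat q (c i % (q : ℤ)).toNat : Fin q) : ℕ) : ℤ) = _
  rw [Fin.val_ofNat, Nat.mod_eq_of_lt h2, Int.toNat_of_nonneg h0]

theorem fl_add_md {r : ℕ} (q : ℕ) [NeZero q] (c : Fin r → ℤ) (i : Fin r) :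
    c i = (q : ℤ) * fl q c i + (((md q c i : Fin q) : ℕ) : ℤ) := by
  rw [md_val]
  exact (Int.mul_ediv_add_emod (c i) q).symm

/-- The digits after adding a sign vector. -/
theorem dig_md {r : ℕ} (q : ℕ) [NeZero q] (c : Fin r → ℤ) (Δ : Sg r) (i : Fin r) :
    dig q (md q c i) (Δ i) = md q (c + sz Δ) i := by
  unfold dig
  rw [md_val, Int.emod_add_emod]
  rfl

/-- The carry is the difference of the quotients. -/
theorem car_md {r : ℕ} (q : ℕ) [NeZero q] (c : Fin r → ℤ) (Δ : Sg r) (i : Fin r) :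
    ((car q (md q c i) (Δ i) : SignType) : ℤ) = fl q (c + sz Δ) i - fl q c i := by
  have hq : (0 : ℤ) < q := by exact_mod_cast Nat.pos_of_ne_zero (NeZero.ne q)
  have h0 : 0 ≤ c i % (q : ℤ) := Int.emod_nonneg _ hq.ne'
  have h1 : c i % (q : ℤ) < q := Int.emod_lt_of_pos _ hq
  have hs := abs_le.1 (abs_cast_le (Δ i))
  have e : (c + sz Δ) i / (q : ℤ) = c i / (q : ℤ) + (c i % (q : ℤ) + (Δ i : ℤ)) / (q : ℤ) := by
    have e1 : (c + sz Δ) i = (c i % (q : ℤ) + (Δ i : ℤ)) + (q : ℤ) * (c i / (q : ℤ)) := by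
      have := Int.mul_ediv_add_emod (c i) q
      show c i + (Δ i : ℤ) = _
      linarith
    rw [e1, Int.add_mul_ediv_left _ _ hq.ne']
    ring
  unfold car
  rw [md_val, sign_cast_of_abs_le]
  · show _ = (c + sz Δ) i / (q : ℤ) - c i / (q : ℤ)
    rw [e]; ring
  · rw [abs_le]
    constructor
    · rw [Int.le_ediv_iff_mul_le hq]
      linarith
    · rw [← Int.lt_add_one_iff, Int.ediv_lt_iff_lt_mul hq]
      linarith

/-- If `|x - y| ≤ q` then the quotients by `q` differ by at most one. -/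
theorem abs_div_sub_div_le (q : ℕ) [NeZero q] (x y : ℤ) (h : |x - y| ≤ (q : ℤ)) :
    |x / (q : ℤ) - y / (q : ℤ)| ≤ 1 := by
  have hq : (0 : ℤ) < q := by exact_mod_cast Nat.pos_of_ne_zero (NeZero.ne q)
  rw [abs_le] at h ⊢
  have hx0 : 0 ≤ x % (q : ℤ) := Int.emod_nonneg _ hq.ne'
  have hx1 : x % (q : ℤ) < q := Int.emod_lt_of_pos _ hq
  have hy0 : 0 ≤ y % (q : ℤ) := Int.emod_nonneg _ hq.ne'
  have hy1 : y % (q : ℤ) < q := Int.emod_lt_of_pos _ hq
  have ex := Int.mul_ediv_add_emod x q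
  have ey := Int.mul_ediv_add_emod y q
  have k1 : (q : ℤ) * (x / q - y / q) < q * 2 := by nlinarith
  have k2 : (q : ℤ) * (-2) < q * (x / q - y / q) := by nlinarith
  have k3 := lt_of_mul_lt_mul_left k1 hq.le
  have k4 := lt_of_mul_lt_mul_left k2 hq.le
  omega

end Pool.Agent.WPM
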