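import Pool.Agent.Lib.MP_2da099_lc.ADefs
import Pool.Agent.Lib.MP_2da099_lc.S01
import Pool.Agent.Lib.MP_2da099_lc.A05
import Mathlib.RingTheory.Ideal.Quotient.Operations
import Mathlib.Algebra.CharP.Frobenius
import Mathlib.Algebra.CharP.Lemmas
import Mathlib.Algebra.CharP.Algebra

/-!
# A06: the Frobenius twist of a primary module
-/

set_option autoImplicit false

namespace Pool.Agent.WPM

/-- Grouping of a sum over a list by the values of a function. -/
theorem twist_group {R M X κ : Type} [CommRing R] [AddCommGroup M] [Module R M] [Fintype κ]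
    [DecidableEq κ] (g : X → R) (c : κ → M) (h : X → κ) (l : List X) :
    (l.map (fun x => g x • c (h x))).sum =
      ∑ i, (l.map (fun x => if h x = i then g x else 0)).sum • c i := by
  induction l with
  | nil => simp
  | cons a l ih =>
    simp only [List.map_cons, List.sum_cons, add_smul, Finset.sum_add_distrib]
    rw [ih]
    congr 1
    simp only [ite_smul, zero_smul]
    rw [Finset.sum_ite_eq]
    simp

theorem twist_mon_pow {p r : ℕ} (v : Fin r → ℤ) (n : ℕ) : (mon v : Lam p r) ^ n = mon (n • v) := by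
  unfold mon
  rw [AddMonoidAlgebra.single_pow, one_pow]

theorem twist_mon_mul {p r : ℕ} (v w : Fin r → ℤ) : (mon v : Lam p r) * mon w = mon (v + w) := by
  unfold mon
  rw [AddMonoidAlgebra.single_mul_single, one_mul]

theorem twist_mon_split {p r : ℕ} (q : ℕ) [NeZero q] (v : Fin r → ℤ) :
    (mon v : Lam p r) = (mon (fl q v)) ^ q * mon (dz (md q v)) := by
  rw [twist_mon_pow, twist_mon_mul]
  congr 1
  funext i
  have h := fl_add_md q v i
  simp only [Pi.add_apply, dz, nsmul_eq_mul]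
  exact h

theorem twist {p r : ℕ} [Fact p.Prime] (ι : Type) [Fintype ι] [DecidableEq ι]
    (Q : Submodule (Lam p r) (ι → Lam p r)) (P : Ideal (Lam p r)) [P.IsPrime]
    (h1 : ∀ f, f ∉ P → ∀ x, f • x ∈ Q → x ∈ Q) (h2 : ∃ k : ℕ, ∀ f ∈ P ^ k, ∀ x, f • x ∈ Q)
    (K : Type) [Field K] [Algebra (Lam p r ⧸ P) K] [IsFractionRing (Lam p r ⧸ P) K] :
    ∃ (N0 s : ℕ) (α : (Fin r → Fin (p ^ N0)) → ι → Fin s → K),
      ∀ l : List ((Fin r → ℤ) × ι),
        (l.map (fun x => (mon x.1 : Lam p r) • (Pi.single x.2 1 : ι → Lam p r))).sum ∈ Q ↔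
        ∀ j, (l.map (fun x => algebraMap (Lam p r ⧸ P) K
          (Ideal.Quotient.mk P (mon (fl (p ^ N0) x.1))) * α (md (p ^ N0) x.1) x.2 j)).sum = 0 := by
  classical
  obtain ⟨k, hk⟩ := h2
  have hp2 : 2 ≤ p := (Fact.out : p.Prime).two_le
  -- characteristic
  have hchar : CharP (Lam p r) p :=
    charP_of_injective_ringHom (f := algebraMap (ZMod p) (Lam p r))
      (FaithfulSMul.algebraMap_injective (ZMod p) (Lam p r)) p
  have hexp : ExpChar (Lam p r) p := ExpChar.prime (Fact.out : p.Prime)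
  set q : ℕ := p ^ k with hq
  have hkq : k ≤ q := le_of_lt (Nat.lt_pow_self (by omega))
  have hq0 : NeZero q := ⟨by positivity⟩
  let W : Type := (ι → Lam p r) ⧸ Q
  let φ : Lam p r →+* AddMonoid.End W :=
    (Module.toAddMonoidEnd (Lam p r) W).comp (iterateFrobenius (Lam p r) p k)
  have hφ : ∀ (f : Lam p r) (x : W), φ f x = f ^ q • x := by
    intro f x
    show (iterateFrobenius (Lam p r) p k f) • x = _
    rw [iterateFrobenius_def]
  have hφP : ∀ f ∈ P, φ f = 0 := by
    intro f hf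
    ext x
    rw [hφ]
    obtain ⟨y, rfl⟩ := Submodule.mkQ_surjective Q x
    rw [← map_smul]
    show Q.mkQ (f ^ q • y) = 0
    rw [Submodule.mkQ_apply, Submodule.Quotient.mk_eq_zero]
    exact hk _ (Ideal.pow_le_pow_right hkq (Ideal.pow_mem_pow hf q)) y
  let ψ : (Lam p r ⧸ P) →+* AddMonoid.End W := Ideal.Quotient.lift P φ hφP
  let mR : Module (Lam p r ⧸ P) W := Module.compHom W ψ
  have hsm : ∀ (f : Lam p r) (x : W), (Ideal.Quotient.mk P f) • x = f ^ q • x := by
    intro f x
    show (ψ (Ideal.Quotient.mk P f)) x = _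
    rw [Ideal.Quotient.lift_mk, hφ]
  have htf : ∀ (f : Lam p r ⧸ P) (x : W), f • x = 0 → f = 0 ∨ x = 0 := by
    intro f x h
    obtain ⟨f, rfl⟩ := Ideal.Quotient.mk_surjective f
    obtain ⟨y, rfl⟩ := Submodule.mkQ_surjective Q x
    by_cases hf : f ∈ P
    · left; exact Ideal.Quotient.eq_zero_iff_mem.2 hf
    · right
      rw [hsm, ← map_smul, Submodule.mkQ_apply, Submodule.Quotient.mk_eq_zero] at h
      rw [Submodule.mkQ_apply, Submodule.Quotient.mk_eq_zero]
      refine h1 (f ^ q) (fun hh => hf (Ideal.IsPrime.mem_of_pow_mem inferInstance q hh)) y h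
  let b : (Fin r → Fin q) × ι → W := fun x =>
    Q.mkQ ((mon (dz x.1) : Lam p r) • (Pi.single x.2 1 : ι → Lam p r))
  obtain ⟨s, α, hα⟩ := coords (R := Lam p r ⧸ P) K W htf ((Fin r → Fin q) × ι) b
  refine ⟨k, s, fun ρ i j => α (ρ, i) j, ?_⟩
  intro l
  let g : (Fin r → ℤ) × ι → Lam p r ⧸ P := fun x => Ideal.Quotient.mk P (mon (fl q x.1))
  let h : (Fin r → ℤ) × ι → (Fin r → Fin q) × ι := fun x => (md q x.1, x.2)
  have e1 : Q.mkQ (l.map (fun x => (mon x.1 : Lam p r) • (Pi.single x.2 1 : ι → Lam p r))).sum =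
      (l.map (fun x => g x • b (h x))).sum := by
    rw [map_list_sum, List.map_map]
    congr 1
    apply List.map_congr_left
    intro x _
    show Q.mkQ ((mon x.1 : Lam p r) • (Pi.single x.2 1 : ι → Lam p r)) =
      (Ideal.Quotient.mk P (mon (fl q x.1))) •
        Q.mkQ ((mon (dz (md q x.1)) : Lam p r) • (Pi.single x.2 1 : ι → Lam p r))
    rw [hsm, ← map_smul, smul_smul, ← twist_mon_split q x.1]
  have e2 : (l.map (fun x => (mon x.1 : Lam p r) • (Pi.single x.2 1 : ι → Lam p r))).sum ∈ Q ↔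
      (l.map (fun x => g x • b (h x))).sum = 0 := by
    rw [← e1, Submodule.mkQ_apply, Submodule.Quotient.mk_eq_zero]
  rw [e2, twist_group g b h l, hα]
  refine forall_congr' fun j => ?_
  have e3 := twist_group (M := K) g (fun i => α i j) h l
  simp only [Algebra.smul_def] at e3
  rw [← e3]

end Pool.Agent.WPM
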