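import Mathlib.GroupTheory.Index
import Mathlib.GroupTheory.Torsion
import Mathlib.GroupTheory.FiniteAbelian.Basic
import Mathlib.GroupTheory.QuotientGroup.Basic
import Mathlib.Algebra.Group.Subgroup.Finsupp

/-!
# A07: the index of the subgroup of `p`-th powers

HINTS.  `X = closure (range x)`.  `H ⧸ X` is finitely generated and torsion, so finite
(`CommGroup.finite_of_fg_isMulTorsion`): `m = X.index ≠ 0`.  Let `φ : H →* H`, `h ↦ h ^ p`
(`powMonoidHom p`), injective.  `[H : φ X] = [H : X] [X : φ X]` and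
`[H : φ X] = [H : φ H] [φ H : φ X] = [H : φ H] [H : X]`, hence `[H : φ H] = [X : φ X]` (relative
indices, `Subgroup.relIndex_mul_index`, `Subgroup.relIndex_map_map_of_injective` or so).
`[X : φ X] ≤ p ^ t`: the map `(Fin t → Fin p) → X ⧸ φ X`, `b ↦ ∏ x i ^ b i` is onto, because every
element of `X` is `∏ x i ^ n i` with integers `n i` (commutative group, `Subgroup.closure_induction`)
and `n i = p * (n i / p) + n i % p`.  `S` = representatives of the classes of `H ⧸ φ H`
(finite of cardinality `[H : φ H] ≤ p ^ t`; `Quotient.out`).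
-/

set_option autoImplicit false

namespace Pool.Agent.WPM

theorem a07_relIndex {H : Type} [CommGroup H] (p : ℕ) [Fact p.Prime] {t : ℕ} (x : Fin t → H) :
    ((Subgroup.closure (Set.range x)).map (powMonoidHom p)).relIndex
      (Subgroup.closure (Set.range x)) ≤ p ^ t ∧
    ((Subgroup.closure (Set.range x)).map (powMonoidHom p)).relIndex
      (Subgroup.closure (Set.range x)) ≠ 0 := by
  classical
  have hp0 : 0 < p := (Fact.out : p.Prime).pos
  set X := Subgroup.closure (Set.range x) with hX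
  have hxX : ∀ i, x i ∈ X := fun i => Subgroup.subset_closure ⟨i, rfl⟩
  let F : (Fin t → Fin p) → X ⧸ ((X.map (powMonoidHom p)).subgroupOf X) := fun b =>
    QuotientGroup.mk (⟨∏ i, x i ^ (b i : ℕ), Subgroup.prod_mem _ (fun i _ =>
      Subgroup.pow_mem _ (hxX i) _)⟩ : X)
  have hF : Function.Surjective F := by
    intro q
    obtain ⟨⟨h, hh⟩, rfl⟩ := QuotientGroup.mk_surjective q
    obtain ⟨a, ha⟩ := Subgroup.exists_of_mem_closure_range x h hh
    have hlt : ∀ i, (a i % (p : ℤ)).toNat < p := by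
      intro i
      have h1 : 0 ≤ a i % (p : ℤ) := Int.emod_nonneg _ (by omega)
      have h2 : a i % (p : ℤ) < p := Int.emod_lt_of_pos _ (by omega)
      omega
    refine ⟨fun i => ⟨(a i % (p : ℤ)).toNat, hlt i⟩, ?_⟩
    rw [QuotientGroup.eq]
    rw [Subgroup.mem_subgroupOf]
    refine ⟨∏ i, x i ^ (a i / (p : ℤ)), Subgroup.prod_mem _ (fun i _ =>
      Subgroup.zpow_mem _ (hxX i) _), ?_⟩
    simp only [powMonoidHom_apply, Subgroup.coe_mul, InvMemClass.coe_inv]
    rw [eq_inv_mul_iff_mul_eq, ha, ← Finset.prod_pow, ← Finset.prod_mul_distrib]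
    refine Finset.prod_congr rfl (fun i _ => ?_)
    have h1 : 0 ≤ a i % (p : ℤ) := Int.emod_nonneg _ (by omega)
    rw [← zpow_natCast, ← zpow_natCast, ← zpow_mul, ← zpow_add, Int.toNat_of_nonneg h1]
    congr 1
    have := Int.emod_add_mul_ediv (a i) p
    rw [mul_comm] at this
    exact this
  have h := Nat.card_le_card_of_surjective F hF
  rw [Nat.card_eq_fintype_card (α := Fin t → Fin p), Fintype.card_fun, Fintype.card_fin,
    Fintype.card_fin] at h
  have hfin : Finite (X ⧸ ((X.map (powMonoidHom p)).subgroupOf X)) :=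
    Finite.of_surjective F hF
  exact ⟨h, Nat.card_pos.ne'⟩

theorem index_le {H : Type} [CommGroup H] [Group.FG H] (p : ℕ) [Fact p.Prime]
    (hp : ∀ h : H, h ^ p = 1 → h = 1) {t : ℕ} (x : Fin t → H)
    (hx : ∀ h : H, ∃ k, 0 < k ∧ h ^ k ∈ Subgroup.closure (Set.range x)) :
    ∃ S : Finset H, S.card ≤ p ^ t ∧ ∀ h : H, ∃ u : H, ∃ s ∈ S, h = u ^ p * s := by
  classical
  set X := Subgroup.closure (Set.range x) with hX
  set φ : H →* H := powMonoidHom p with hφ
  have hinj : Function.Injective φ := by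
    rw [injective_iff_map_eq_one]
    intro a ha
    exact hp a ha
  have hfin : Finite (H ⧸ X) := by
    apply CommGroup.finite_of_fg_isMulTorsion
    intro q
    obtain ⟨h, rfl⟩ := QuotientGroup.mk_surjective q
    obtain ⟨k, hk, hkX⟩ := hx h
    rw [isOfFinOrder_iff_pow_eq_one]
    refine ⟨k, hk, ?_⟩
    rw [← QuotientGroup.mk_pow]
    exact (QuotientGroup.eq_one_iff _).mpr hkX
  have hXi : X.index ≠ 0 := by
    have : X.FiniteIndex := Subgroup.finiteIndex_of_finite_quotient
    exact this.index_ne_zero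
  have hle1 : X.map φ ≤ X := by
    rintro _ ⟨a, ha, rfl⟩
    exact Subgroup.pow_mem _ ha _
  have hle2 : X.map φ ≤ (⊤ : Subgroup H).map φ := Subgroup.map_mono le_top
  have e1 := Subgroup.relIndex_mul_index hle1
  have e2 := Subgroup.relIndex_mul_index hle2
  rw [Subgroup.relIndex_map_map_of_injective _ _ hinj, Subgroup.relIndex_top_right] at e2
  have e3 : ((⊤ : Subgroup H).map φ).index = (X.map φ).relIndex X := by
    have : X.index * ((⊤ : Subgroup H).map φ).index = X.index * (X.map φ).relIndex X := by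
      rw [e2, ← e1, mul_comm]
    exact Nat.eq_of_mul_eq_mul_left (Nat.pos_of_ne_zero hXi) this
  set R : Subgroup H := (⊤ : Subgroup H).map φ with hR
  have e4 : R.index ≤ p ^ t := by
    rw [e3]
    exact (a07_relIndex p x).1
  have hne : (X.map φ).relIndex X ≠ 0 := (a07_relIndex p x).2
  have hfin2 : Finite (H ⧸ R) := by
    have : R.FiniteIndex := ⟨by rw [e3]; exact hne⟩
    infer_instance
  have := Fintype.ofFinite (H ⧸ R)
  refine ⟨Finset.univ.image (fun q : H ⧸ R => Quotient.out q), ?_, ?_⟩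
  · refine Finset.card_image_le.trans ?_
    rw [Finset.card_univ, ← Nat.card_eq_fintype_card]
    exact e4
  · intro h
    have h1 : ((Quotient.out (QuotientGroup.mk h : H ⧸ R) : H) : H ⧸ R) = (h : H ⧸ R) :=
      Quotient.out_eq _
    rw [QuotientGroup.eq] at h1
    obtain ⟨u, -, hu⟩ := h1
    refine ⟨u, _, Finset.mem_image_of_mem _ (Finset.mem_univ (QuotientGroup.mk h : H ⧸ R)), ?_⟩
    have hu' : u ^ p = (Quotient.out (QuotientGroup.mk h : H ⧸ R))⁻¹ * h := hu
    rw [hu', mul_comm, mul_inv_cancel_left]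

end Pool.Agent.WPM
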