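import Pool.Agent.Lib.MP_2da099_lc.A07
import Mathlib.Algebra.CharP.Frobenius
import Mathlib.Algebra.CharP.Lemmas
import Mathlib.Algebra.Field.Basic
import Mathlib.Algebra.CharP.Reduced

/-!
# A08: representatives of the group of monomials modulo `p`-th powers

HINTS.  `H` = the range of `v ↦ η v` as a subgroup of `Kˣ` (`η v` is a unit, with inverse `η (-v)`);
it is finitely generated (image of `Multiplicative (Fin r → ℤ)`).  No `p`-torsion: in characteristic
`p`, `u ^ p = 1` gives `(u - 1) ^ p = 0` (`sub_pow_char` or injectivity of `frobenius`).  `x i` = the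
image of `y i`; `hy` gives the hypothesis of `index_le` (elements of `L` are mapped to 1).
-/

set_option autoImplicit false

namespace Pool.Agent.WPM

theorem reps {p r t : ℕ} [Fact p.Prime] (K : Type) [Field K] [CharP K p]
    (η : (Fin r → ℤ) → K) (h0 : η 0 = 1) (hadd : ∀ v w, η (v + w) = η v * η w)
    (L : AddSubgroup (Fin r → ℤ)) (hL : ∀ v ∈ L, η v = 1) (y : Fin t → (Fin r → ℤ))
    (hy : ∀ v : Fin r → ℤ, ∃ k : ℕ, 0 < k ∧ k • v ∈ AddSubgroup.closure (Set.range y) ⊔ L) :
    ∃ S : Finset K, S.card ≤ p ^ t ∧ ∀ v, ∃ u : K, ∃ s ∈ S, η v = u ^ p * s := by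
  classical
  let η' : Multiplicative (Fin r → ℤ) →* K :=
    { toFun := fun v => η v.toAdd
      map_one' := h0
      map_mul' := fun v w => hadd _ _ }
  let ψ : Multiplicative (Fin r → ℤ) →* Kˣ := MonoidHom.toHomUnits η'
  have hψ : ∀ v : Fin r → ℤ, ((ψ (Multiplicative.ofAdd v) : Kˣ) : K) = η v := fun v => rfl
  have hfg0 : Group.FG (Multiplicative (Fin r → ℤ)) := by
    have h : Module.Finite ℤ (Fin r → ℤ) := inferInstance
    have h2 : AddGroup.FG (Fin r → ℤ) := by
      rw [← Module.Finite.iff_addGroup_fg]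
      exact h
    infer_instance
  have hfg : Group.FG ψ.range := Group.fg_range ψ
  have hp1 : ∀ h : ψ.range, h ^ p = 1 → h = 1 := by
    rintro ⟨h, hh⟩ h1
    have h2 : ((h : Kˣ) : K) ^ p = 1 := by
      have h3 := congrArg (fun z : ψ.range => ((z : Kˣ) : K)) h1
      simpa using h3
    have h4 : ((h : Kˣ) : K) = 1 := by
      apply frobenius_inj K p
      rw [frobenius_def, frobenius_def, h2, one_pow]
    apply Subtype.ext
    apply Units.ext
    exact h4
  obtain ⟨S, hS, hSr⟩ := index_le (H := ψ.range) p hp1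
    (fun i : Fin t => (⟨ψ (Multiplicative.ofAdd (y i)), ⟨_, rfl⟩⟩ : ψ.range)) (by
      rintro ⟨_, ⟨v, rfl⟩⟩
      obtain ⟨k, hk, hkv⟩ := hy v.toAdd
      refine ⟨k, hk, ?_⟩
      obtain ⟨a, ha, l, hl, hal⟩ := AddSubgroup.mem_sup.mp hkv
      have h1 : (⟨ψ v, ⟨v, rfl⟩⟩ : ψ.range) ^ k
          = ⟨ψ (Multiplicative.ofAdd a), ⟨_, rfl⟩⟩ := by
        apply Subtype.ext
        apply Units.ext
        have e1 : ((ψ v : Kˣ) : K) ^ k = η (k • v.toAdd) := by
          have : ψ (v ^ k) = (ψ v) ^ k := map_pow ψ v k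
          have h5 := congrArg (fun z : Kˣ => (z : K)) this
          rw [Units.val_pow_eq_pow_val] at h5
          exact h5.symm
        change ((ψ v : Kˣ) : K) ^ k = ((ψ (Multiplicative.ofAdd a) : Kˣ) : K)
        rw [e1, ← hal, hadd, hL l hl, mul_one]
        rfl
      rw [h1]
      clear h1 hal hkv
      induction ha using AddSubgroup.closure_induction with
      | mem z hz =>
        obtain ⟨i, rfl⟩ := hz
        exact Subgroup.subset_closure ⟨i, rfl⟩
      | zero =>
        convert Subgroup.one_mem _ using 1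
        apply Subtype.ext
        exact map_one ψ
      | add a b _ _ iha ihb =>
        convert Subgroup.mul_mem _ iha ihb using 1
        apply Subtype.ext
        exact map_mul ψ (Multiplicative.ofAdd a) (Multiplicative.ofAdd b)
      | neg a _ iha =>
        convert Subgroup.inv_mem _ iha using 1
        apply Subtype.ext
        exact map_inv ψ (Multiplicative.ofAdd a))
  refine ⟨S.image (fun z : ψ.range => ((z : Kˣ) : K)), Finset.card_image_le.trans hS, ?_⟩
  intro v
  obtain ⟨u, s, hs, he⟩ := hSr ⟨ψ (Multiplicative.ofAdd v), ⟨_, rfl⟩⟩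
  refine ⟨((u : Kˣ) : K), ((s : Kˣ) : K), Finset.mem_image_of_mem _ hs, ?_⟩
  have h5 := congrArg (fun z : ψ.range => ((z : Kˣ) : K)) he
  rw [← hψ v]
  simpa using h5

end Pool.Agent.WPM
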