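import Mathlib.Algebra.CharP.Frobenius
import Mathlib.Algebra.CharP.Lemmas
import Mathlib.Algebra.CharP.Subring
import Mathlib.FieldTheory.IntermediateField.Adjoin.Basic
import Mathlib.LinearAlgebra.Dimension.Finite
import Mathlib.RingTheory.Algebraic.Basic

/-!
# A09: coordinates with respect to the field of `p`-th powers

HINTS.  `F = (frobenius K p).fieldRange`, the subfield of `p`-th powers, `K` is an `F`-vector space.
Claim: `K` is spanned over `F` by `S`.  Let `B` be the `F`-span of the `η v`; as the `η v` form a monoid,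
`B` is a subalgebra (`Submodule.span_mul_span` or `Algebra.adjoin_eq_span`); `K` is algebraic over `F`
(`z ^ p ∈ F`), so `B` is a subfield (`Subalgebra.isField_of_algebraic`; inverses:
`z⁻¹ = z ^ (p-1) * (z ^ p)⁻¹`, this is the quick way: if `z ∈ B`, `z ≠ 0`, then `z ^ (p-1) ∈ B` and
`(z ^ p)⁻¹ = (z⁻¹) ^ p ∈ F`).  It contains all sums and quotients of the `η v`, so it is `K` (`hgen`).
Since `η v = u ^ p * s`, the span of `S` contains all `η v`.  So `K` is finite-dimensional over `F` of
dimension `d ≤ S.card` (`finrank_span_finset_le_card`).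
Take a basis `b` of `K` over `F` (`Module.finBasis`), `φ j z` = the unique `x` with
`x ^ p = (b.repr z) j` (`frobenius K p` is injective, so `RingHom.rangeRestrict` is an isomorphism onto
`F`; additive: the inverse of a ring isomorphism); `φ j (x ^ p * z) = x * φ j z` from `F`-linearity.
-/

set_option autoImplicit false

namespace Pool.Agent.WPM

theorem a09_mul_mem {p r : ℕ} (K : Type) [Field K]
    (η : (Fin r → ℤ) → K) (hadd : ∀ v w, η (v + w) = η v * η w) (x y : K)
    (hx : x ∈ AddSubgroup.closure (Set.range η)) (hy : y ∈ AddSubgroup.closure (Set.range η)) :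
    x * y ∈ AddSubgroup.closure (Set.range η) := by
  have h1 : ∀ v, ∀ x ∈ AddSubgroup.closure (Set.range η), x * η v ∈ AddSubgroup.closure (Set.range η) := by
    intro v x hx
    induction hx using AddSubgroup.closure_induction with
    | mem z hz =>
      obtain ⟨w, rfl⟩ := hz
      rw [← hadd]
      exact AddSubgroup.subset_closure ⟨_, rfl⟩
    | zero => rw [zero_mul]; exact AddSubgroup.zero_mem _
    | add a b _ _ ha hb => rw [add_mul]; exact AddSubgroup.add_mem _ ha hb
    | neg a _ ha => rw [neg_mul]; exact AddSubgroup.neg_mem _ ha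
  induction hy using AddSubgroup.closure_induction with
  | mem z hz =>
    obtain ⟨w, rfl⟩ := hz
    exact h1 w x hx
  | zero => rw [mul_zero]; exact AddSubgroup.zero_mem _
  | add a b _ _ ha hb => rw [mul_add]; exact AddSubgroup.add_mem _ ha hb
  | neg a _ ha => rw [mul_neg]; exact AddSubgroup.neg_mem _ ha

theorem a09_pow_mem {p r : ℕ} (K : Type) [Field K]
    (η : (Fin r → ℤ) → K) (h0 : η 0 = 1) (hadd : ∀ v w, η (v + w) = η v * η w) (y : K)
    (hy : y ∈ AddSubgroup.closure (Set.range η)) (n : ℕ) :
    y ^ n ∈ AddSubgroup.closure (Set.range η) := by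
  induction n with
  | zero => rw [pow_zero]; exact AddSubgroup.subset_closure ⟨0, h0⟩
  | succ n ih => rw [pow_succ]; exact a09_mul_mem (p := p) K η hadd _ _ ih hy

theorem frob_coords {p r : ℕ} [Fact p.Prime] (K : Type) [Field K] [CharP K p]
    (η : (Fin r → ℤ) → K) (h0 : η 0 = 1) (hadd : ∀ v w, η (v + w) = η v * η w)
    (hgen : ∀ z : K, ∃ x y : K, x ∈ AddSubgroup.closure (Set.range η) ∧
      y ∈ AddSubgroup.closure (Set.range η) ∧ y ≠ 0 ∧ z * y = x)
    (S : Finset K) (hS : ∀ v, ∃ u : K, ∃ s ∈ S, η v = u ^ p * s) :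
    ∃ (d : ℕ) (φ : Fin d → K →+ K), d ≤ S.card ∧ (∀ z, (∀ j, φ j z = 0) → z = 0) ∧
      ∀ (j : Fin d) (x z : K), φ j (x ^ p * z) = x * φ j z := by
  classical
  let fr : K →+* K := frobenius K p
  let F : Subfield K := fr.fieldRange
  let e : K ≃+* F := RingEquiv.ofBijective fr.rangeRestrictField
    ⟨(fr.rangeRestrictField).injective, fr.rangeRestrictField_bijective.2⟩
  have he : ∀ x : K, ((e x : F) : K) = x ^ p := fun x => frobenius_def p x
  have hB : Submodule.span F (S : Set K) = ⊤ := by
    have h1 : ∀ v, η v ∈ Submodule.span F (S : Set K) := by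
      intro v
      obtain ⟨u, s, hs, hus⟩ := hS v
      rw [hus, ← he u]
      exact Submodule.smul_mem _ (e u) (Submodule.subset_span hs)
    have h2 : ∀ x ∈ AddSubgroup.closure (Set.range η), x ∈ Submodule.span F (S : Set K) := by
      intro x hx
      induction hx using AddSubgroup.closure_induction with
      | mem z hz =>
        obtain ⟨w, rfl⟩ := hz
        exact h1 w
      | zero => exact Submodule.zero_mem _
      | add a b _ _ ha hb => exact Submodule.add_mem _ ha hb
      | neg a _ ha => exact Submodule.neg_mem _ ha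
    rw [Submodule.eq_top_iff']
    intro z
    obtain ⟨x, y, hx, hy, hy0, hzy⟩ := hgen z
    have hp : 1 ≤ p := (Fact.out : p.Prime).one_le
    have h3 : z = ((e y⁻¹ : F) : K) * (x * y ^ (p - 1)) := by
      rw [he, ← hzy]
      have h4 : y * y ^ (p - 1) = y ^ p := by
        rw [← pow_succ']
        congr 1
        omega
      rw [mul_assoc z, h4, inv_pow]
      field_simp
    rw [h3]
    exact Submodule.smul_mem _ (e y⁻¹)
      (h2 _ (a09_mul_mem (p := p) K η hadd _ _ hx (a09_pow_mem (p := p) K η h0 hadd y hy _)))
  have hfin : Module.Finite F K := ⟨⟨S, hB⟩⟩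
  have hfree : Module.Free F K := Module.Free.of_divisionRing F K
  let b := Module.finBasis F K
  refine ⟨Module.finrank F K, fun j =>
    { toFun := fun z => e.symm (b.repr z j)
      map_zero' := by rw [map_zero]; exact map_zero e.symm
      map_add' := fun x y => by rw [map_add]; exact map_add e.symm _ _ }, ?_, ?_, ?_⟩
  · have h5 := finrank_span_finset_le_card (R := F) S
    unfold Set.finrank at h5
    rw [hB, finrank_top] at h5
    exact h5
  · intro z hz
    apply b.repr.injective
    rw [map_zero]
    ext j
    have h6 : e.symm (b.repr z j) = 0 := hz j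
    have h7 : b.repr z j = 0 := by
      apply e.symm.injective
      rw [h6, map_zero]
    rw [h7]
    rfl
  · intro j x z
    have h8 : x ^ p * z = (e x) • z := by
      rw [← he x]
      rfl
    change e.symm (b.repr (x ^ p * z) j) = x * e.symm (b.repr z j)
    rw [h8, map_smul, Finsupp.smul_apply, smul_eq_mul, map_mul, RingEquiv.symm_apply_apply]

end Pool.Agent.WPM
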