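import Pool.Agent.Lib.MP_2da099_lc.ADefs
import Pool.Agent.Lib.MP_2da099_lc.S01
import Mathlib.Algebra.CharP.Algebra
import Mathlib.LinearAlgebra.FiniteDimensional.Basic
import Mathlib.LinearAlgebra.Basis.VectorSpace
import Mathlib.Algebra.Algebra.ZMod
import Mathlib.Algebra.Algebra.Operations
import Mathlib.Tactic.Linarith
import Mathlib.Tactic.Ring
import Mathlib.Data.Pi.Interval
import Mathlib.Data.Int.Interval

/-!
# A10: a finite space of coefficients

HINTS.  `R` = the additive subgroup generated by the `η v` (closed under multiplication); for `D : ℕ`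
let `R_D` be the additive subgroup (or `ZMod p`-submodule, `K` has characteristic `p`: `ZMod.algebra`)
generated by the `η v` with `|v i| ≤ D` for all `i`: finite; `R = ⋃ R_D`, `R_D * R_D' ⊆ R_(D+D')`,
`R_D ⊆ R_D'` for `D ≤ D'`.
* Finitely many elements of `K` have a common denominator in `R` (`hgen`): `m ≠ 0` with
  `m * φ j (η (dz ρ)) ∈ R_(D0)` for all digit vectors `ρ : Fin r → Fin p` and all `j` (here `m * φ j x`
  is again additive in `x` and still `p`-semilinear), and `c ≠ 0` with `c * α k ∈ R_(D1)`.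
* Let `D ≥ 2 * D0 + 6`, `D ≥ D1 + 1`.  For `|v i| ≤ D` and digits `a` (`0 ≤ a i < p`):
  `η (dz a) * η v = (η w) ^ p * η (dz ρ)` with `w = fl p (dz a + v)`, `ρ = md p (dz a + v)`, so
  `m * φ j (η (dz a) * η v) = η w * (m * φ j (η (dz ρ)))`, `|w i| ≤ (D + p) / p + 1 ≤ D / 2 + 2`, and
  after multiplication by `η (sz δ)` the result lies in `R_(D/2 + 3 + D0) ⊆ R_D`.
* `R_D` is a finite-dimensional `ZMod p`-vector space: a linear isomorphism with `Vec p e = Fin e → ZMod p`
  (`Module.finBasis`, `Basis.equivFun`) gives `ε`; define `st` and `αE` by the inverse.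
-/

set_option autoImplicit false

namespace Pool.Agent.WPM

/-- The boxes of exponents. -/
def a10Box (r D : ℕ) : Set (Fin r → ℤ) := {v | ∀ i, |v i| ≤ (D : ℤ)}

theorem a10_box_finite (r D : ℕ) : (a10Box r D).Finite := by
  apply (Set.finite_Icc (fun _ : Fin r => -(D : ℤ)) (fun _ => (D : ℤ))).subset
  intro v hv
  exact ⟨fun i => (abs_le.mp (hv i)).1, fun i => (abs_le.mp (hv i)).2⟩

section

variable {p r : ℕ} [Fact p.Prime] {K : Type} [Field K] [CharP K p] (η : (Fin r → ℤ) → K)

/-- The span of the monomials in a box. -/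
def a10E (p : ℕ) [Fact p.Prime] {K : Type} [Field K] [CharP K p] (η : (Fin r → ℤ) → K)
    [Module (ZMod p) K] (D : ℕ) : Submodule (ZMod p) K :=
  Submodule.span (ZMod p) (η '' a10Box r D)

variable [Algebra (ZMod p) K]

theorem a10_mem {v : Fin r → ℤ} {D : ℕ} (h : ∀ i, |v i| ≤ (D : ℤ)) : η v ∈ a10E p η D :=
  Submodule.subset_span ⟨v, h, rfl⟩

theorem a10_mono {D D' : ℕ} (h : D ≤ D') : a10E p η D ≤ a10E p η D' := by
  apply Submodule.span_mono
  apply Set.image_mono
  intro v hv i
  exact (hv i).trans (by exact_mod_cast h)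

theorem a10_mul (hadd : ∀ v w, η (v + w) = η v * η w) {D D' : ℕ} {x y : K}
    (hx : x ∈ a10E p η D) (hy : y ∈ a10E p η D') : x * y ∈ a10E p η (D + D') := by
  have h1 : a10E p η D * a10E p η D' ≤ a10E p η (D + D') := by
    unfold a10E
    rw [Submodule.span_mul_span]
    apply Submodule.span_mono
    rintro z ⟨_, ⟨v, hv, rfl⟩, _, ⟨w, hw, rfl⟩, rfl⟩
    refine ⟨v + w, ?_, hadd v w⟩
    intro i
    rw [Pi.add_apply]
    refine (abs_add_le _ _).trans ?_
    push_cast
    exact add_le_add (hv i) (hw i)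
  exact h1 (Submodule.mul_mem_mul hx hy)

theorem a10_exists (x : K) (hx : x ∈ AddSubgroup.closure (Set.range η)) :
    ∃ D, x ∈ a10E p η D := by
  induction hx using AddSubgroup.closure_induction with
  | mem z hz =>
    obtain ⟨v, rfl⟩ := hz
    refine ⟨∑ i, (v i).natAbs, a10_mem η ?_⟩
    intro i
    have h1 : (v i).natAbs ≤ ∑ i, (v i).natAbs :=
      Finset.single_le_sum (f := fun i => (v i).natAbs) (fun _ _ => Nat.zero_le _) (Finset.mem_univ i)
    rw [Int.abs_eq_natAbs]
    exact_mod_cast h1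
  | zero => exact ⟨0, Submodule.zero_mem _⟩
  | add a b _ _ ha hb =>
    obtain ⟨D, hD⟩ := ha
    obtain ⟨D', hD'⟩ := hb
    exact ⟨D + D', Submodule.add_mem _ (a10_mono η (Nat.le_add_right _ _) hD)
      (a10_mono η (Nat.le_add_left _ _) hD')⟩
  | neg a _ ha =>
    obtain ⟨D, hD⟩ := ha
    exact ⟨D, Submodule.neg_mem _ hD⟩

theorem a10_denom (h0 : η 0 = 1) (hadd : ∀ v w, η (v + w) = η v * η w)
    (hgen : ∀ z : K, ∃ x y : K, x ∈ AddSubgroup.closure (Set.range η) ∧
      y ∈ AddSubgroup.closure (Set.range η) ∧ y ≠ 0 ∧ z * y = x)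
    {κ : Type} (z : κ → K) (s : Finset κ) :
    ∃ (y : K) (D : ℕ), y ≠ 0 ∧ y ∈ a10E p η D ∧ ∀ i ∈ s, y * z i ∈ a10E p η D := by
  classical
  induction s using Finset.induction_on with
  | empty =>
    refine ⟨1, 0, one_ne_zero, ?_, ?_⟩
    · rw [← h0]
      exact a10_mem η (fun i => by simp)
    · intro i hi
      exact absurd hi (Finset.notMem_empty i)
  | insert k s _ ih =>
    obtain ⟨y, D, hy0, hyD, hyz⟩ := ih
    obtain ⟨x', y', hx', hy', hy'0, hz⟩ := hgen (z k)
    obtain ⟨D1, hD1⟩ := a10_exists (p := p) η x' hx'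
    obtain ⟨D2, hD2⟩ := a10_exists (p := p) η y' hy'
    refine ⟨y * y', D + (D1 + D2), mul_ne_zero hy0 hy'0, ?_, ?_⟩
    · exact a10_mul η hadd hyD (a10_mono η (Nat.le_add_left _ _) hD2)
    · intro i hi
      rcases Finset.mem_insert.mp hi with h | h
      · rw [h]
        have h1 : y * y' * z k = y * x' := by
          rw [← hz]
          ring
        rw [h1]
        exact a10_mul η hadd hyD (a10_mono η (Nat.le_add_right _ _) hD1)
      · have h1 : y * y' * z i = y * z i * y' := by ring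
        rw [h1]
        exact a10_mul η hadd (hyz i h) (a10_mono η (Nat.le_add_left _ _) hD2)

end

theorem a10_nsmul {r : ℕ} {K : Type} [Field K] (η : (Fin r → ℤ) → K) (h0 : η 0 = 1)
    (hadd : ∀ v w, η (v + w) = η v * η w) (n : ℕ) (w : Fin r → ℤ) : η (n • w) = η w ^ n := by
  induction n with
  | zero => rw [zero_smul, h0, pow_zero]
  | succ n ih => rw [succ_nsmul, hadd, ih, pow_succ]

theorem field_data {p r : ℕ} [Fact p.Prime] (K : Type) [Field K] [CharP K p]
    (η : (Fin r → ℤ) → K) (h0 : η 0 = 1) (hadd : ∀ v w, η (v + w) = η v * η w)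
    (hgen : ∀ z : K, ∃ x y : K, x ∈ AddSubgroup.closure (Set.range η) ∧
      y ∈ AddSubgroup.closure (Set.range η) ∧ y ≠ 0 ∧ z * y = x)
    {d : ℕ} (φ : Fin d → K →+ K) (hφ : ∀ (j : Fin d) (x z : K), φ j (x ^ p * z) = x * φ j z)
    (κ : Type) [Finite κ] (α : κ → K) :
    ∃ (e : ℕ) (ε : Vec p e →+ K) (c m : K) (αE : κ → Sg r → Vec p e)
      (st : (Fin r → Fin p) → Sg r → Fin d → Vec p e → Vec p e),
      Function.Injective ε ∧ c ≠ 0 ∧ m ≠ 0 ∧
      (∀ k δ, ε (αE k δ) = η (sz δ) * (c * α k)) ∧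
      ∀ a δ j u, ε (st a δ j u) = η (sz δ) * (m * φ j (η (dz a) * ε u)) := by
  classical
  let iAlg : Algebra (ZMod p) K := ZMod.algebra K p
  have hp2 : 2 ≤ p := (Fact.out : p.Prime).two_le
  cases nonempty_fintype κ
  obtain ⟨m, D0, hm0, hmD, hmz⟩ := a10_denom (p := p) η h0 hadd hgen
    (fun x : (Fin r → Fin p) × Fin d => φ x.2 (η (dz x.1))) Finset.univ
  obtain ⟨c, D1, hc0, hcD, hcz⟩ := a10_denom (p := p) η h0 hadd hgen α Finset.univ
  let D : ℕ := 2 * D0 + D1 + 8
  have hsz : ∀ δ : Sg r, η (sz δ) ∈ a10E p η 1 := by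
    intro δ
    apply a10_mem
    intro i
    exact_mod_cast abs_cast_le (δ i)
  -- the two closure properties
  have hE1 : ∀ k δ, η (sz δ) * (c * α k) ∈ a10E p η D := by
    intro k δ
    refine a10_mono η ?_ (a10_mul η hadd (hsz δ) (hcz k (Finset.mem_univ k)))
    change 1 + D1 ≤ 2 * D0 + D1 + 8
    omega
  have hE2 : ∀ (a : Fin r → Fin p) (δ : Sg r) (j : Fin d) (u : K), u ∈ a10E p η D →
      η (sz δ) * (m * φ j (η (dz a) * u)) ∈ a10E p η D := by
    intro a δ j u hu
    induction hu using Submodule.span_induction with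
    | mem z hz =>
      obtain ⟨v, hv, rfl⟩ := hz
      let x : Fin r → ℤ := dz a + v
      have hx : x = p • fl p x + dz (md p x) := by
        funext i
        have h1 := fl_add_md p x i
        rw [Pi.add_apply, Pi.smul_apply, nsmul_eq_mul]
        exact h1
      have h2 : η (dz a) * η v = (η (fl p x)) ^ p * η (dz (md p x)) := by
        rw [← hadd, ← a10_nsmul η h0 hadd, ← hadd, ← hx]
      rw [h2, hφ]
      have h3 : η (sz δ) * (m * (η (fl p x) * φ j (η (dz (md p x)))))
          = η (sz δ) * (η (fl p x) * (m * φ j (η (dz (md p x))))) := by ring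
      rw [h3]
      have h4 : η (fl p x) ∈ a10E p η (D / 2 + 2) := by
        apply a10_mem
        intro i
        have hvi := abs_le.mp (hv i)
        have ha0 : (0 : ℤ) ≤ ((a i : ℕ) : ℤ) := Int.natCast_nonneg _
        have ha1 : ((a i : ℕ) : ℤ) < (p : ℤ) := by exact_mod_cast (a i).isLt
        have hxi : x i = ((a i : ℕ) : ℤ) + v i := rfl
        have hp0 : (0 : ℤ) < (p : ℤ) := by exact_mod_cast (by omega : 0 < p)
        have hp2' : (2 : ℤ) ≤ (p : ℤ) := by exact_mod_cast hp2
        have e1 := Int.mul_ediv_add_emod (x i) (p : ℤ)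
        have e2 := Int.emod_nonneg (x i) hp0.ne'
        have e3 := Int.emod_lt_of_pos (x i) hp0
        have e4 : fl p x i = x i / (p : ℤ) := rfl
        rw [e4]
        have e5 : ((D / 2 + 2 : ℕ) : ℤ) = (D : ℤ) / 2 + 2 := by push_cast; rfl
        rw [e5, abs_le]
        have e6 : (D : ℤ) ≤ 2 * ((D : ℤ) / 2) + 1 := by omega
        constructor
        · by_contra hcon
          have h7 : x i / (p : ℤ) ≤ -((D : ℤ) / 2 + 2) - 1 := by omega
          have h8 : (p : ℤ) * (x i / (p : ℤ)) ≤ (p : ℤ) * (-((D : ℤ) / 2 + 2) - 1) :=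
            mul_le_mul_of_nonneg_left h7 hp0.le
          nlinarith
        · by_contra hcon
          have h7 : (D : ℤ) / 2 + 3 ≤ x i / (p : ℤ) := by omega
          have h8 : (p : ℤ) * ((D : ℤ) / 2 + 3) ≤ (p : ℤ) * (x i / (p : ℤ)) :=
            mul_le_mul_of_nonneg_left h7 hp0.le
          nlinarith
      refine a10_mono η ?_ (a10_mul η hadd (hsz δ)
        (a10_mul η hadd h4 (hmz (md p x, j) (Finset.mem_univ _))))
      change 1 + (D / 2 + 2 + D0) ≤ D
      have h9 : D = 2 * D0 + D1 + 8 := rfl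
      omega
    | zero =>
      rw [mul_zero, map_zero, mul_zero, mul_zero]
      exact Submodule.zero_mem _
    | add x y _ _ hx hy =>
      rw [mul_add, map_add, mul_add, mul_add]
      exact Submodule.add_mem _ hx hy
    | smul b x _ hx =>
      have h1 : ∀ y : K, b • y = b.val • y := by
        intro y
        rw [← Nat.cast_smul_eq_nsmul (ZMod p), ZMod.natCast_zmod_val]
      rw [h1, mul_smul_comm, map_nsmul, mul_smul_comm, mul_smul_comm, ← h1]
      exact Submodule.smul_mem _ _ hx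
  have hfin : FiniteDimensional (ZMod p) (a10E p η D) :=
    FiniteDimensional.span_of_finite (ZMod p) ((a10_box_finite r D).image η)
  have hfree : Module.Free (ZMod p) (a10E p η D) := Module.Free.of_divisionRing _ _
  let B := Module.finBasis (ZMod p) (a10E p η D)
  let ε : Vec p (Module.finrank (ZMod p) (a10E p η D)) →+ K :=
    ((a10E p η D).subtype.comp B.equivFun.symm.toLinearMap).toAddMonoidHom
  have hεmem : ∀ u, ε u ∈ a10E p η D := fun u => (B.equivFun.symm u).2
  have hεinj : Function.Injective ε := by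
    intro u v huv
    exact B.equivFun.symm.injective (Subtype.ext huv)
  have hεsurj : ∀ x ∈ a10E p η D, ∃ u, ε u = x := by
    intro x hx
    refine ⟨B.equivFun ⟨x, hx⟩, ?_⟩
    change ((B.equivFun.symm (B.equivFun ⟨x, hx⟩) : a10E p η D) : K) = x
    rw [LinearEquiv.symm_apply_apply]
  choose αE hαE using fun k δ => hεsurj _ (hE1 k δ)
  choose st hst using fun a δ j u => hεsurj _ (hE2 a δ j (ε u) (hεmem u))
  exact ⟨_, ε, c, m, αE, st, hεinj, hc0, hm0, hαE, hst⟩

end Pool.Agent.WPM
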