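import Pool.Agent.Lib.MP_2da099_lc.A06
import Pool.Agent.Lib.MP_2da099_lc.A08
import Pool.Agent.Lib.MP_2da099_lc.A09
import Pool.Agent.Lib.MP_2da099_lc.A10

/-!
# A11: sound data for a primary component

HINTS.  `K = FractionRing (Lam p r ⧸ P)`, `η v = algebraMap _ K (Ideal.Quotient.mk P (mon v))`.
* `η` is multiplicative; `K` has characteristic `p`; `hgen`: every element of `Lam p r ⧸ P` is a sum of
  classes of monomials (coefficients in `ZMod p` are sums of ones), and `K` is the fraction field.
* For `v ∈ L`: `mon v - 1 ∈ P`, otherwise all `x ∈ Q` by `h1`, contradiction to `Q ≠ ⊤`; so `η v = 1`.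
* `reps`, `frob_coords`, `twist` (with `ι = Letter r`; it gives `N0`, `s`, `α`), `field_data` with
  `κ = (Fin r → Fin (p ^ N0)) × Letter r × Fin s`.
* `D : Data p r` with `q = p ^ N0`, `e`, `d`, `s`, `step = st`, `init a δ l j = αE (a, l, j) δ`, and
  `V c u = η c * ε u`.  Check the five properties of `Data.Sound`: the sum `z = Σ η c_i * ε u_i` is zero
  iff all `φ j z = 0`, and `m * φ j z = Σ V (fl p c_i) (st (md p c_i) 0 j u_i)` by
  `η c = (η (fl p c)) ^ p * η (dz (md p c))` (`fl_add_md`); multiply the last one by `c`.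
-/

set_option autoImplicit false

namespace Pool.Agent.WPM

/-- Images of elements of the group ring are sums of images of monomials. -/
theorem a11_mem_closure {p r : ℕ} [Fact p.Prime] {K : Type} [Field K] (f : Lam p r →+* K)
    (x : Lam p r) : f x ∈ AddSubgroup.closure (Set.range (fun v : Fin r → ℤ => f (mon v))) := by
  classical
  induction x using AddMonoidAlgebra.induction_linear with
  | zero => rw [map_zero]; exact AddSubgroup.zero_mem _
  | add a b ha hb => rw [map_add]; exact AddSubgroup.add_mem _ ha hb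
  | single v c =>
    have hc : (AddMonoidAlgebra.single v c : Lam p r) = c.val • (mon v : Lam p r) := by
      unfold mon
      rw [AddMonoidAlgebra.smul_single]
      congr 1
      rw [nsmul_eq_mul, mul_one, ZMod.natCast_zmod_val]
    rw [hc, map_nsmul]
    exact AddSubgroup.nsmul_mem _ (AddSubgroup.subset_closure (Set.mem_range_self v)) _

theorem a11_sz_zero {r : ℕ} : sz (fun _ => 0 : Sg r) = 0 := by
  funext i
  simp [sz]

theorem component_sound {p r t : ℕ} [Fact p.Prime]
    (Q : Submodule (Lam p r) (Letter r → Lam p r)) (P : Ideal (Lam p r)) (hP : P.IsPrime)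
    (hQ : Q ≠ ⊤) (h1 : ∀ f, f ∉ P → ∀ x, f • x ∈ Q → x ∈ Q)
    (h2 : ∃ k : ℕ, ∀ f ∈ P ^ k, ∀ x, f • x ∈ Q)
    (L : AddSubgroup (Fin r → ℤ)) (hL : ∀ v ∈ L, ∀ x, ((mon v : Lam p r) - 1) • x ∈ Q)
    (y : Fin t → (Fin r → ℤ))
    (hy : ∀ v : Fin r → ℤ, ∃ k : ℕ, 0 < k ∧ k • v ∈ AddSubgroup.closure (Set.range y) ⊔ L) :
    ∃ D : Data p r, D.d ≤ p ^ t ∧ D.Sound (fun w => ((posl 0 w).map
      (fun x => (mon x.1 : Lam p r) • (Pi.single x.2 1 : Letter r → Lam p r))).sum ∈ Q) := by
  classical
  have hdom : IsDomain (Lam p r ⧸ P) := Ideal.Quotient.isDomain P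
  let K : Type := FractionRing (Lam p r ⧸ P)
  let F : Lam p r →+* K := (algebraMap (Lam p r ⧸ P) K).comp (Ideal.Quotient.mk P)
  have hchar : CharP K p :=
    charP_of_injective_ringHom (f := F.comp (algebraMap (ZMod p) (Lam p r)))
      (RingHom.injective _) p
  let η : (Fin r → ℤ) → K := fun v => F (mon v)
  have h0 : η 0 = 1 := by
    change F (mon 0) = 1
    have : (mon 0 : Lam p r) = 1 := rfl
    rw [this, map_one]
  have hadd : ∀ v w, η (v + w) = η v * η w := by
    intro v w
    change F (mon (v + w)) = F (mon v) * F (mon w)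
    rw [← map_mul, twist_mon_mul]
  have hgen : ∀ z : K, ∃ x y : K, x ∈ AddSubgroup.closure (Set.range η) ∧
      y ∈ AddSubgroup.closure (Set.range η) ∧ y ≠ 0 ∧ z * y = x := by
    intro z
    obtain ⟨a, b, hb, rfl⟩ := IsFractionRing.div_surjective (A := Lam p r ⧸ P) z
    obtain ⟨a, rfl⟩ := Ideal.Quotient.mk_surjective a
    obtain ⟨b, rfl⟩ := Ideal.Quotient.mk_surjective b
    have hb' : algebraMap (Lam p r ⧸ P) K (Ideal.Quotient.mk P b) ≠ 0 :=
      IsFractionRing.to_map_ne_zero_of_mem_nonZeroDivisors hb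
    exact ⟨F a, F b, a11_mem_closure F a, a11_mem_closure F b, hb', div_mul_cancel₀ _ hb'⟩
  have hLη : ∀ v ∈ L, η v = 1 := by
    intro v hv
    have hmem : (mon v : Lam p r) - 1 ∈ P := by
      by_contra hnot
      apply hQ
      rw [eq_top_iff]
      intro x _
      exact h1 _ hnot x (hL v hv x)
    change algebraMap (Lam p r ⧸ P) K (Ideal.Quotient.mk P (mon v)) = 1
    rw [Ideal.Quotient.eq.mpr hmem, map_one, map_one]
  have hηne : ∀ v, η v ≠ 0 := by
    intro v hv
    have h := hadd v (-v)
    rw [add_neg_cancel, h0, hv, zero_mul] at h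
    exact one_ne_zero h
  obtain ⟨S, hS, hSr⟩ := reps (t := t) K η h0 hadd L hLη y hy
  obtain ⟨d, φ, hd, hφinj, hφsl⟩ := frob_coords K η h0 hadd hgen S hSr
  obtain ⟨N0, s, α, hα⟩ := twist (Letter r) Q P h1 h2 K
  obtain ⟨e, ε, c, m, αE, st, hε, hc, hm, hαE, hst⟩ := field_data K η h0 hadd hgen φ hφsl
    ((Fin r → Fin (p ^ N0)) × Letter r × Fin s) (fun x => α x.1 x.2.1 x.2.2)
  have hq0 : NeZero (p ^ N0) := inferInstance
  let D : Data p r :=
    { q := p ^ N0
      hq := hq0
      e := e
      d := d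
      s := s
      step := st
      init := fun a δ l j => αE (a, l, j) δ }
  let V : (Fin r → ℤ) → Vec p e →+ K := fun c => (AddMonoidHom.mulLeft (η c)).comp ε
  have hV : ∀ c u, V c u = η c * ε u := fun c u => rfl
  refine ⟨D, hd.trans hS, K, inferInstance, V, ?_, ?_, ?_, ?_, ?_⟩
  · intro v u u' h
    rw [hV, hV] at h
    exact hε (mul_left_cancel₀ (hηne v) h)
  · intro v δ a j u
    change V (v + sz δ) (st a (fun _ => 0) j u) = V v (st a δ j u)
    rw [hV, hV, hst, hst, a11_sz_zero, h0, one_mul, hadd, mul_assoc]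
  · intro l
    change (l.map (fun x => V x.1 x.2)).sum = 0 ↔ ∀ j : Fin d,
      (l.map (fun x => V (fl p x.1) (st (md p x.1) (fun _ => 0) j x.2))).sum = 0
    have key : ∀ j : Fin d, (l.map (fun x => V (fl p x.1)
        (st (md p x.1) (fun _ => 0) j x.2))).sum = m * φ j (l.map (fun x => V x.1 x.2)).sum := by
      intro j
      rw [map_list_sum, List.map_map, ← List.sum_map_mul_left]
      refine congrArg List.sum (List.map_congr_left (fun x _ => ?_))
      simp only [Function.comp_apply]
      rw [hV, hV, hst, a11_sz_zero, h0, one_mul]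
      have hsplit : η x.1 = (η (fl p x.1)) ^ p * η (dz (md p x.1)) := by
        change F (mon x.1) = F (mon (fl p x.1)) ^ p * F (mon (dz (md p x.1)))
        rw [← map_pow, ← map_mul, ← twist_mon_split]
      rw [hsplit, mul_assoc (η (fl p x.1) ^ p), hφsl]
      ring
    constructor
    · intro h j
      rw [key, h, map_zero, mul_zero]
    · intro h
      apply hφinj
      intro j
      have := h j
      rw [key] at this
      exact (mul_eq_zero.mp this).resolve_left hm
  · intro v δ a l j
    change V (v + sz δ) (αE (a, l, j) (fun _ => 0)) = V v (αE (a, l, j) δ)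
    rw [hV, hV, hαE, hαE, a11_sz_zero, h0, one_mul, hadd, mul_assoc]
  · intro w
    refine (hα (posl 0 w)).trans ?_
    change (∀ j, _) ↔ ∀ j : Fin s, ((posl 0 w).map
      (fun x => V (fl (p ^ N0) x.1) (αE (md (p ^ N0) x.1, x.2, j) (fun _ => 0)))).sum = 0
    refine forall_congr' (fun j => ?_)
    have key : ((posl 0 w).map
        (fun x => V (fl (p ^ N0) x.1) (αE (md (p ^ N0) x.1, x.2, j) (fun _ => 0)))).sum
        = c * ((posl 0 w).map (fun x => algebraMap (Lam p r ⧸ P) K
          (Ideal.Quotient.mk P (mon (fl (p ^ N0) x.1))) * α (md (p ^ N0) x.1) x.2 j)).sum := by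
      rw [← List.sum_map_mul_left]
      refine congrArg List.sum (List.map_congr_left (fun x _ => ?_))
      rw [hV, hαE, a11_sz_zero, h0, one_mul]
      change F (mon _) * _ = c * (F (mon _) * _)
      ring
    rw [key]
    constructor
    · intro h
      rw [h, mul_zero]
    · intro h
      exact (mul_eq_zero.mp h).resolve_left hc

end Pool.Agent.WPM
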