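import Pool.Agent.Lib.MP_2da099_lc.K05

/-!
# K06: cost of the decision procedure
-/

set_option autoImplicit false

namespace Pool.Agent.WPM

open Pool.Agent.Lib.PolyTime Function

/-- The cost of the decision procedure. -/
noncomputable def dcost {p r : ℕ} [NeZero p] (D : Data p r) (w : List (Letter r)) : ℕ :=
  w.length + foldCost (fun y => lcost D y.2) (fun y => level D y.2) w (start D w) +
    ((w.foldl (fun x _ => level D x) (start D w)).1.length +
      ((w.foldl (fun x _ => level D x) (start D w)).2.length + 1) *
        (mxl (w.foldl (fun x _ => level D x) (start D w)).2 + 1))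

theorem k06_foldCost_add {τ ρ : Type} (T : τ × ρ → ℕ) (U : τ → ℕ) (step : τ × ρ → ρ)
    (B : ℕ) (hU : ∀ a, U a ≤ B) (l : List τ) (s : ρ) :
    foldCost (fun y => U y.1 + T y) step l s ≤ foldCost T step l s + B * l.length := by
  induction l generalizing s with
  | nil => simp [foldCost]
  | cons a l ih =>
    have h1 := hU a
    have h2 := ih (step (a, s))
    have e : B * (a :: l).length = B * l.length + B := by
      rw [List.length_cons]; ring
    simp only [foldCost]
    omega

theorem ct_decide {p r : ℕ} [NeZero p] (D : Data p r) : CT (decide' D) (dcost D) := by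
  obtain ⟨κ, hκ⟩ := size_fin (Letter r)
  obtain ⟨κ3, hκ3⟩ := size_list_fin (Letter r)
  have a1 : CT (fun w : List (Letter r) => (w, w)) (fun w => size w) := CT.dup
  have a2 : CT (fun x : List (Letter r) × List (Letter r) => (x.1, start D x.2)) _ :=
    CT.second (γ := List (Letter r)) (ct_start D)
  have b1 : CT (fun x : Letter r × (List (Sg r) × List (List (Vec p D.e))) => x.2)
      (fun x => size x.1) := CT.snd
  have b2 : CT (fun x : Letter r × (List (Sg r) × List (List (Vec p D.e))) => level D x.2)
      (fun x => size x.1 + lcost D x.2) := (ct_level D).comp b1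
  have a3 := CT.foldl b2
  have a4 := ct_finish p D.e r
  have all := a4.comp (a3.comp (a2.comp a1))
  refine (all.mono (3 * κ3 + κ + 3) (fun w => ?_)).congr (fun w => rfl)
  have s1 : size w ≤ κ3 * (w.length + 1) := hκ3 w
  have s2 := k06_foldCost_add (fun y : Letter r × (List (Sg r) × List (List (Vec p D.e))) =>
    lcost D y.2) (fun a => size a) (fun y => level D y.2) κ hκ w (start D w)
  show size w + (size w + w.length) + (size w +
      foldCost (fun y : Letter r × (List (Sg r) × List (List (Vec p D.e))) =>
        size y.1 + lcost D y.2) (fun y => level D y.2) w (start D w)) +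
    ((w.foldl (fun x _ => level D x) (start D w)).1.length +
      ((w.foldl (fun x _ => level D x) (start D w)).2.length + 1) *
        (mxl (w.foldl (fun x _ => level D x) (start D w)).2 + 1)) ≤
    (3 * κ3 + κ + 3) * (dcost D w + 1)
  unfold dcost
  generalize foldCost (fun y : Letter r × (List (Sg r) × List (List (Vec p D.e))) =>
    lcost D y.2) (fun y => level D y.2) w (start D w) = F at *
  generalize ((w.foldl (fun x _ => level D x) (start D w)).1.length +
      ((w.foldl (fun x _ => level D x) (start D w)).2.length + 1) *
        (mxl (w.foldl (fun x _ => level D x) (start D w)).2 + 1)) = G at *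
  have e : (3 * κ3 + κ + 3) * (w.length + F + G + 1) = 3 * (κ3 * (w.length + 1)) +
    3 * κ3 * (F + G) + κ * w.length + κ * (F + G + 1) + 3 * (w.length + F + G + 1) := by ring
  rw [e]
  omega

end Pool.Agent.WPM
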