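import Pool.Agent.Lib.MP_2da099_lc.S05

/-!
# S06: the decision procedure is correct
-/

set_option autoImplicit false
set_option linter.unusedSectionVars false

namespace Pool.Agent.WPM

variable {p r : ℕ} [Fact p.Prime]

theorem posl_eq_zip_aux {r : ℕ} (w : List (Letter r)) (c : Fin r → ℤ) (s0 : Sg r) :
    posl (c + sz s0) w =
      (posd c (trans (fun (s : Sg r) (l : Letter r) => (sgl l, s)) s0 w)).zip w := by
  induction w generalizing c s0 with
  | nil => simp [posl]
  | cons l w ih =>
    simp only [posl, trans, posd, List.zip_cons_cons]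
    rw [ih]

theorem sz_zero {r : ℕ} : sz (fun _ => 0 : Sg r) = 0 := by
  funext i
  simp [sz]

theorem posl_eq_zip (w : List (Letter r)) : posl 0 w = (posd 0 (incr w)).zip w := by
  have h := posl_eq_zip_aux w 0 (fun _ => 0)
  rw [sz_zero, add_zero] at h
  exact h

theorem length_incr (w : List (Letter r)) : (incr w).length = w.length :=
  length_trans _ _ _

theorem start_rows (D : Data p r) (w : List (Letter r)) :
    ∀ row ∈ (start D w).2, row.length = (start D w).1.length := by
  intro row hrow
  unfold start at hrow ⊢
  simp only [List.mem_map] at hrow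
  obtain ⟨j, _, rfl⟩ := hrow
  exact length_brow _ _ _ (length_incr w).symm

theorem start_length_fst (D : Data p r) (w : List (Letter r)) :
    (start D w).1.length = (w.length + D.q - 1) / D.q := by
  unfold start
  rw [length_nxt, length_incr]

theorem start_card (D : Data p r) (w : List (Letter r)) : (start D w).2.length = D.s := by
  unfold start
  simp

theorem start_iff (D : Data p r) {K : Type} [AddCommGroup K]
    (V : (Fin r → ℤ) → Vec p D.e →+ K)
    (h4 : ∀ (c : Fin r → ℤ) (δ : Sg r) (a : Fin r → Fin D.q) (l : Letter r) (j : Fin D.s),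
      V (c + sz δ) (D.init a (fun _ => 0) l j) = V c (D.init a δ l j))
    (w : List (Letter r)) :
    (∀ row ∈ (start D w).2, val V (posd 0 (start D w).1) row = 0) ↔
      ∀ j, ((posl 0 w).map
        (fun x => V (fl D.q x.1) (D.init (md D.q x.1) (fun _ => 0) x.2 j))).sum = 0 := by
  have key : ∀ j, val V (posd 0 (start D w).1)
      (brow (fun y l => D.init y.1 y.2.1 l j) ((ann D.q r (incr w)).zip w)) =
      ((posl 0 w).map
        (fun x => V (fl D.q x.1) (D.init (md D.q x.1) (fun _ => 0) x.2 j))).sum := by
    intro j
    have h := brow_spec V (fun a δ l => D.init a δ l j) (fun c δ a x => h4 c δ a x j)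
      (incr w) w (length_incr w).symm
    rw [posl_eq_zip]
    refine h.trans ?_
    rw [List.zip_eq_zipWith, List.map_zipWith]
  constructor
  · intro h j
    rw [← key]
    apply h
    unfold start
    simp only [List.mem_map]
    exact ⟨j, List.mem_finRange j, rfl⟩
  · intro h row hrow
    have hrow' := hrow
    unfold start at hrow'
    simp only [List.mem_map] at hrow'
    obtain ⟨j, _, rfl⟩ := hrow'
    rw [key]
    exact h j

/-- The iteration of the levels. -/
theorem iterate_iff (D : Data p r) {K : Type} [AddCommGroup K]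
    (V : (Fin r → ℤ) → Vec p D.e →+ K)
    (h2 : ∀ (c : Fin r → ℤ) (δ : Sg r) (a : Fin r → Fin p) (j : Fin D.d) (u : Vec p D.e),
      V (c + sz δ) (D.step a (fun _ => 0) j u) = V c (D.step a δ j u))
    (h3 : ∀ l : List ((Fin r → ℤ) × Vec p D.e), (l.map (fun x => V x.1 x.2)).sum = 0 ↔
      ∀ j, (l.map (fun x => V (fl p x.1) (D.step (md p x.1) (fun _ => 0) j x.2))).sum = 0)
    (w : List (Letter r)) (x : List (Sg r) × List (List (Vec p D.e)))
    (hx : ∀ row ∈ x.2, row.length = x.1.length) :
    (∀ row ∈ (w.foldl (fun x _ => level D x) x).2,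
      row.length = (w.foldl (fun x _ => level D x) x).1.length) ∧
    (w.foldl (fun x _ => level D x) x).1.length ≤ max 1 (x.1.length - w.length) ∧
    ((∀ row ∈ (w.foldl (fun x _ => level D x) x).2,
      val V (posd 0 (w.foldl (fun x _ => level D x) x).1) row = 0) ↔
      ∀ row ∈ x.2, val V (posd 0 x.1) row = 0) := by
  induction w generalizing x with
  | nil =>
    refine ⟨hx, ?_, Iff.rfl⟩
    simp
  | cons a w ih =>
    rw [List.foldl_cons]
    obtain ⟨i1, i2, i3⟩ := ih (level D x) (level_rows D x hx)
    refine ⟨i1, i2.trans ?_, i3.trans (level_iff D V h2 h3 x hx)⟩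
    rw [level_length_fst, List.length_cons]
    have hp : 2 ≤ p := (Fact.out : p.Prime).two_le
    have h5 : (x.1.length + p - 1) / p ≤ max 1 (x.1.length - 1) := by
      rcases Nat.lt_or_ge x.1.length 2 with h | h
      · refine le_trans ?_ (le_max_left _ _)
        rw [← Nat.lt_succ_iff, Nat.div_lt_iff_lt_mul (by omega)]
        omega
      · refine le_trans ?_ (le_max_right _ _)
        rw [← Nat.lt_succ_iff, Nat.div_lt_iff_lt_mul (by omega)]
        obtain ⟨m, hm⟩ : ∃ m, x.1.length = m + 2 := ⟨x.1.length - 2, by omega⟩
        obtain ⟨s, hs⟩ : ∃ s, p = s + 2 := ⟨p - 2, by omega⟩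
        rw [hm, hs]
        have e1 : (m + 2 - 1).succ = m + 2 := rfl
        rw [e1]
        have e2 : (m + 2) * (s + 2) = (m + 2 + (s + 2) - 1) + (m * s + m + s + 1) := by
          have : m + 2 + (s + 2) - 1 = m + s + 3 := by omega
          rw [this]; ring
        omega
    omega

theorem final_iff (D : Data p r) {K : Type} [AddCommGroup K]
    (V : (Fin r → ℤ) → Vec p D.e →+ K) (h1 : ∀ c, Function.Injective (V c))
    (x : List (Sg r) × List (List (Vec p D.e)))
    (hx : ∀ row ∈ x.2, row.length = x.1.length) (hl : x.1.length ≤ 1) :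
    finish x = true ↔ ∀ row ∈ x.2, val V (posd 0 x.1) row = 0 := by
  unfold finish
  rw [List.all_eq_true]
  refine forall_congr' fun row => forall_congr' fun hrow => ?_
  have hlen := hx row hrow
  rw [isZ_iff]
  obtain ⟨Δs, rows⟩ := x
  cases Δs with
  | nil =>
    obtain rfl : row = [] := List.length_eq_zero_iff.1 hlen
    simp [val]
  | cons Δ Δs =>
    have h0 : Δs = [] := by
      apply List.length_eq_zero_iff.1
      simp only [List.length_cons] at hl
      omega
    subst h0
    cases row with
    | nil => simp at hlen
    | cons u row =>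
      have h0 : row = [] := by
        apply List.length_eq_zero_iff.1
        simpa using hlen
      subst h0
      simp only [posd, val, List.zipWith_cons_cons, List.zipWith_nil_left, List.sum_cons,
        List.sum_nil, add_zero, List.mem_singleton, forall_eq]
      constructor
      · intro h; rw [h, map_zero]
      · intro h
        apply h1 _
        rw [h, map_zero]

theorem decide_iff (D : Data p r) (Z : List (Letter r) → Prop) (h : D.Sound Z)
    (w : List (Letter r)) : decide' D w = true ↔ Z w := by
  obtain ⟨K, hK, V, h1, h2, h3, h4, h5⟩ := h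
  obtain ⟨i1, i2, i3⟩ := iterate_iff D V h2 h3 w (start D w) (start_rows D w)
  have hl : (w.foldl (fun x _ => level D x) (start D w)).1.length ≤ 1 := by
    refine i2.trans ?_
    have hs := start_length_fst D w
    have hq : 0 < D.q := Nat.pos_of_ne_zero (NeZero.ne D.q)
    have h6 : (w.length + D.q - 1) / D.q ≤ w.length := by
      rw [← Nat.lt_succ_iff, Nat.div_lt_iff_lt_mul hq, Nat.succ_mul]
      have : w.length ≤ w.length * D.q := Nat.le_mul_of_pos_right _ hq
      omega
    rw [hs]
    omega
  unfold decide'
  rw [final_iff D V h1 _ i1 hl, i3, start_iff D V h4 w, h5]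

end Pool.Agent.WPM
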