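import Pool.Agent.Lib.MP_2da099_lc.F01
import Pool.Agent.Lib.MP_2da099_lc.K06
import Pool.Agent.Lib.MP_2da099_lc.S06

/-!
# F02: sound data give a fast decision procedure

HINTS.  `f = decide' D`, `T = dcost D`, `ct_decide`, `decide_iff`.  Let `x k = (level D)^[k] (start D w)`
(or define by recursion), `N k = (x k).1.length`, `R k = (x k).2.length`.  The hypotheses of
`sum_bound` are `start_length_fst` (`(n + q - 1) / q ≤ n`), `level_length_fst`, `start_card`,
`level_card_le`, `level_card_le_dim` (with `start_rows`, `level_rows`: all rows of `x k` have length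
`N k`).  `foldCost (fun y => lcost D y.2) (fun y => level D y.2) w (start D w) = ∑ k < n, lcost D (x k)`
and `lcost D (x k) ≤ (R k + 1) * (2 * N k + 1) + (d * R k + 1) * ((R (k+1) + 1) * (N (k+1) + 1))`
since `mxl (x k).2 ≤ N k` and `mxl (news ..) ≤ N (k+1)` (`news_rows`).
The final test: `N n ≤ 1` and `R n ≤ s + e`, so it has constant cost.  `w.length` and constants are
`≤ C * (n + 1) ^ expo t` because `expo t ≥ 1`.
-/

set_option autoImplicit false

namespace Pool.Agent.WPM

theorem one_le_expo (t : ℕ) : 1 ≤ expo t := le_max_left _ _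

theorem mxl_le {α : Type} (n : ℕ) (rows : List (List α)) (h : ∀ row ∈ rows, row.length ≤ n) :
    mxl rows ≤ n := by
  induction rows with
  | nil => exact Nat.zero_le n
  | cons a l ih =>
    have h1 : mxl (a :: l) = max a.length (mxl l) := rfl
    rw [h1]
    exact max_le (h a List.mem_cons_self) (ih (fun row hr => h row (List.mem_cons_of_mem _ hr)))

theorem f02_foldCost_iter {α σ : Type} (T : σ → ℕ) (f : σ → σ) (l : List α) (s : σ) :
    foldCost (fun y : α × σ => T y.2) (fun y => f y.2) l s
      = ∑ k ∈ Finset.range l.length, T (f^[k] s) := by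
  induction l generalizing s with
  | nil => rfl
  | cons a l ih =>
    have h1 : foldCost (fun y : α × σ => T y.2) (fun y => f y.2) (a :: l) s
        = T s + foldCost (fun y : α × σ => T y.2) (fun y => f y.2) l (f s) := rfl
    rw [h1, ih, List.length_cons, Finset.sum_range_succ']
    simp only [Function.iterate_succ, Function.comp_apply, Function.iterate_zero, id]
    ring

theorem good_of_sound {p r : ℕ} [Fact p.Prime] (t : ℕ) (D : Data p r) (hd : D.d ≤ p ^ t)
    (Z : List (Letter r) → Prop) (h : D.Sound Z) : Good r t Z := by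
  have hp2 : 2 ≤ p := (Fact.out : p.Prime).two_le
  obtain ⟨C, hC⟩ := sum_bound p t D.s D.e D.d hp2 hd
  refine ⟨decide' D, dcost D, C + 1 + (1 + (D.s + D.e + 1) * 2), ct_decide D,
    decide_iff D Z h, fun w => ?_⟩
  set x : ℕ → List (Sg r) × List (List (Vec p D.e)) := fun k => (level D)^[k] (start D w) with hx
  have hx0 : x 0 = start D w := rfl
  have hxs : ∀ k, x (k + 1) = level D (x k) := fun k => Function.iterate_succ_apply' _ _ _
  have hrows : ∀ k, ∀ row ∈ (x k).2, row.length = (x k).1.length := by
    intro k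
    induction k with
    | zero => exact start_rows D w
    | succ k ih => rw [hxs]; exact level_rows D (x k) ih
  set N : ℕ → ℕ := fun k => (x k).1.length with hN
  set R : ℕ → ℕ := fun k => (x k).2.length with hR
  have hN0 : N 0 ≤ w.length := by
    change (start D w).1.length ≤ w.length
    rw [start_length_fst]
    have hq : 0 < D.q := Nat.pos_of_ne_zero D.hq.ne
    rw [Nat.div_le_iff_le_mul_add_pred hq]
    have h1 : w.length ≤ D.q * w.length := Nat.le_mul_of_pos_left _ hq
    omega
  have hNs : ∀ k, N (k + 1) = (N k + p - 1) / p := by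
    intro k
    change (x (k + 1)).1.length = _
    rw [hxs, level_length_fst]
  have hR0 : R 0 ≤ D.s := le_of_eq (start_card D w)
  have hRs : ∀ k, R (k + 1) ≤ D.d * R k := by
    intro k
    change (x (k + 1)).2.length ≤ _
    rw [hxs]
    exact level_card_le D (x k)
  have hRe : ∀ k, R (k + 1) ≤ D.e * N (k + 1) := by
    intro k
    change (x (k + 1)).2.length ≤ D.e * (x (k + 1)).1.length
    rw [hxs]
    exact level_card_le_dim D (x k) (hrows k)
  have hNstep : ∀ k, N (k + 1) ≤ max 1 (N k - 1) := by
    intro k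
    rw [hNs]
    rcases Nat.lt_or_ge (N k) 2 with h1 | h1
    · refine le_trans ?_ (le_max_left _ _)
      rw [Nat.div_le_iff_le_mul_add_pred (by omega)]
      omega
    · refine le_trans ?_ (le_max_right _ _)
      rw [Nat.div_le_iff_le_mul_add_pred (by omega)]
      have h2 : 2 * (N k - 1) ≤ p * (N k - 1) := Nat.mul_le_mul_right _ hp2
      omega
  have hNk : ∀ k, N k ≤ max 1 (w.length - k) := by
    intro k
    induction k with
    | zero => exact hN0.trans (le_max_right _ _)
    | succ k ih =>
      have := hNstep k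
      omega
  have hNn : N w.length ≤ 1 := by
    have := hNk w.length
    omega
  have hRn : R w.length ≤ D.s + D.e := by
    rcases Nat.eq_zero_or_eq_succ_pred w.length with h0 | h0
    · rw [h0]; omega
    · have h1 := hRe (w.length - 1)
      have h2 : w.length - 1 + 1 = w.length := by
        rw [h0]; rfl
      rw [h2] at h1
      have h3 : D.e * N w.length ≤ D.e * 1 := Nat.mul_le_mul_left _ hNn
      omega
  have hlc : ∀ k, lcost D (x k) ≤ (R k + 1) * (2 * N k + 1) +
      (D.d * R k + 1) * ((R (k + 1) + 1) * (N (k + 1) + 1)) := by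
    intro k
    have h1 : mxl (x k).2 ≤ N k := mxl_le _ _ (fun row hr => (hrows k row hr).le)
    have h2 : mxl (news D (ann p r (x k).1) (x k).2) ≤ N (k + 1) := by
      refine mxl_le _ _ (fun row hr => ?_)
      have h3 := news_rows D (x k) (hrows k) row hr
      change row.length ≤ (x (k + 1)).1.length
      rw [hxs]
      exact h3.le
    unfold lcost
    have h4 : (level D (x k)).2.length = R (k + 1) := by
      change _ = (x (k + 1)).2.length
      rw [hxs]
    rw [h4]
    refine Nat.add_le_add (Nat.mul_le_mul_left _ ?_) (Nat.mul_le_mul_left _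
      (Nat.mul_le_mul_left _ (Nat.add_le_add_right h2 1)))
    change N k + mxl (x k).2 + 1 ≤ 2 * N k + 1
    omega
  have hfold : foldCost (fun y : Letter r × _ => lcost D y.2) (fun y => level D y.2) w (start D w)
      ≤ ∑ k ∈ Finset.range w.length, ((R k + 1) * (2 * N k + 1) +
        (D.d * R k + 1) * ((R (k + 1) + 1) * (N (k + 1) + 1))) := by
    rw [f02_foldCost_iter (lcost D) (level D)]
    exact Finset.sum_le_sum (fun k _ => hlc k)
  have hfin : w.foldl (fun x _ => level D x) (start D w) = x w.length := List.foldl_const _ _ _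
  have hcost : dcost D w ≤ w.length + (∑ k ∈ Finset.range w.length, ((R k + 1) * (2 * N k + 1) +
        (D.d * R k + 1) * ((R (k + 1) + 1) * (N (k + 1) + 1)))) + (1 + (D.s + D.e + 1) * 2) := by
    unfold dcost
    rw [hfin]
    refine Nat.add_le_add (Nat.add_le_add_left hfold _) ?_
    have h1 : mxl (x w.length).2 ≤ 1 :=
      (mxl_le _ _ (fun row hr => (hrows w.length row hr).le)).trans hNn
    exact Nat.add_le_add hNn (Nat.mul_le_mul (Nat.add_le_add_right hRn 1) (by omega))
  have hsum := hC w.length N R hN0 (fun k => (hNs k).le) hR0 hRs hRe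
  have hpow : ((w.length : ℝ) + 1) ≤ ((w.length : ℝ) + 1) ^ expo t := by
    have h1 : (1 : ℝ) ≤ (w.length : ℝ) + 1 := by
      have : (0 : ℝ) ≤ (w.length : ℝ) := Nat.cast_nonneg _
      linarith
    calc (w.length : ℝ) + 1 = ((w.length : ℝ) + 1) ^ (1 : ℝ) := (Real.rpow_one _).symm
      _ ≤ ((w.length : ℝ) + 1) ^ expo t := Real.rpow_le_rpow_of_exponent_le h1 (one_le_expo t)
  have hnn : (0 : ℝ) ≤ (w.length : ℝ) := Nat.cast_nonneg _
  have hcost' : (dcost D w : ℝ) ≤ w.length + (∑ k ∈ Finset.range w.length,
      (((R k + 1) * (2 * N k + 1) +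
        (D.d * R k + 1) * ((R (k + 1) + 1) * (N (k + 1) + 1)) : ℕ) : ℝ))
        + (1 + (D.s + D.e + 1) * 2) := by
    have := hcost
    exact_mod_cast this
  have hB : (0 : ℝ) ≤ 1 + ((D.s : ℝ) + D.e + 1) * 2 := by positivity
  have hB2 : 1 + ((D.s : ℝ) + D.e + 1) * 2 ≤
      (1 + ((D.s : ℝ) + D.e + 1) * 2) * ((w.length : ℝ) + 1) ^ expo t := by
    have : (1 : ℝ) ≤ ((w.length : ℝ) + 1) ^ expo t := by linarith
    nlinarith
  refine hcost'.trans ?_
  have : (C + 1 + (1 + ((D.s : ℝ) + D.e + 1) * 2)) * ((w.length : ℝ) + 1) ^ expo t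
      = C * ((w.length : ℝ) + 1) ^ expo t + ((w.length : ℝ) + 1) ^ expo t
        + (1 + ((D.s : ℝ) + D.e + 1) * 2) * ((w.length : ℝ) + 1) ^ expo t := by ring
  rw [this]
  linarith

end Pool.Agent.WPM
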