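import Pool.Agent.Lib.MP_2da099_lc.C01

/-!
# C03: operations on pairs, part 1
-/

set_option autoImplicit false

namespace Pool.Agent.WPM

open Pool.Agent.Lib.PolyTime Function

variable {α β γ δ : Type} [Enc α] [Enc β] [Enc γ] [Enc δ]

theorem c03_code (x : α × β) (u : List Bool) :
    code x ++ u = true :: (code x.1 ++ (code x.2 ++ u)) := by
  rw [code_prod, List.cons_append, List.append_assoc]

theorem c03_pop {K : Type} [DecidableEq K] (k : K) (b : Bool) (w : List Bool) :
    Run (.pop k) (single k (b :: w)) (single k w) 1 := by
  have := Run.pop k (single k (b :: w))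
  rwa [single_self, update_single, List.tail_cons] at this

theorem c03_push {K : Type} [DecidableEq K] (k : K) (b : Bool) (w : List Bool) :
    Run (.push k b) (single k w) (single k (b :: w)) 1 := by
  have := Run.push k b (single k w)
  rwa [single_self, update_single] at this

/-- Reading off the code of `a` from the top of the main stack. -/
theorem c03_take {K : Type} [DecidableEq K] {k t c : K} (hkt : k ≠ t) (hkc : k ≠ c) (htc : t ≠ c)
    (a : α) (w : List Bool) :
    Run (takeTree k t c) (single k (code a ++ w)) (update (single k w) t (code a).reverse)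
      (5 * size a + 2) := by
  have h := run_takeTree hkt hkc htc (enc a) (single k (code a ++ w)) w (single_self _ _)
    (single_ne (Ne.symm hkc) _)
  rw [update_single, single_ne (Ne.symm hkt), List.append_nil] at h
  exact h

/-- Putting back the code of `a`. -/
theorem c03_back {K : Type} [DecidableEq K] {k t : K} (hkt : k ≠ t)
    (v w : List Bool) :
    Run (mv t k) (update (single k w) t v) (single k (v.reverse ++ w)) (4 * v.length + 1) := by
  have h := run_mv (Ne.symm hkt) v (update (single k w) t v) (update_self _ _ _)
  have e : update (update (update (single k w) t v) t []) k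
      (v.reverse ++ update (single k w) t v k) = single k (v.reverse ++ w) := by
    rw [update_of_ne hkt, single_self, update_idem]
    funext x
    by_cases hx : x = k
    · subst hx; rw [update_self, single_self]
    · rw [update_of_ne hx, single_ne hx]
      by_cases hx' : x = t
      · subst hx'; rw [update_self]
      · rw [update_of_ne hx', single_ne hx]
  rwa [e] at h

theorem CT.first {f : α → β} {T : α → ℕ} (h : CT f T) :
    CT (fun x : α × γ => (f x.1, x.2)) (fun x => T x.1) := by
  obtain ⟨K, _, _, P, k, C, h⟩ := h
  refine ⟨K, inferInstance, inferInstance, .seq (.pop k) (.seq P (.push k true)), k, C + 2,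
    fun x u => ?_⟩
  obtain ⟨t, ht, r⟩ := h x.1 (code x.2 ++ u)
  have s1 := c03_pop k true (code x.1 ++ (code x.2 ++ u))
  rw [← c03_code] at s1
  have s2 := c03_push k true (code (f x.1) ++ (code x.2 ++ u))
  have e : true :: (code (f x.1) ++ (code x.2 ++ u)) = code (f x.1, x.2) ++ u := by
    rw [c03_code]
  rw [e] at s2
  refine ⟨1 + (t + 1), ?_, .seq s1 (.seq r s2)⟩
  have e2 : (C + 2) * (T x.1 + 1) = C * (T x.1 + 1) + 2 * (T x.1 + 1) := by ring
  show 1 + (t + 1) ≤ (C + 2) * (T x.1 + 1)
  omega

theorem CT.second {f : α → β} {T : α → ℕ} (h : CT f T) :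
    CT (fun x : γ × α => (x.1, f x.2)) (fun x => size x.1 + T x.2) := by
  obtain ⟨K, _, _, P, k, C, h⟩ := h
  let i : K → K ⊕ Bool := Sum.inl
  let t : K ⊕ Bool := Sum.inr true
  let c : K ⊕ Bool := Sum.inr false
  have hi : Injective i := Sum.inl_injective
  have hkt : i k ≠ t := by simp [i, t]
  have hkc : i k ≠ c := by simp [i, c]
  have htc : t ≠ c := by simp [t, c]
  have hit : ∀ x, i x ≠ t := by simp [i, t]
  refine ⟨K ⊕ Bool, inferInstance, inferInstance, .seq (.pop (i k)) (.seq (takeTree (i k) t c)
    (.seq (P.map i) (.seq (mv t (i k)) (.push (i k) true)))), i k, C + 15, fun x u => ?_⟩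
  obtain ⟨τ, hτ, r⟩ := h x.2 u
  have s1 := c03_pop (i k) true (code x.1 ++ (code x.2 ++ u))
  rw [← c03_code] at s1
  have s2 := c03_take hkt hkc htc x.1 (code x.2 ++ u)
  have s3 := embed r i hi (update (single (i k) (code x.2 ++ u)) t (code x.1).reverse)
    (by rw [update_of_ne hkt, single_self])
    (fun k' hk' => by rw [update_of_ne (hit _), single_ne (fun h => hk' (hi h))])
  rw [update_comm (Ne.symm hkt), update_single] at s3
  have s4 := c03_back hkt (code x.1).reverse (code (f x.2) ++ u)
  rw [List.reverse_reverse, List.length_reverse, length_code] at s4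
  have s5 := c03_push (i k) true (code x.1 ++ (code (f x.2) ++ u))
  have e : true :: (code x.1 ++ (code (f x.2) ++ u)) = code (x.1, f x.2) ++ u := by
    rw [c03_code]
  rw [e] at s5
  refine ⟨_, ?_, .seq s1 (.seq s2 (.seq s3 (.seq s4 s5)))⟩
  have e2 : (C + 15) * (size x.1 + T x.2 + 1) = C * (T x.2 + 1) + C * size x.1 +
    15 * (size x.1 + T x.2 + 1) := by ring
  show _ ≤ (C + 15) * (size x.1 + T x.2 + 1)
  omega

theorem CT.snd : CT (fun x : α × β => x.2) (fun x => size x.1) := by
  refine ⟨Fin 3, inferInstance, inferInstance, .seq (.pop 0) (.seq (takeTree 0 1 2) (clear 1)), 0,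
    10, fun x u => ?_⟩
  have s1 := c03_pop (0 : Fin 3) true (code x.1 ++ (code x.2 ++ u))
  rw [← c03_code] at s1
  have s2 := c03_take (k := (0 : Fin 3)) (t := 1) (c := 2) (by decide) (by decide) (by decide) x.1
    (code x.2 ++ u)
  have s3 := run_clear (1 : Fin 3) (code x.1).reverse
    (update (single 0 (code x.2 ++ u)) 1 (code x.1).reverse) (update_self _ _ _)
  have e : update (update (single (0 : Fin 3) (code x.2 ++ u)) 1 (code x.1).reverse) 1 [] =
      single 0 (code x.2 ++ u) := by
    rw [update_idem]
    funext y
    by_cases hy : y = 1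
    · subst hy; rw [update_self, single_ne (by decide)]
    · rw [update_of_ne hy]
  rw [e, List.length_reverse, length_code] at s3
  refine ⟨_, ?_, .seq s1 (.seq s2 s3)⟩
  show _ ≤ 10 * (size x.1 + 1)
  omega

theorem CT.dup : CT (fun a : α => (a, a)) (fun a => size a) := by
  refine ⟨Fin 4, inferInstance, inferInstance, .seq (takeTree 0 1 2) (.seq (mv2 1 0 3)
    (.seq (mv 3 1) (.seq (mv 1 0) (.push 0 true)))), 0, 30, fun a u => ?_⟩
  have s1 := c03_take (k := (0 : Fin 4)) (t := 1) (c := 2) (by decide) (by decide) (by decide) a u
  have s2 := run_mv2 (a := (1 : Fin 4)) (b := 0) (c := 3) (by decide) (by decide) (by decide)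
    (code a).reverse (update (single 0 u) 1 (code a).reverse) (update_self _ _ _)
  have e2 : update (update (update (update (single (0 : Fin 4) u) 1 (code a).reverse) 1 []) 0
      ((code a).reverse.reverse ++ update (single (0 : Fin 4) u) 1 (code a).reverse 0)) 3
      ((code a).reverse.reverse ++ update (single (0 : Fin 4) u) 1 (code a).reverse 3) =
      update (single 0 (code a ++ u)) 3 (code a) := by
    rw [List.reverse_reverse, update_of_ne (by decide), update_of_ne (by decide), single_self,
      single_ne (by decide), List.append_nil]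
    funext y
    fin_cases y <;> simp [single, update]
  rw [e2, List.length_reverse, length_code] at s2
  have s3 := run_mv (a := (3 : Fin 4)) (b := 1) (by decide) (code a)
    (update (single 0 (code a ++ u)) 3 (code a)) (update_self _ _ _)
  have e3 : update (update (update (single (0 : Fin 4) (code a ++ u)) 3 (code a)) 3 []) 1
      ((code a).reverse ++ update (single (0 : Fin 4) (code a ++ u)) 3 (code a) 1) =
      update (single 0 (code a ++ u)) 1 (code a).reverse := by
    rw [update_of_ne (by decide), single_ne (by decide), List.append_nil]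
    funext y
    fin_cases y <;> simp [single, update]
  rw [e3, length_code] at s3
  have s4 := c03_back (k := (0 : Fin 4)) (t := 1) (by decide) (code a).reverse (code a ++ u)
  rw [List.reverse_reverse, List.length_reverse, length_code] at s4
  have s5 := c03_push (0 : Fin 4) true (code a ++ (code a ++ u))
  have e : true :: (code a ++ (code a ++ u)) = code (a, a) ++ u := by
    rw [c03_code]
  rw [e] at s5
  refine ⟨_, ?_, .seq s1 (.seq s2 (.seq s3 (.seq s4 s5)))⟩
  show _ ≤ 30 * (size a + 1)
  omega

end Pool.Agent.WPM
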