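import Pool.Agent.Lib.MP_2da099_lc.C01

/-!
# C04: operations on pairs, part 2
-/

set_option autoImplicit false

namespace Pool.Agent.WPM

open Pool.Agent.Lib.PolyTime Function

variable {α β γ δ : Type} [Enc α] [Enc β] [Enc γ] [Enc δ]

theorem c04_code (x : α × β) (u : List Bool) :
    code x ++ u = true :: (code x.1 ++ (code x.2 ++ u)) := by
  rw [code_prod, List.cons_append, List.append_assoc]

theorem c04_pop {K : Type} [DecidableEq K] (k : K) (b : Bool) (w : List Bool) :
    Run (.pop k) (single k (b :: w)) (single k w) 1 := by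
  have := Run.pop k (single k (b :: w))
  rwa [single_self, update_single, List.tail_cons] at this

theorem c04_push {K : Type} [DecidableEq K] (k : K) (b : Bool) (w : List Bool) :
    Run (.push k b) (single k w) (single k (b :: w)) 1 := by
  have := Run.push k b (single k w)
  rwa [single_self, update_single] at this

theorem c04_take {K : Type} [DecidableEq K] {k t c : K} (hkt : k ≠ t) (hkc : k ≠ c) (htc : t ≠ c)
    (a : α) (w : List Bool) :
    Run (takeTree k t c) (single k (code a ++ w)) (update (single k w) t (code a).reverse)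
      (5 * size a + 2) := by
  have h := run_takeTree hkt hkc htc (enc a) (single k (code a ++ w)) w (single_self _ _)
    (single_ne (Ne.symm hkc) _)
  rw [update_single, single_ne (Ne.symm hkt), List.append_nil] at h
  exact h

theorem c04_back {K : Type} [DecidableEq K] {k t : K} (hkt : k ≠ t)
    (v w : List Bool) :
    Run (mv t k) (update (single k w) t v) (single k (v.reverse ++ w)) (4 * v.length + 1) := by
  have h := run_mv (Ne.symm hkt) v (update (single k w) t v) (update_self _ _ _)
  have e : update (update (update (single k w) t v) t []) k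
      (v.reverse ++ update (single k w) t v k) = single k (v.reverse ++ w) := by
    rw [update_of_ne hkt, single_self, update_idem]
    funext x
    by_cases hx : x = k
    · subst hx; rw [update_self, single_self]
    · rw [update_of_ne hx, single_ne hx]
      by_cases hx' : x = t
      · subst hx'; rw [update_self]
      · rw [update_of_ne hx', single_ne hx]
  rwa [e] at h

/-- The state with `w` on the main stack `0`, `v` on `1`. -/
def c04_st (w v v' : List Bool) : St (Fin 4) := fun i => if i = 0 then w else if i = 1 then v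
  else if i = 2 then v' else []

theorem c04_take2 (b : β) (w v : List Bool) :
    Run (takeTree 0 2 3) (c04_st (code b ++ w) v []) (c04_st w v (code b).reverse)
      (5 * size b + 2) := by
  have h := run_takeTree (a := (0 : Fin 4)) (b := 2) (c := 3) (by decide) (by decide) (by decide)
    (enc b) (c04_st (code b ++ w) v []) w rfl rfl
  have e : update (update (c04_st (code b ++ w) v []) 0 w) 2
      ((enc b).ser.reverse ++ c04_st (code b ++ w) v [] 2) = c04_st w v (code b).reverse := by
    funext y
    fin_cases y <;> simp [c04_st, update, code]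
  rw [e] at h
  exact h

theorem CT.swap : CT (fun x : α × β => (x.2, x.1)) (fun x => size x.1 + size x.2) := by
  refine ⟨Fin 4, inferInstance, inferInstance, .seq (.pop 0) (.seq (takeTree 0 1 3)
    (.seq (takeTree 0 2 3) (.seq (mv 1 0) (.seq (mv 2 0) (.push 0 true))))), 0, 30, fun x u => ?_⟩
  have s1 := c04_pop (0 : Fin 4) true (code x.1 ++ (code x.2 ++ u))
  rw [← c04_code] at s1
  have s2 := c04_take (k := (0 : Fin 4)) (t := 1) (c := 3) (by decide) (by decide) (by decide) x.1
    (code x.2 ++ u)
  have e2 : update (single (0 : Fin 4) (code x.2 ++ u)) 1 (code x.1).reverse =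
      c04_st (code x.2 ++ u) (code x.1).reverse [] := by
    funext y
    fin_cases y <;> simp [c04_st, single, update]
  rw [e2] at s2
  have s3 := c04_take2 x.2 u (code x.1).reverse
  have s4 := run_mv (a := (1 : Fin 4)) (b := 0) (by decide) (code x.1).reverse
    (c04_st u (code x.1).reverse (code x.2).reverse) rfl
  have e4 : update (update (c04_st u (code x.1).reverse (code x.2).reverse) 1 []) 0
      ((code x.1).reverse.reverse ++ c04_st u (code x.1).reverse (code x.2).reverse 0) =
      update (single 0 (code x.1 ++ u)) 2 (code x.2).reverse := by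
    funext y
    fin_cases y <;> simp [c04_st, single, update]
  rw [e4, List.length_reverse, length_code] at s4
  have s5 := c04_back (k := (0 : Fin 4)) (t := 2) (by decide) (code x.2).reverse (code x.1 ++ u)
  rw [List.reverse_reverse, List.length_reverse, length_code] at s5
  have s6 := c04_push (0 : Fin 4) true (code x.2 ++ (code x.1 ++ u))
  have e : true :: (code x.2 ++ (code x.1 ++ u)) = code (x.2, x.1) ++ u := by
    rw [c04_code]
  rw [e] at s6
  refine ⟨_, ?_, .seq s1 (.seq s2 (.seq s3 (.seq s4 (.seq s5 s6))))⟩
  show _ ≤ 30 * (size x.1 + size x.2 + 1)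
  omega

theorem CT.fst : CT (fun x : α × β => x.1) (fun x => size x.1 + size x.2) := by
  refine ⟨Fin 4, inferInstance, inferInstance, .seq (.pop 0) (.seq (takeTree 0 1 3)
    (.seq (takeTree 0 2 3) (.seq (clear 2) (mv 1 0)))), 0, 30, fun x u => ?_⟩
  have s1 := c04_pop (0 : Fin 4) true (code x.1 ++ (code x.2 ++ u))
  rw [← c04_code] at s1
  have s2 := c04_take (k := (0 : Fin 4)) (t := 1) (c := 3) (by decide) (by decide) (by decide) x.1
    (code x.2 ++ u)
  have e2 : update (single (0 : Fin 4) (code x.2 ++ u)) 1 (code x.1).reverse =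
      c04_st (code x.2 ++ u) (code x.1).reverse [] := by
    funext y
    fin_cases y <;> simp [c04_st, single, update]
  rw [e2] at s2
  have s3 := c04_take2 x.2 u (code x.1).reverse
  have s4 := run_clear (2 : Fin 4) (code x.2).reverse
    (c04_st u (code x.1).reverse (code x.2).reverse) rfl
  have e4 : update (c04_st u (code x.1).reverse (code x.2).reverse) 2 [] =
      update (single 0 u) 1 (code x.1).reverse := by
    funext y
    fin_cases y <;> simp [c04_st, single, update]
  rw [e4, List.length_reverse, length_code] at s4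
  have s5 := c04_back (k := (0 : Fin 4)) (t := 1) (by decide) (code x.1).reverse u
  rw [List.reverse_reverse, List.length_reverse, length_code] at s5
  refine ⟨_, ?_, .seq s1 (.seq s2 (.seq s3 (.seq s4 s5)))⟩
  show _ ≤ 30 * (size x.1 + size x.2 + 1)
  omega

theorem CT.assocR : CT (fun x : (α × β) × γ => (x.1.1, (x.1.2, x.2))) (fun x => size x.1.1) := by
  refine ⟨Fin 3, inferInstance, inferInstance, .seq (.pop 0) (.seq (.pop 0) (.seq (takeTree 0 1 2)
    (.seq (.push 0 true) (.seq (mv 1 0) (.push 0 true))))), 0, 30, fun x u => ?_⟩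
  have s1 := c04_pop (0 : Fin 3) true (code x.1 ++ (code x.2 ++ u))
  rw [← c04_code, c04_code x.1] at s1
  have s1' := c04_pop (0 : Fin 3) true (code x.1.1 ++ (code x.1.2 ++ (code x.2 ++ u)))
  have s2 := c04_take (k := (0 : Fin 3)) (t := 1) (c := 2) (by decide) (by decide) (by decide) x.1.1
    (code x.1.2 ++ (code x.2 ++ u))
  have s3 := Run.push (0 : Fin 3) true
    (update (single 0 (code x.1.2 ++ (code x.2 ++ u))) 1 (code x.1.1).reverse)
  have e3 : update (update (single (0 : Fin 3) (code x.1.2 ++ (code x.2 ++ u))) 1
      (code x.1.1).reverse) 0 (true :: update (single (0 : Fin 3)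
      (code x.1.2 ++ (code x.2 ++ u))) 1 (code x.1.1).reverse 0) =
      update (single 0 (true :: (code x.1.2 ++ (code x.2 ++ u)))) 1 (code x.1.1).reverse := by
    funext y
    fin_cases y <;> simp [single, update]
  rw [e3] at s3
  have s4 := c04_back (k := (0 : Fin 3)) (t := 1) (by decide) (code x.1.1).reverse
    (true :: (code x.1.2 ++ (code x.2 ++ u)))
  rw [List.reverse_reverse, List.length_reverse, length_code] at s4
  have s5 := c04_push (0 : Fin 3) true (code x.1.1 ++ (true :: (code x.1.2 ++ (code x.2 ++ u))))
  have e : true :: (code x.1.1 ++ (true :: (code x.1.2 ++ (code x.2 ++ u)))) =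
      code (x.1.1, (x.1.2, x.2)) ++ u := by
    rw [c04_code, c04_code]
  rw [e] at s5
  refine ⟨_, ?_, .seq s1 (.seq s1' (.seq s2 (.seq s3 (.seq s4 s5))))⟩
  show _ ≤ 30 * (size x.1.1 + 1)
  omega

theorem CT.assocL : CT (fun x : α × (β × γ) => ((x.1, x.2.1), x.2.2)) (fun x => size x.1) := by
  refine ⟨Fin 3, inferInstance, inferInstance, .seq (.pop 0) (.seq (takeTree 0 1 2) (.seq (.pop 0)
    (.seq (mv 1 0) (.seq (.push 0 true) (.push 0 true))))), 0, 30, fun x u => ?_⟩
  have s1 := c04_pop (0 : Fin 3) true (code x.1 ++ (code x.2 ++ u))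
  rw [← c04_code, c04_code x.2] at s1
  have s2 := c04_take (k := (0 : Fin 3)) (t := 1) (c := 2) (by decide) (by decide) (by decide) x.1
    (true :: (code x.2.1 ++ (code x.2.2 ++ u)))
  have s3 := Run.pop (0 : Fin 3)
    (update (single 0 (true :: (code x.2.1 ++ (code x.2.2 ++ u)))) 1 (code x.1).reverse)
  have e3 : update (update (single (0 : Fin 3) (true :: (code x.2.1 ++ (code x.2.2 ++ u)))) 1
      (code x.1).reverse) 0 (update (single (0 : Fin 3)
      (true :: (code x.2.1 ++ (code x.2.2 ++ u)))) 1 (code x.1).reverse 0).tail =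
      update (single 0 (code x.2.1 ++ (code x.2.2 ++ u))) 1 (code x.1).reverse := by
    funext y
    fin_cases y <;> simp [single, update]
  rw [e3] at s3
  have s4 := c04_back (k := (0 : Fin 3)) (t := 1) (by decide) (code x.1).reverse
    (code x.2.1 ++ (code x.2.2 ++ u))
  rw [List.reverse_reverse, List.length_reverse, length_code] at s4
  have s5 := c04_push (0 : Fin 3) true (code x.1 ++ (code x.2.1 ++ (code x.2.2 ++ u)))
  have e5 : true :: (code x.1 ++ (code x.2.1 ++ (code x.2.2 ++ u))) =
      code (x.1, x.2.1) ++ (code x.2.2 ++ u) := by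
    rw [c04_code]
  rw [e5] at s5
  have s6 := c04_push (0 : Fin 3) true (code (x.1, x.2.1) ++ (code x.2.2 ++ u))
  have e : true :: (code (x.1, x.2.1) ++ (code x.2.2 ++ u)) =
      code ((x.1, x.2.1), x.2.2) ++ u := by
    rw [c04_code ((x.1, x.2.1), x.2.2)]
  rw [e] at s6
  refine ⟨_, ?_, .seq s1 (.seq s2 (.seq s3 (.seq s4 (.seq s5 s6))))⟩
  show _ ≤ 30 * (size x.1 + 1)
  omega

theorem CT.pushConst (b : β) : CT (fun a : α => (b, a)) (fun _ => 0) := by
  refine ⟨Unit, inferInstance, inferInstance, .seq (pushList () (code b)) (.push () true), (),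
    (code b).length + 2, fun a u => ?_⟩
  have h2 := run_pushList (K := Unit) () (code b) (single () (code a ++ u))
  rw [update_single, single_self] at h2
  have h3 := c04_push () true (code b ++ (code a ++ u))
  have e : true :: (code b ++ (code a ++ u)) = code (b, a) ++ u := by
    rw [c04_code]
  rw [e] at h3
  refine ⟨_, ?_, .seq h2 h3⟩
  show _ ≤ ((code b).length + 2) * (0 + 1)
  omega

end Pool.Agent.WPM
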