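import Pool.Agent.Lib.MP_2da099_lc.C01
import Pool.Agent.Lib.MP_2da099_lc.C03
import Pool.Agent.Lib.MP_2da099_lc.C04

/-!
# C05: case distinctions at constant cost
-/

set_option autoImplicit false

namespace Pool.Agent.WPM

open Pool.Agent.Lib.PolyTime Function

variable {α β γ δ : Type} [Enc α] [Enc β] [Enc γ] [Enc δ]

/-- Two programs on a common set of stacks, with a common main stack. -/
theorem c05_join {f : α → γ} {g : β → γ} {T1 : α → ℕ} {T2 : β → ℕ} (hf : CT f T1)
    (hg : CT g T2) : ∃ (K : Type) (_ : Fintype K) (_ : DecidableEq K) (P Q : Prog K) (k₀ : K)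
      (C : ℕ), (∀ (a : α) (u : List Bool), ∃ t, t ≤ C * (T1 a + 1) ∧
        Run P (single k₀ (code a ++ u)) (single k₀ (code (f a) ++ u)) t) ∧
      (∀ (b : β) (u : List Bool), ∃ t, t ≤ C * (T2 b + 1) ∧
        Run Q (single k₀ (code b ++ u)) (single k₀ (code (g b) ++ u)) t) := by
  obtain ⟨K1, _, _, P1, k1, C1, h1⟩ := hf
  obtain ⟨K2, _, _, P2, k2, C2, h2⟩ := hg
  let e1 : K1 → Unit ⊕ (K1 ⊕ K2) := fun k => if k = k1 then Sum.inl () else Sum.inr (Sum.inl k)
  let e2 : K2 → Unit ⊕ (K1 ⊕ K2) := fun k => if k = k2 then Sum.inl () else Sum.inr (Sum.inr k)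
  have he1 : Injective e1 := by
    intro a b hab
    by_cases ha : a = k1 <;> by_cases hb : b = k1 <;> simp_all [e1]
  have he2 : Injective e2 := by
    intro a b hab
    by_cases ha : a = k2 <;> by_cases hb : b = k2 <;> simp_all [e2]
  have h1k : e1 k1 = Sum.inl () := by simp [e1]
  have h2k : e2 k2 = Sum.inl () := by simp [e2]
  refine ⟨Unit ⊕ (K1 ⊕ K2), inferInstance, inferInstance, P1.map e1, P2.map e2,
    Sum.inl (), C1 + C2, fun a u => ?_, fun b u => ?_⟩
  · obtain ⟨t1, ht1, r1⟩ := h1 a u
    have s1 := embed r1 e1 he1 (single (Sum.inl ()) (code a ++ u)) (by rw [h1k, single_self])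
      (fun k hk => single_ne (fun h => hk (he1 (h.trans h1k.symm))) _)
    rw [h1k, update_single] at s1
    refine ⟨t1, ht1.trans (Nat.mul_le_mul_right _ (by omega)), s1⟩
  · obtain ⟨t2, ht2, r2⟩ := h2 b u
    have s2 := embed r2 e2 he2 (single (Sum.inl ()) (code b ++ u)) (by rw [h2k, single_self])
      (fun k hk => single_ne (fun h => hk (he2 (h.trans h2k.symm))) _)
    rw [h2k, update_single] at s2
    refine ⟨t2, ht2.trans (Nat.mul_le_mul_right _ (by omega)), s2⟩

theorem CT.bcase {f g : α → β} {T1 T2 : α → ℕ} (hf : CT f T1) (hg : CT g T2) :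
    CT (fun x : Bool × α => if x.1 then f x.2 else g x.2)
      (fun x => if x.1 then T1 x.2 else T2 x.2) := by
  obtain ⟨K, _, _, P, Q, k, C, h1, h2⟩ := c05_join hf hg
  refine ⟨K, inferInstance, inferInstance, .seq (.pop k) (.ite k isT
    (.seq (.pop k) (.seq (.pop k) (.seq (.pop k) P))) (.seq (.pop k) Q)), k, C + 10, ?_⟩
  rintro ⟨b, a⟩ u
  have s1 := c04_pop k true (code b ++ (code a ++ u))
  have e : true :: (code b ++ (code a ++ u)) = code (b, a) ++ u := by
    rw [c04_code]
  rw [e] at s1
  cases b with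
  | true =>
    obtain ⟨t, ht, r⟩ := h1 a u
    have e2 : code true ++ (code a ++ u) = true :: false :: false :: (code a ++ u) := by
      simp [code, BT.ser]
    rw [e2] at s1
    refine ⟨_, ?_, .seq s1 (.iteT (by rw [single_self]; rfl) (.seq (c04_pop k true _)
      (.seq (c04_pop k false _) (.seq (c04_pop k false _) r))))⟩
    show _ ≤ (C + 10) * (T1 a + 1)
    have e3 : (C + 10) * (T1 a + 1) = C * (T1 a + 1) + 10 * (T1 a + 1) := by ring
    omega
  | false =>
    obtain ⟨t, ht, r⟩ := h2 a u
    have e2 : code false ++ (code a ++ u) = false :: (code a ++ u) := by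
      simp [code, BT.ser]
    rw [e2] at s1
    refine ⟨_, ?_, .seq s1 (.iteF (by rw [single_self]; rfl) (.seq (c04_pop k false _) r))⟩
    show _ ≤ (C + 10) * (T2 a + 1)
    have e3 : (C + 10) * (T2 a + 1) = C * (T2 a + 1) + 10 * (T2 a + 1) := by ring
    omega

theorem CT.lcase {f : β → γ} {g : (α × List α) × β → γ} {T1 : β → ℕ}
    {T2 : (α × List α) × β → ℕ} (hf : CT f T1) (hg : CT g T2) :
    CT (fun x : List α × β => match x.1 with
      | [] => f x.2
      | a :: l => g ((a, l), x.2))
      (fun x => match x.1 with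
      | [] => T1 x.2
      | a :: l => T2 ((a, l), x.2)) := by
  obtain ⟨K, _, _, P, Q, k, C, h1, h2⟩ := c05_join hf hg
  refine ⟨K, inferInstance, inferInstance, .seq (.pop k) (.ite k isT
    (.seq (.push k true) Q) (.seq (.pop k) P)), k, C + 10, ?_⟩
  rintro ⟨l, b⟩ u
  have s1 := c04_pop k true (code l ++ (code b ++ u))
  have e : true :: (code l ++ (code b ++ u)) = code (l, b) ++ u := by
    rw [c04_code]
  rw [e] at s1
  cases l with
  | nil =>
    obtain ⟨t, ht, r⟩ := h1 b u
    have e2 : code ([] : List α) ++ (code b ++ u) = false :: (code b ++ u) := by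
      simp [code, BT.ser]
    rw [e2] at s1
    refine ⟨_, ?_, .seq s1 (.iteF (by rw [single_self]; rfl) (.seq (c04_pop k false _) r))⟩
    show _ ≤ (C + 10) * (T1 b + 1)
    have e3 : (C + 10) * (T1 b + 1) = C * (T1 b + 1) + 10 * (T1 b + 1) := by ring
    omega
  | cons a l =>
    obtain ⟨t, ht, r⟩ := h2 ((a, l), b) u
    have e2 : code (a :: l) ++ (code b ++ u) = true :: (code a ++ (code l ++ (code b ++ u))) := by
      rw [code_cons, List.cons_append, List.append_assoc]
    rw [e2] at s1
    have s2 := c04_push k true (true :: (code a ++ (code l ++ (code b ++ u))))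
    have e4 : true :: true :: (code a ++ (code l ++ (code b ++ u))) =
        code ((a, l), b) ++ u := by
      rw [c04_code ((a, l), b), c04_code (a, l)]
    rw [e4] at s2
    refine ⟨_, ?_, .seq s1 (.iteT (by rw [single_self]; rfl) (.seq s2 r))⟩
    show _ ≤ (C + 10) * (T2 ((a, l), b) + 1)
    have e3 : (C + 10) * (T2 ((a, l), b) + 1) =
      C * (T2 ((a, l), b) + 1) + 10 * (T2 ((a, l), b) + 1) := by ring
    omega

theorem CT.ocase {f : β → γ} {g : α × β → γ} {T1 : β → ℕ} {T2 : α × β → ℕ} (hf : CT f T1)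
    (hg : CT g T2) :
    CT (fun x : Option α × β => match x.1 with
      | none => f x.2
      | some a => g (a, x.2))
      (fun x => match x.1 with
      | none => T1 x.2
      | some a => size a + T2 (a, x.2)) := by
  -- `((a, l), b) ↦ (a, (l, b)) ↦ (a, b) ↦ g (a, b)`
  have hs : CT (fun x : (α × List α) × β => (x.1.1, x.2)) (fun x => size x.1.1 + size x.1.2) := by
    have h1 : CT (fun x : (α × List α) × β => (x.1.1, (x.1.2, x.2))) _ := CT.assocR
    have h2 : CT (fun x : α × (List α × β) => (x.1, x.2.2)) _ :=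
      CT.second (γ := α) (CT.snd (α := List α) (β := β))
    exact (h2.comp h1).mono 2 (fun x => by
      show size x.1.1 + (size x.1.1 + size x.1.2) ≤ 2 * (size x.1.1 + size x.1.2 + 1)
      omega)
  have hg' := hg.comp hs
  have hl := CT.lcase hf hg'
  have hc : CT (fun x : Option α × β => (x.1.toList, x.2)) (fun _ => 0) :=
    CT.of_enc_eq (fun x => by
      obtain ⟨o, b⟩ := x
      cases o <;> rfl)
  have := hl.comp hc
  refine (this.mono 2 ?_).congr ?_
  · rintro ⟨o, b⟩
    cases o with
    | none =>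
      show 0 + T1 b ≤ 2 * (T1 b + 1)
      omega
    | some a =>
      show 0 + (size a + size ([] : List α) + T2 (a, b)) ≤ 2 * (size a + T2 (a, b) + 1)
      rw [size_nil]
      omega
  · rintro ⟨o, b⟩
    cases o <;> rfl

end Pool.Agent.WPM
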