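import Pool.Agent.Lib.MP_2da099_lc.C01

/-!
# C06: folds
-/

set_option autoImplicit false

namespace Pool.Agent.WPM

open Pool.Agent.Lib.PolyTime Function

variable {α σ : Type} [Enc α] [Enc σ]

theorem c06_loop {K : Type} [DecidableEq K] {k L t c : K} (hkL : k ≠ L) (hkt : k ≠ t)
    (hLt : L ≠ t) (hLc : L ≠ c) (htc : t ≠ c) (hkc : k ≠ c) {P : Prog K}
    {step : α × σ → σ} {T : α × σ → ℕ} {C : ℕ} (v : List Bool)
    (hP : ∀ (x : α × σ) (u : List Bool), ∃ τ, τ ≤ C * (T x + 1) ∧
      Run P (update (single k (code x ++ v)) L u) (update (single k (code (step x) ++ v)) L u) τ) :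
    ∀ (l : List α) (b : σ), ∃ τ, τ ≤ (C + 30) * (size l + foldCost T step l b) ∧
        Run (foldLoop k L t c P) (update (single k (code b ++ v)) L (code l))
          (update (single k (code (l.foldl (fun b a => step (a, b)) b) ++ v)) L [false]) τ := by
  intro l
  induction l with
  | nil =>
    intro b
    refine ⟨1, ?_, .loopF ?_⟩
    · rw [size_nil]
      calc 1 ≤ (C + 30) * 1 := by omega
        _ ≤ _ := Nat.mul_le_mul_left _ (by omega)
    rw [update_self]
    rfl
  | cons a l ih =>
    intro b
    obtain ⟨τ2, hτ2, r2⟩ := ih (step (a, b))
    obtain ⟨τ1, hτ1, r1⟩ := hP (a, b) (code l)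
    -- pop
    have h1 : Run (.pop L) (update (single k (code b ++ v)) L (code (a :: l)))
        (update (single k (code b ++ v)) L (code a ++ code l)) 1 := by
      have := Run.pop L (update (single k (code b ++ v)) L (code (a :: l)))
      rwa [update_self, update_idem, code_cons, List.tail_cons] at this
    have h2 := run_takeTree hLt hLc htc (enc a)
      (update (single k (code b ++ v)) L (code a ++ code l)) (code l) (by rw [update_self]; rfl)
      (by rw [update_of_ne (Ne.symm hLc), single_ne (Ne.symm hkc)])
    have h3 := run_mv (Ne.symm hkt) (code a).reverse
      (update (update (update (single k (code b ++ v)) L (code a ++ code l)) L (code l)) t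
      ((enc a).ser.reverse ++ update (single k (code b ++ v)) L (code a ++ code l) t))
      (by rw [update_self, update_of_ne (Ne.symm hLt), single_ne (Ne.symm hkt),
            List.append_nil]; rfl)
    have e3 : update (update (update (update (update (single k (code b ++ v)) L
        (code a ++ code l)) L
        (code l)) t ((enc a).ser.reverse ++ update (single k (code b ++ v)) L
        (code a ++ code l) t)) t []) k ((code a).reverse.reverse ++
        update (update (update (single k (code b ++ v)) L (code a ++ code l)) L (code l)) t
        ((enc a).ser.reverse ++ update (single k (code b ++ v)) L (code a ++ code l) t) k) =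
        update (single k (code a ++ (code b ++ v))) L (code l) := by
      have e0 : update (update (update (single k (code b ++ v)) L (code a ++ code l)) L
          (code l)) t
          ((enc a).ser.reverse ++ update (single k (code b ++ v)) L (code a ++ code l) t) k =
          code b ++ v := by
        rw [update_of_ne hkt, update_of_ne hkL, update_of_ne hkL, single_self]
      rw [e0, List.reverse_reverse, update_idem, update_idem]
      funext x
      by_cases hx : x = k
      · subst hx; rw [update_self, update_of_ne hkL, single_self]
      · by_cases hx' : x = t
        · subst hx'; rw [update_of_ne hx, update_self, update_of_ne (Ne.symm hLt), single_ne hx]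
        · by_cases hx'' : x = L
          · subst hx''
            rw [update_of_ne hx, update_of_ne hx', update_self, update_self]
          · rw [update_of_ne hx, update_of_ne hx', update_of_ne hx'', update_of_ne hx'',
              single_ne hx, single_ne hx]
    rw [e3, List.length_reverse] at h3
    have h4 : Run (.push k true) (update (single k (code a ++ (code b ++ v))) L (code l))
        (update (single k (code (a, b) ++ v)) L (code l)) 1 := by
      have := Run.push k true (update (single k (code a ++ (code b ++ v))) L (code l))
      rw [update_of_ne hkL, single_self] at this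
      have e : update (update (single k (code a ++ (code b ++ v))) L (code l)) k
          (true :: (code a ++ (code b ++ v))) = update (single k (code (a, b) ++ v)) L (code l) := by
        funext x
        by_cases hx : x = k
        · subst hx
          rw [update_self, update_of_ne hkL, single_self, code_prod, List.cons_append,
            List.append_assoc]
        · by_cases hx'' : x = L
          · subst hx''
            rw [update_of_ne hx, update_self, update_self]
          · rw [update_of_ne hx, update_of_ne hx'', update_of_ne hx'', single_ne hx, single_ne hx]
      rwa [e] at this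
    have h5 := Run.seq h1 (.seq h2 (.seq h3 (.seq h4 r1)))
    have h6 := Run.loopT (k := L) (p := isT) (by rw [update_self, code_cons]; rfl) h5 r2
    refine ⟨_, ?_, h6⟩
    have e : (enc a).size = size a := rfl
    rw [length_code, e, size_cons]
    show _ ≤ (C + 30) * (size a + size l + 1 + (T (a, b) + foldCost T step l (step (a, b))))
    have e2 : (C + 30) * (size a + size l + 1 + (T (a, b) + foldCost T step l (step (a, b)))) =
        (C + 30) * (size l + foldCost T step l (step (a, b))) + C * (T (a, b) + 1) +
          C * size a + 30 * (size a + 1 + T (a, b)) := by ring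
    rw [e2]
    omega

theorem CT.foldl {step : α × σ → σ} {T : α × σ → ℕ} (h : CT step T) :
    CT (fun x : List α × σ => x.1.foldl (fun s a => step (a, s)) x.2)
      (fun x => size x.1 + foldCost T step x.1 x.2) := by
  obtain ⟨K1, _, _, P1, k1, C, h1⟩ := h
  let i : K1 → K1 ⊕ Fin 3 := Sum.inl
  let L : K1 ⊕ Fin 3 := Sum.inr 0
  let t : K1 ⊕ Fin 3 := Sum.inr 1
  let c : K1 ⊕ Fin 3 := Sum.inr 2
  have hi : Injective i := Sum.inl_injective
  have hkL : i k1 ≠ L := by simp [i, L]
  have hkt : i k1 ≠ t := by simp [i, t]
  have hkc : i k1 ≠ c := by simp [i, c]
  have hLt : L ≠ t := by simp [L, t]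
  have hLc : L ≠ c := by simp [L, c]
  have htc : t ≠ c := by simp [t, c]
  have hiL : ∀ k, i k ≠ L := by simp [i, L]
  refine ⟨K1 ⊕ Fin 3, inferInstance, inferInstance, .seq (.pop (i k1))
    (.seq (takeTree (i k1) t c) (.seq (mv t L)
    (.seq (foldLoop (i k1) L t c (P1.map i)) (.pop L)))), i k1, C + 45, ?_⟩
  rintro ⟨l, b⟩ v
  have s1 : Run (.pop (i k1)) (single (i k1) (code (l, b) ++ v))
      (single (i k1) (code l ++ (code b ++ v))) 1 := by
    have hc : code (l, b) ++ v = true :: (code l ++ (code b ++ v)) := by
      rw [code_prod, List.cons_append, List.append_assoc]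
    have := Run.pop (i k1) (single (i k1) (code (l, b) ++ v))
    rw [single_self, update_single] at this
    rw [hc] at this ⊢
    exact this
  have s2 := run_takeTree hkt hkc htc (enc l) (single (i k1) (code l ++ (code b ++ v)))
    (code b ++ v) (single_self _ _) (single_ne (Ne.symm hkc) _)
  have e2 : update (update (single (i k1) (code l ++ (code b ++ v))) (i k1) (code b ++ v)) t
      ((enc l).ser.reverse ++ single (i k1) (code l ++ (code b ++ v)) t) =
      update (single (i k1) (code b ++ v)) t (code l).reverse := by
    rw [update_single, single_ne (Ne.symm hkt), List.append_nil]; rfl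
  rw [e2] at s2
  have s3 := run_mv (Ne.symm hLt) (code l).reverse
    (update (single (i k1) (code b ++ v)) t (code l).reverse) (update_self _ _ _)
  have e3 : update (update (update (single (i k1) (code b ++ v)) t (code l).reverse) t []) L
      ((code l).reverse.reverse ++ update (single (i k1) (code b ++ v)) t (code l).reverse L) =
      update (single (i k1) (code b ++ v)) L (code l) := by
    rw [List.reverse_reverse, update_of_ne hLt, single_ne (Ne.symm hkL), List.append_nil,
      update_idem]
    congr 1
    funext x
    by_cases hx : x = t
    · subst hx; rw [update_self, single_ne (Ne.symm hkt)]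
    · rw [update_of_ne hx]
  rw [e3, List.length_reverse] at s3
  obtain ⟨τ, hτ, s4⟩ := c06_loop (α := α) (σ := σ) hkL hkt hLt hLc htc hkc
    (P := P1.map i) (step := step) (T := T) (C := C) v
    (fun x u => by
      obtain ⟨τ, hτ, r⟩ := h1 x v
      refine ⟨τ, hτ, ?_⟩
      have := embed r i hi (update (single (i k1) (code x ++ v)) L u)
        (by rw [update_of_ne hkL, single_self])
        (fun k hk => by rw [update_of_ne (hiL _), single_ne (fun h => hk (hi h))])
      rwa [update_comm (Ne.symm hkL), update_single] at this) l b
  have s5 : Run (.pop L) (update (single (i k1) (code (l.foldl (fun b a => step (a, b)) b) ++ v)) L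
      [false]) (single (i k1) (code (l.foldl (fun b a => step (a, b)) b) ++ v)) 1 := by
    have := Run.pop L (update (single (i k1) (code (l.foldl (fun b a => step (a, b)) b) ++ v)) L
      [false])
    rw [update_self, update_idem, List.tail_cons] at this
    have e : update (single (i k1) (code (l.foldl (fun b a => step (a, b)) b) ++ v)) L [] =
        single (i k1) (code (l.foldl (fun b a => step (a, b)) b) ++ v) := by
      funext x
      by_cases hx : x = L
      · subst hx; rw [update_self, single_ne (Ne.symm hkL)]
      · rw [update_of_ne hx]
    rwa [e] at this
  refine ⟨_, ?_, .seq s1 (.seq s2 (.seq s3 (.seq s4 s5)))⟩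
  have e : (enc l).size = size l := rfl
  rw [length_code, e]
  show _ ≤ (C + 45) * (size l + foldCost T step l b + 1)
  have e4 : (C + 45) * (size l + foldCost T step l b + 1) =
      (C + 30) * (size l + foldCost T step l b) + 15 * (size l + foldCost T step l b) +
        (C + 45) := by ring
  rw [e4]
  omega

end Pool.Agent.WPM
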