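import Pool.Agent.Lib.MP_2da099_lc.C03
import Pool.Agent.Lib.MP_2da099_lc.C04
import Pool.Agent.Lib.MP_2da099_lc.C06

/-!
# C08: reverse, append, foldr
-/

set_option autoImplicit false

namespace Pool.Agent.WPM

open Pool.Agent.Lib.PolyTime Function

variable {α σ : Type} [Enc α] [Enc σ]

theorem c08_foldCost_zero {τ ρ : Type} (step : τ × ρ → ρ) (l : List τ) (s : ρ) :
    foldCost (fun _ => 0) step l s = 0 := by
  induction l generalizing s with
  | nil => rfl
  | cons a l ih => simp only [foldCost, ih]

theorem CT.appendRev : CT (fun x : List α × List α => x.1.reverse ++ x.2)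
    (fun x => size x.1) := by
  have h : CT (fun x : α × List α => x.1 :: x.2) (fun _ => 0) := CT.of_enc_eq (fun _ => rfl)
  refine ((CT.foldl h).mono 1 (fun x => ?_)).congr (fun x => ?_)
  · rw [c08_foldCost_zero]
    omega
  · obtain ⟨l, s⟩ := x
    show l.foldl (fun s a => a :: s) s = l.reverse ++ s
    induction l generalizing s with
    | nil => rfl
    | cons a l ih => simp [ih]

theorem CT.reverse : CT (fun l : List α => l.reverse) (fun l => size l) := by
  have h1 : CT (fun l : List α => (([] : List α), l)) (fun _ => 0) := CT.pushConst []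
  have h2 : CT (fun x : List α × List α => (x.2, x.1)) _ := CT.swap
  refine (((CT.appendRev.comp h2).comp h1).mono 3 (fun l => ?_)).congr (fun l => ?_)
  · show 0 + (size ([] : List α) + size l + size l) ≤ 3 * (size l + 1)
    rw [size_nil]
    omega
  · show l.reverse ++ [] = l.reverse
    rw [List.append_nil]

theorem CT.append : CT (fun x : List α × List α => x.1 ++ x.2) (fun x => size x.1) := by
  have h1 : CT (fun x : List α × List α => (x.1.reverse, x.2)) _ := CT.first CT.reverse
  refine ((CT.appendRev.comp h1).mono 2 (fun x => ?_)).congr (fun x => ?_)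
  · show size x.1 + size x.1.reverse ≤ 2 * (size x.1 + 1)
    rw [size_reverse]
    omega
  · show x.1.reverse.reverse ++ x.2 = x.1 ++ x.2
    rw [List.reverse_reverse]

theorem CT.foldr {step : α × σ → σ} {T : α × σ → ℕ} (h : CT step T) :
    CT (fun x : List α × σ => x.1.foldr (fun a s => step (a, s)) x.2)
      (fun x => size x.1 + foldCost T step x.1.reverse x.2) := by
  have h1 : CT (fun x : List α × σ => (x.1.reverse, x.2)) _ := CT.first CT.reverse
  refine (((CT.foldl h).comp h1).mono 2 (fun x => ?_)).congr (fun x => ?_)
  · show size x.1 + (size x.1.reverse + foldCost T step x.1.reverse x.2) ≤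
      2 * (size x.1 + foldCost T step x.1.reverse x.2 + 1)
    rw [size_reverse]
    omega
  · show x.1.reverse.foldl (fun s a => step (a, s)) x.2 = _
    rw [List.foldl_reverse]

end Pool.Agent.WPM
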