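import Pool.Agent.Lib.MP_2da099_lc.C02
import Pool.Agent.Lib.MP_2da099_lc.C08
import Pool.Agent.Lib.MP_2da099_lc.C05

/-!
# C09: transducers on lists over finite types
-/

set_option autoImplicit false

namespace Pool.Agent.WPM

open Pool.Agent.Lib.PolyTime Function

variable {α β σ : Type} [Enc α] [Enc β] [Enc σ]

theorem size_fin (ι : Type) [Enc ι] [Finite ι] : ∃ κ : ℕ, ∀ i : ι, size i ≤ κ := by
  classical
  let _ := Fintype.ofFinite ι
  exact ⟨Finset.univ.sup (fun i : ι => size i), fun i =>
    Finset.le_sup (f := fun i : ι => size i) (Finset.mem_univ i)⟩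

theorem size_list_le_of (κ : ℕ) (l : List α) (h : ∀ a ∈ l, size a ≤ κ) :
    size l ≤ (κ + 1) * (l.length + 1) := by
  induction l with
  | nil => simp
  | cons a l ih =>
    rw [size_cons, List.length_cons]
    have h1 := h a (by simp)
    have h2 := ih (fun b hb => h b (by simp [hb]))
    have e : (κ + 1) * (l.length + 1 + 1) = (κ + 1) * (l.length + 1) + (κ + 1) := by ring
    omega

theorem size_list_fin (ι : Type) [Enc ι] [Finite ι] :
    ∃ κ : ℕ, ∀ l : List ι, size l ≤ κ * (l.length + 1) := by
  obtain ⟨κ, h⟩ := size_fin ι
  exact ⟨κ + 1, fun l => size_list_le_of κ l (fun a _ => h a)⟩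

theorem foldCost_le {τ ρ : Type} {T : τ × ρ → ℕ} {step : τ × ρ → ρ} (B : ℕ)
    (hB : ∀ x, T x ≤ B) (l : List τ) (s : ρ) : foldCost T step l s ≤ B * l.length := by
  induction l generalizing s with
  | nil => simp [foldCost]
  | cons a l ih =>
    have h1 := hB (a, s)
    have h2 := ih (step (a, s))
    have e : B * (a :: l).length = B * l.length + B := by
      rw [List.length_cons]; ring
    simp only [foldCost]
    omega

theorem c09_trans_fold {α β σ : Type} (f : σ → α → σ × β) (l : List α) : ∀ (s : σ) (acc : List β),
    (l.foldl (fun (x : σ × List β) a => ((f x.1 a).1, (f x.1 a).2 :: x.2)) (s, acc)).2 =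
      (trans f s l).reverse ++ acc := by
  induction l with
  | nil => intro s acc; rfl
  | cons a l ih =>
    intro s acc
    rw [List.foldl_cons, ih]
    simp [trans]

theorem c09_length_trans {α β σ : Type} (f : σ → α → σ × β) (s : σ) (l : List α) :
    (trans f s l).length = l.length := by
  induction l generalizing s with
  | nil => rfl
  | cons a l ih => simp [trans, ih]

theorem CT.transduce [Finite α] [Finite β] [Finite σ] (f : σ → α → σ × β) (s : σ) :
    CT (fun l : List α => trans f s l) (fun l => l.length) := by
  obtain ⟨κ1, hκ1⟩ := size_fin α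
  obtain ⟨κ2, hκ2⟩ := size_fin σ
  obtain ⟨κ3, hκ3⟩ := size_list_fin α
  obtain ⟨κ4, hκ4⟩ := size_list_fin β
  have h1 : CT (fun x : α × (σ × List β) => ((x.1, x.2.1), x.2.2)) (fun x => size x.1) :=
    CT.assocL
  have h2 : CT (fun x : (α × σ) × List β => (f x.1.2 x.1.1, x.2)) (fun _ => 0) :=
    CT.first (CT.fin (fun y : α × σ => f y.2 y.1))
  have h3 : CT (fun x : (σ × β) × List β => (x.1.1, (x.1.2, x.2))) (fun x => size x.1.1) :=
    CT.assocR
  have h4 : CT (fun x : σ × (β × List β) => (x.1, x.2.1 :: x.2.2)) (fun _ => 0) :=
    CT.of_enc_eq (fun _ => rfl)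
  have hstep : CT (fun x : α × (σ × List β) => ((f x.2.1 x.1).1, (f x.2.1 x.1).2 :: x.2.2))
      (fun _ => 0) := by
    refine ((h4.comp (h3.comp (h2.comp h1))).mono (κ1 + κ2) (fun x => ?_)).congr (fun x => rfl)
    have a1 := hκ1 x.1
    have a2 := hκ2 (f x.2.1 x.1).1
    show size x.1 + 0 + size (f x.2.1 x.1).1 + 0 ≤ (κ1 + κ2) * (0 + 1)
    omega
  have hfold := CT.foldl hstep
  have hin : CT (fun l : List α => (l, (s, ([] : List β)))) (fun l => l.length) := by
    have a1 : CT (fun l : List α => ((s, ([] : List β)), l)) (fun _ => 0) := CT.pushConst _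
    have a2 : CT (fun x : (σ × List β) × List α => (x.2, x.1)) _ := CT.swap
    refine (a2.comp a1).mono (κ3 + size (s, ([] : List β))) (fun l => ?_)
    have := hκ3 l
    show 0 + (size (s, ([] : List β)) + size l) ≤ (κ3 + size (s, ([] : List β))) * (l.length + 1)
    have e : (κ3 + size (s, ([] : List β))) * (l.length + 1) = κ3 * (l.length + 1) +
      size (s, ([] : List β)) * l.length + size (s, ([] : List β)) := by ring
    omega
  have hout : CT (fun x : σ × List β => x.2.reverse) (fun x => x.2.length) := by
    have a1 : CT (fun x : σ × List β => x.2) _ := CT.snd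
    refine ((CT.reverse (α := β)).comp a1).mono (κ2 + κ4) (fun x => ?_)
    have a1 := hκ2 x.1
    have a2 := hκ4 x.2
    show size x.1 + size x.2 ≤ (κ2 + κ4) * (x.2.length + 1)
    have e : (κ2 + κ4) * (x.2.length + 1) = κ4 * (x.2.length + 1) + κ2 * x.2.length + κ2 := by ring
    omega
  refine ((hout.comp (hfold.comp hin)).mono (κ3 + 2) (fun l => ?_)).congr (fun l => ?_)
  · have a1 := hκ3 l
    have a2 : (l.foldl (fun (x : σ × List β) a => ((f x.1 a).1, (f x.1 a).2 :: x.2))
        (s, [])).2.length = l.length := by
      rw [c09_trans_fold, List.append_nil, List.length_reverse, c09_length_trans]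
    show l.length + (size l + foldCost (fun _ => 0) _ l (s, [])) +
      (l.foldl (fun (x : σ × List β) a => ((f x.1 a).1, (f x.1 a).2 :: x.2))
        (s, [])).2.length ≤ _
    rw [a2, c08_foldCost_zero]
    have e : (κ3 + 2) * (l.length + 1) = κ3 * (l.length + 1) + 2 * (l.length + 1) := by ring
    omega
  · show (l.foldl (fun (x : σ × List β) a => ((f x.1 a).1, (f x.1 a).2 :: x.2))
        (s, [])).2.reverse = trans f s l
    rw [c09_trans_fold, List.append_nil, List.reverse_reverse]

theorem CT.filterMap [Finite α] (f : α → Option β) :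
    CT (fun l : List α => l.filterMap f) (fun l => l.length) := by
  obtain ⟨κ1, hκ1⟩ := size_fin α
  obtain ⟨κ3, hκ3⟩ := size_list_fin α
  obtain ⟨κ2, hκ2⟩ : ∃ κ2 : ℕ, ∀ a, size (f a) ≤ κ2 := by
    classical
    let _ := Fintype.ofFinite α
    exact ⟨Finset.univ.sup (fun i : α => size (f i)), fun i =>
      Finset.le_sup (f := fun i : α => size (f i)) (Finset.mem_univ i)⟩
  have h1 : CT (fun x : α × List β => (f x.1, x.2)) (fun _ => 0) := CT.first (CT.fin f)
  have h2 : CT (fun x : Option β × List β => match x.1 with
      | none => x.2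
      | some b => b :: x.2) (fun x => match x.1 with
      | none => 0
      | some b => size b + 0) :=
    CT.ocase (CT.of_enc_eq (f := fun l : List β => l) (fun _ => rfl))
      (CT.of_enc_eq (f := fun x : β × List β => x.1 :: x.2) (fun _ => rfl))
  have hstep : CT (fun x : α × List β => match f x.1 with
      | none => x.2
      | some b => b :: x.2) (fun _ => 0) := by
    refine (h2.comp h1).mono κ2 (fun x => ?_)
    have a1 := hκ2 x.1
    show 0 + (match f x.1 with
      | none => 0
      | some b => size b + 0) ≤ κ2 * (0 + 1)
    cases h : f x.1 with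
    | none => simp
    | some b =>
      rw [h] at a1
      have : size (some b) = size b + 2 := by simp [size]
      simp only
      omega
  have hfold := CT.foldl hstep
  have hin : CT (fun l : List α => (l, ([] : List β))) (fun l => l.length) := by
    have a1 : CT (fun l : List α => (([] : List β), l)) (fun _ => 0) := CT.pushConst _
    have a2 : CT (fun x : List β × List α => (x.2, x.1)) _ := CT.swap
    refine (a2.comp a1).mono (κ3 + 1) (fun l => ?_)
    have := hκ3 l
    show 0 + (size ([] : List β) + size l) ≤ (κ3 + 1) * (l.length + 1)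
    rw [size_nil]
    have e : (κ3 + 1) * (l.length + 1) = κ3 * (l.length + 1) + (l.length + 1) := by ring
    omega
  have key : ∀ (l : List α) (acc : List β), l.foldl (fun s a => match f a with
      | none => s
      | some b => b :: s) acc = (l.filterMap f).reverse ++ acc := by
    intro l
    induction l with
    | nil => intro acc; rfl
    | cons a l ih =>
      intro acc
      rw [List.foldl_cons, ih]
      cases h : f a with
      | none => simp [List.filterMap_cons, h]
      | some b => simp [List.filterMap_cons, h]
  have hsz : ∀ l : List α, size (l.filterMap f) ≤ (κ2 + 1) * (l.length + 1) := by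
    intro l
    refine (size_list_le_of κ2 _ ?_).trans
      (Nat.mul_le_mul_left _ (Nat.succ_le_succ (List.length_filterMap_le _ _)))
    intro b hb
    obtain ⟨a, _, ha⟩ := List.mem_filterMap.mp hb
    have := hκ2 a
    rw [ha] at this
    have e : size (some b) = size b + 2 := by simp [size]
    omega
  refine (((CT.reverse (α := β)).comp (hfold.comp hin)).mono (κ3 + κ2 + 3)
    (fun l => ?_)).congr (fun l => ?_)
  · have a1 := hκ3 l
    have a2 := hsz l
    show l.length + (size l + foldCost (fun _ => 0) _ l []) +
      size (l.foldl (fun s a => match f a with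
      | none => s
      | some b => b :: s) []) ≤ _
    rw [key, List.append_nil, size_reverse, c08_foldCost_zero]
    have e : (κ3 + κ2 + 3) * (l.length + 1) = κ3 * (l.length + 1) + (κ2 + 1) * (l.length + 1) +
      2 * (l.length + 1) := by ring
    omega
  · show (l.foldl (fun s a => match f a with
      | none => s
      | some b => b :: s) []).reverse = l.filterMap f
    rw [key, List.append_nil, List.reverse_reverse]

theorem CT.all [Finite α] (p : α → Bool) :
    CT (fun l : List α => l.all p) (fun l => l.length) := by
  obtain ⟨κ3, hκ3⟩ := size_list_fin α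
  have hstep : CT (fun x : α × Bool => p x.1 && x.2) (fun _ => 0) := CT.fin _
  have hfold := CT.foldl hstep
  have hin : CT (fun l : List α => (l, true)) (fun l => l.length) := by
    have a1 : CT (fun l : List α => (true, l)) (fun _ => 0) := CT.pushConst _
    have a2 : CT (fun x : Bool × List α => (x.2, x.1)) _ := CT.swap
    refine (a2.comp a1).mono (κ3 + 3) (fun l => ?_)
    have := hκ3 l
    show 0 + (size true + size l) ≤ (κ3 + 3) * (l.length + 1)
    have e0 : size true = 3 := by simp [size]
    have e : (κ3 + 3) * (l.length + 1) = κ3 * (l.length + 1) + 3 * (l.length + 1) := by ring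
    omega
  refine ((hfold.comp hin).mono (κ3 + 1) (fun l => ?_)).congr (fun l => ?_)
  · have a1 := hκ3 l
    show l.length + (size l + foldCost (fun _ => 0) _ l true) ≤ _
    rw [c08_foldCost_zero]
    have e : (κ3 + 1) * (l.length + 1) = κ3 * (l.length + 1) + (l.length + 1) := by ring
    omega
  · show l.foldl (fun s a => p a && s) true = l.all p
    have key : ∀ (l : List α) (b : Bool), l.foldl (fun s a => p a && s) b = (l.all p && b) := by
      intro l
      induction l with
      | nil => intro b; simp
      | cons a l ih =>
        intro b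
        rw [List.foldl_cons, ih, List.all_cons]
        cases p a <;> cases b <;> cases l.all p <;> rfl
    rw [key, Bool.and_true]

end Pool.Agent.WPM
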