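import Pool.Agent.Lib.MP_2da099_lc.C03
import Pool.Agent.Lib.MP_2da099_lc.C04
import Pool.Agent.Lib.MP_2da099_lc.C08

/-!
# C10: pairing, constant lists of functions, a fold with an environment
-/

set_option autoImplicit false

namespace Pool.Agent.WPM

open Pool.Agent.Lib.PolyTime Function

variable {α β γ σ ε : Type} [Enc α] [Enc β] [Enc γ] [Enc σ] [Enc ε]

theorem CT.pair {f : α → β} {g : α → γ} {T T' : α → ℕ} (hf : CT f T) (hg : CT g T') :
    CT (fun a => (f a, g a)) (fun a => size a + T a + T' a) := by
  obtain ⟨C, hC⟩ := hf.size_le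
  have h1 : CT (fun a : α => (a, a)) _ := CT.dup
  have h2 : CT (fun x : α × α => (f x.1, x.2)) _ := CT.first hf
  have h3 : CT (fun x : β × α => (x.1, g x.2)) _ := CT.second hg
  refine (h3.comp (h2.comp h1)).mono (C + 3) (fun a => ?_)
  have a1 := hC a
  show size a + T a + (size (f a) + T' a) ≤ (C + 3) * (size a + T a + T' a + 1)
  have e : (C + 3) * (size a + T a + T' a + 1) = C * (T a + 1) + C * (size a + T' a) +
    3 * (size a + T a + T' a + 1) := by ring
  omega

theorem CT.const (b : β) : CT (fun _ : α => b) (fun a => size a) := by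
  have h1 : CT (fun a : α => (b, a)) (fun _ => 0) := CT.pushConst b
  have h2 : CT (fun x : β × α => x.1) _ := CT.fst
  refine (h2.comp h1).mono (size b + 1) (fun a => ?_)
  show 0 + (size b + size a) ≤ (size b + 1) * (size a + 1)
  have e : (size b + 1) * (size a + 1) = size b * size a + size b + size a + 1 := by ring
  omega

theorem CT.mapConst {ι : Type} (L : List ι) {f : ι → α → β} {T : α → ℕ}
    (hf : ∀ i ∈ L, CT (f i) T) : CT (fun a => L.map (fun i => f i a)) (fun a => size a + T a) := by
  induction L with
  | nil => exact (CT.const []).mono 1 (fun a => by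
      show size a ≤ 1 * (size a + T a + 1)
      omega)
  | cons i L ih =>
    have h1 := hf i (by simp)
    have h2 := ih (fun j hj => hf j (by simp [hj]))
    have h3 : CT (fun x : β × List β => x.1 :: x.2) (fun _ => 0) := CT.of_enc_eq (fun _ => rfl)
    refine ((h3.comp (h1.pair h2)).mono 3 (fun a => ?_)).congr (fun a => rfl)
    show size a + T a + (size a + T a) + 0 ≤ 3 * (size a + T a + 1)
    omega

theorem c10_foldCost_mono {τ ρ : Type} {T T' : τ × ρ → ℕ} {step : τ × ρ → ρ} (B : ℕ)
    (hB : ∀ x, T x ≤ T' x + B) (l : List τ) (s : ρ) :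
    foldCost T step l s ≤ foldCost T' step l s + B * l.length := by
  induction l generalizing s with
  | nil => simp [foldCost]
  | cons a l ih =>
    have h1 := hB (a, s)
    have h2 := ih (step (a, s))
    have e : B * (a :: l).length = B * l.length + B := by
      rw [List.length_cons]; ring
    simp only [foldCost]
    omega

/-- A fold whose step may use an environment `e`. -/
theorem CT.foldlEnv {step : (α × ε) × σ → σ} {T : (α × ε) × σ → ℕ} (h : CT step T) :
    CT (fun x : List α × (ε × σ) => x.1.foldl (fun s a => step ((a, x.2.1), s)) x.2.2)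
      (fun x => size x.1 + (x.1.length + 1) * size x.2.1 +
        foldCost (fun y => T ((y.1, x.2.1), y.2)) (fun y => step ((y.1, x.2.1), y.2)) x.1 x.2.2) := by
  -- `(a, (e, s)) ↦ ((a, e), s) ↦ ((a, (e, e)), s) ↦ (((a, e), e), s) ↦ ((e, (a, e)), s) ↦ ..`
  have h1 : CT (fun x : α × (ε × σ) => ((x.1, x.2.1), x.2.2)) (fun x => size x.1) := CT.assocL
  have h2 : CT (fun x : α × ε => (x.2, (x.1, x.2))) (fun x => size x.1 + size x.2) := by
    have a1 : CT (fun x : α × ε => (x.1, (x.2, x.2))) (fun x => size x.1 + size x.2) :=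
      CT.second CT.dup
    have a2 : CT (fun x : α × (ε × ε) => ((x.1, x.2.1), x.2.2)) (fun x => size x.1) := CT.assocL
    have a3 : CT (fun x : (α × ε) × ε => (x.2, x.1)) (fun x => size x.1 + size x.2) := CT.swap
    refine ((a3.comp (a2.comp a1)).mono 4 (fun x => ?_)).congr (fun x => rfl)
    show size x.1 + size x.2 + size x.1 + (size (x.1, x.2) + size x.2) ≤
      4 * (size x.1 + size x.2 + 1)
    rw [size_prod]
    simp only
    omega
  have h3 : CT (fun x : (α × ε) × σ => ((x.1.2, (x.1.1, x.1.2)), x.2)) _ := CT.first h2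
  have h4 : CT (fun x : (ε × (α × ε)) × σ => (x.1.1, (x.1.2, x.2))) (fun x => size x.1.1) :=
    CT.assocR
  have h5 : CT (fun x : ε × ((α × ε) × σ) => (x.1, step x.2)) _ := CT.second h
  have hstep : CT (fun x : α × (ε × σ) => (x.2.1, step ((x.1, x.2.1), x.2.2)))
      (fun x => size x.1 + size x.2.1 + T ((x.1, x.2.1), x.2.2)) := by
    refine ((h5.comp (h4.comp (h3.comp h1))).mono 4 (fun x => ?_)).congr (fun x => rfl)
    show size x.1 + (size x.1 + size x.2.1) + size x.2.1 +
      (size x.2.1 + T ((x.1, x.2.1), x.2.2)) ≤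
      4 * (size x.1 + size x.2.1 + T ((x.1, x.2.1), x.2.2) + 1)
    omega
  have hfold := CT.foldl hstep
  have hout : CT (fun x : ε × σ => x.2) _ := CT.snd
  have key : ∀ (e : ε) (l : List α) (s : σ),
      l.foldl (fun (y : ε × σ) a => (y.1, step ((a, y.1), y.2))) (e, s) =
        (e, l.foldl (fun s a => step ((a, e), s)) s) := by
    intro e l
    induction l with
    | nil => intro s; rfl
    | cons a l ih => intro s; rw [List.foldl_cons, ih, List.foldl_cons]
  have hcost : ∀ (e : ε) (l : List α) (s : σ),
      foldCost (fun x : α × (ε × σ) => size x.1 + size x.2.1 + T ((x.1, x.2.1), x.2.2))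
        (fun x => (x.2.1, step ((x.1, x.2.1), x.2.2))) l (e, s) ≤
      size l + l.length * size e +
        foldCost (fun y => T ((y.1, e), y.2)) (fun y => step ((y.1, e), y.2)) l s := by
    intro e l
    induction l with
    | nil => intro s; simp [foldCost]
    | cons a l ih =>
      intro s
      have := ih (step ((a, e), s))
      simp only [foldCost, size_cons, List.length_cons]
      have e1 : (l.length + 1) * size e = l.length * size e + size e := by ring
      omega
  refine ((hout.comp hfold).mono 3 (fun x => ?_)).congr (fun x => ?_)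
  · obtain ⟨l, e, s⟩ := x
    have a1 := hcost e l s
    show size l + foldCost _ _ l (e, s) +
      size (l.foldl (fun (y : ε × σ) a => (y.1, step ((a, y.1), y.2))) (e, s)).1 ≤ _
    rw [key]
    simp only
    have e1 : (l.length + 1) * size e = l.length * size e + size e := by ring
    omega
  · obtain ⟨l, e, s⟩ := x
    show (l.foldl (fun (y : ε × σ) a => (y.1, step ((a, y.1), y.2))) (e, s)).2 = _
    rw [key]

end Pool.Agent.WPM
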