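import Pool.Agent.Lib.MP_2da099_lc.C01
import Pool.Agent.Lib.PolyTime.Comp

/-!
# C11: from programs to Mathlib's multi-stack machines reading the word itself

HINTS.  Two machines, composed with `stepsTo_compTM` of `PolyTime/Comp.lean` (exact step count, the
letter translation `e` between the alphabets is arbitrary):
* M1 (by hand, a `Turing.FinTM2`): input stack over the alphabet `Letter r`, output stack over `Bool`.
  It pops a letter `a` and pushes the bits of `true :: code a` REVERSED onto the output stack (a chain
  of push statements: `pushAll : List Bool → Stmt → Stmt` with the letter in the internal state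
  `Option (Letter r)`), having pushed `false` at the beginning; when the input is empty it halts.
  So the output is `code w.reverse`.  About `2 * n + 4` steps (a step of `TM2` may do several pushes).
  All stacks have finite alphabets.
* M2 = `Prog.machine` of the program of `f ∘ reverse`; instead of composing with `CT.reverse`, we take
  the function `f' w = f w.reverse` as hypothesis here.  The output must be the single bit: append the
  program `.ite k₀ isT (.seq (clear k₀) (.push k₀ true)) (.seq (clear k₀) (.push k₀ false))`.
  See `computable_of_run` in `PolyTime/Prog.lean` and `run_stepsTo`.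
* `Turing.TM2ComputableInTime ea eb f` extends `TM2ComputableAux`; the alphabets of the encodings are
  `Letter r` and `Bool`; `time n := C' * (T' n + n + 1)`.
-/

set_option autoImplicit false

namespace Pool.Agent.WPM

open Pool.Agent.Lib.PolyTime Function

/-! ### The reading machine -/

/-- the alphabets of the reading machine -/
def c11_G (r : ℕ) : Bool → Type
  | false => Letter r
  | true => Bool

/-- the stacks of the reading machine -/
def c11_S {r : ℕ} (w : List (Letter r)) (o : List Bool) : ∀ k, List (c11_G r k)
  | false => w
  | true => o

theorem c11_upT {r : ℕ} (w : List (Letter r)) (o o' : List Bool) :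
    update (c11_S w o) true o' = c11_S w o' := by
  funext k
  cases k
  · exact update_of_ne (by decide) _ _
  · exact update_self _ _ _

theorem c11_upF {r : ℕ} (w w' : List (Letter r)) (o : List Bool) :
    update (c11_S w o) false w' = c11_S w' o := by
  funext k
  cases k
  · exact update_self _ _ _
  · exact update_of_ne (by decide) _ _

/-- push a word on the output stack -/
def c11_push {r : ℕ} {Λ σ : Type} : List Bool → Turing.TM2.Stmt (c11_G r) Λ σ →
    Turing.TM2.Stmt (c11_G r) Λ σ
  | [], q => q
  | b :: l, q => .push true (fun _ => b) (c11_push l q)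

theorem c11_push_aux {r : ℕ} {Λ σ : Type} (q : Turing.TM2.Stmt (c11_G r) Λ σ) (v : σ)
    (w : List (Letter r)) : ∀ (l o : List Bool),
    Turing.TM2.stepAux (c11_push l q) v (c11_S w o) =
      Turing.TM2.stepAux q v (c11_S w (l.reverse ++ o))
  | [], o => by simp [c11_push]
  | b :: l, o => by
    rw [c11_push, Turing.TM2.stepAux]
    have h1 : update (c11_S w o) true (b :: c11_S w o true) = c11_S w (b :: o) :=
      c11_upT w o (b :: o)
    rw [h1, c11_push_aux q v w l (b :: o)]
    simp

/-- the labels of the reading machine -/
abbrev c11_L (r : ℕ) : Type := Bool ⊕ Option (Letter r)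

/-- the program of the reading machine -/
noncomputable def c11_m (r : ℕ) : c11_L r → Turing.TM2.Stmt (c11_G r) (c11_L r) (Option (Letter r))
  | Sum.inl false => .push true (fun _ => false) (.goto fun _ => Sum.inl true)
  | Sum.inl true => .pop false (fun _ o => o) (.goto fun v => Sum.inr v)
  | Sum.inr (some a) => .load (fun _ => none) (c11_push (true :: code a).reverse
      (.goto fun _ => Sum.inl true))
  | Sum.inr none => .halt

/-- the reading machine -/
noncomputable def c11_M (r : ℕ) : Turing.FinTM2 where
  K := Bool
  k₀ := false
  k₁ := true
  Γ := c11_G r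
  Λ := c11_L r
  main := Sum.inl false
  σ := Option (Letter r)
  initialState := none
  Γk₀Fin := inferInstanceAs (Fintype (Letter r))
  m := c11_m r

theorem c11_loop {r : ℕ} : ∀ (w w' : List (Letter r)),
    StepsTo (Turing.TM2.step (c11_m r)) ⟨some (Sum.inl true), none, c11_S w (code w')⟩
      ⟨none, none, c11_S [] (code (w.reverse ++ w'))⟩ (2 * w.length + 2)
  | [], w' => by
    refine StepsTo.trans (m := 1) (n := 1)
      (b := ⟨some (Sum.inr none), none, c11_S [] (code w')⟩) (StepsTo.single ?_)
      (StepsTo.single ?_)
    · simp only [Turing.TM2.step, c11_m, Turing.TM2.stepAux]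
      have h1 : update (c11_S ([] : List (Letter r)) (code w')) false
        (c11_S ([] : List (Letter r)) (code w') false).tail = c11_S [] (code w') :=
        c11_upF [] [] _
      rw [h1]
      rfl
    · simp only [Turing.TM2.step, c11_m, Turing.TM2.stepAux]
      rfl
  | a :: w, w' => by
    have h := c11_loop w (a :: w')
    have e : 2 * (a :: w).length + 2 = 1 + (1 + (2 * w.length + 2)) := by
      rw [List.length_cons]; ring
    have e2 : (a :: w).reverse ++ w' = w.reverse ++ a :: w' := by simp
    rw [e, e2]
    refine StepsTo.trans (b := ⟨some (Sum.inr (some a)), some a, c11_S w (code w')⟩)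
      (StepsTo.single ?_) (StepsTo.trans (StepsTo.single ?_) h)
    · simp only [Turing.TM2.step, c11_m, Turing.TM2.stepAux]
      have h1 : update (c11_S (a :: w) (code w')) false
        (c11_S (a :: w) (code w') false).tail = c11_S w (code w') :=
        c11_upF _ w _
      rw [h1]
      rfl
    · simp only [Turing.TM2.step, c11_m, Turing.TM2.stepAux]
      rw [c11_push_aux]
      simp only [Turing.TM2.stepAux, List.reverse_reverse, code_cons]
      rfl

theorem c11_read {r : ℕ} (w : List (Letter r)) :
    StepsTo (c11_M r).step (Turing.initList (c11_M r) w)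
      (Turing.haltList (c11_M r) (code w.reverse)) (1 + (2 * w.length + 2)) := by
  have e1 : Turing.initList (c11_M r) w = ⟨some (Sum.inl false), none, c11_S w []⟩ := by
    unfold Turing.initList
    congr 1
    funext k
    cases k
    · rfl
    · rfl
  have e2 : Turing.haltList (c11_M r) (code w.reverse) =
      ⟨none, none, c11_S [] (code w.reverse)⟩ := by
    unfold Turing.haltList
    congr 1
    funext k
    cases k
    · rfl
    · rfl
  rw [e1, e2]
  have h := c11_loop w []
  rw [List.append_nil] at h
  refine StepsTo.trans (StepsTo.single ?_) h
  change Turing.TM2.step (c11_m r) _ = _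
  simp only [Turing.TM2.step, c11_m, Turing.TM2.stepAux]
  have h1 : update (c11_S w []) true (false :: c11_S w [] true) = c11_S w [false] :=
      c11_upT w [] [false]
  rw [h1]
  rfl

/-! ### The program -/

/-- replace the code of a truth value by a single bit -/
def c11_fin {K : Type} [DecidableEq K] (k : K) : Prog K :=
  .ite k isT (.seq (clear k) (.push k true)) (.seq (clear k) (.push k false))

theorem c11_fin_run {K : Type} [DecidableEq K] (k : K) (b : Bool) :
    ∃ t, t ≤ 9 ∧ Run (c11_fin k) (single k (code b)) (single k [b]) t := by
  have h1 := run_clear k (code b) (single k (code b)) (single_self _ _)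
  rw [update_single] at h1
  have h2 : Run (.push k b) (single k []) (single k [b]) 1 := by
    have := Run.push k b (single k [])
    rwa [update_single, single_self] at this
  cases b
  · refine ⟨_, ?_, Run.iteF (by rw [single_self]; rfl) (Run.seq h1 h2)⟩
    decide
  · refine ⟨_, ?_, Run.iteT (by rw [single_self]; rfl) (Run.seq h1 h2)⟩
    decide

theorem c11_prog {K : Type} [DecidableEq K] [Fintype K] (P : Prog K) (k : K) (u v : List Bool)
    (t : ℕ) (h : Run P (single k u) (single k v) t) :
    StepsTo (P.machine k).step (Turing.initList (P.machine k) u)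
      (Turing.haltList (P.machine k) v) (t + 1) := by
  obtain ⟨v', hv⟩ := run_stepsTo (Λ := Option (Lbl P)) (P.machine k).m h some none
      (fun l => rfl) none
  have e1 : Turing.initList (P.machine k) u =
      ⟨some (some (entry P)), none, single k u⟩ := by
    unfold Turing.initList
    congr 1
  have e2 : Turing.haltList (P.machine k) v = ⟨none, none, single k v⟩ := by
    unfold Turing.haltList
    congr 1
  rw [e1, e2]
  refine StepsTo.trans hv (StepsTo.single ?_)
  rfl

theorem c11_len {r : ℕ} : ∃ c : ℕ, ∀ w : List (Letter r), (code w).length ≤ c * w.length + 1 := by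
  refine ⟨(Finset.univ : Finset (Letter r)).sup (fun a => (code a).length) + 1, fun w => ?_⟩
  induction w with
  | nil => simp [length_code]
  | cons a w ih =>
    have h := Finset.le_sup (f := fun a : Letter r => (code a).length) (Finset.mem_univ a)
    rw [code_cons, List.length_cons, List.length_append, List.length_cons, Nat.mul_add, Nat.mul_one]
    omega

theorem CT.machine {r : ℕ} (f : List (Letter r) → Bool) (T : List (Letter r) → ℕ)
    (h : CT (fun w => f w.reverse) T) (T' : ℕ → ℕ) (hT : ∀ w, T w ≤ T' w.length) :
    ∃ (M : Turing.TM2ComputableInTime (fun w : List (Letter r) => w) (fun b : Bool => [b]) f)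
      (C : ℕ), (∀ k, Finite (M.tm.Γ k)) ∧ ∀ n, M.time n ≤ C * (T' n + n + 1) := by
  obtain ⟨K, _, _, P, k, C, hP⟩ := h
  obtain ⟨c, hc⟩ := c11_len (r := r)
  have hrun : ∀ w : List (Letter r), ∃ t, t ≤ C * (T' w.length + 1) + 10 ∧
      StepsTo ((Prog.seq P (c11_fin k)).machine k).step
        (Turing.initList ((Prog.seq P (c11_fin k)).machine k) (code w.reverse))
        (Turing.haltList ((Prog.seq P (c11_fin k)).machine k) [f w]) t := by
    intro w
    obtain ⟨t1, ht1, r1⟩ := hP w.reverse []
    simp only [List.reverse_reverse, List.append_nil] at r1
    obtain ⟨t2, ht2, r2⟩ := c11_fin_run k (f w)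
    refine ⟨t1 + t2 + 1, ?_, c11_prog _ k _ _ _ (Run.seq r1 r2)⟩
    have h1 := hT w.reverse
    rw [List.length_reverse] at h1
    have h2 : C * (T w.reverse + 1) ≤ C * (T' w.length + 1) :=
      Nat.mul_le_mul_left _ (by omega)
    omega
  refine ⟨{ tm := compTM (c11_M r) ((Prog.seq P (c11_fin k)).machine k) (fun b : Bool => b)
            inputAlphabet := Equiv.refl (Letter r)
            outputAlphabet := Equiv.refl Bool
            time := fun n => (1 + (2 * n + 2)) + ((c * n + 1 + 1) + ((c * n + 1 + 1) +
              (C * (T' n + 1) + 10)))
            outputsFun := fun w => evalsOf ?_ }, 2 * c + C + 20, ?_, ?_⟩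
  · obtain ⟨t, ht, hs⟩ := hrun w
    have h1 := c11_read w
    have h2 := stepsTo_compTM (M₁ := c11_M r) (M₂ := (Prog.seq P (c11_fin k)).machine k)
      (fun b : Bool => b) w (code w.reverse) [f w] _ t h1
      (by
        have : List.map (fun b : Bool => b) (code w.reverse) = code w.reverse := List.map_id _
        exact this.symm ▸ hs)
    refine ⟨(1 + (2 * w.length + 2)) + (((code w.reverse).length + 1) +
      (((code w.reverse).length + 1) + t)), ?_, ?_⟩
    · have h3 := hc w.reverse
      rw [List.length_reverse] at h3
      omega
    · have e1 : List.map (Equiv.refl (Letter r)).invFun w = w := List.map_id _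
      have e2 : List.map (Equiv.refl Bool).invFun [f w] = [f w] := List.map_id _
      exact e1.symm ▸ e2.symm ▸ h2
  · intro j
    rcases j with j | j | j
    · cases j
      · exact inferInstanceAs (Finite (Letter r))
      · exact inferInstanceAs (Finite Bool)
    · exact inferInstanceAs (Finite Bool)
    · exact inferInstanceAs (Finite Bool)
  · intro n
    simp only
    have e : (2 * c + C + 20) * (T' n + n + 1) = 2 * (c * n) + C * (T' n + 1) + 20 * n + 20 +
      (2 * c * T' n + 2 * c + C * n + 20 * T' n) := by ring
    rw [e]
    have e2 : C * (T' n + 1) = C * (T' n + 1) := rfl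
    generalize c * n = x
    generalize C * (T' n + 1) = y
    generalize 2 * c * T' n + 2 * c + C * n + 20 * T' n = z
    omega

end Pool.Agent.WPM
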