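import Pool.Agent.Lib.MP_2da099_lc.C05
import Pool.Agent.Lib.MP_2da099_lc.C09
import Pool.Agent.Lib.MP_2da099_lc.C10
import Pool.Agent.Lib.MP_2da099_lc.C11

/-!
# F03: closure properties of `Good`, and the machine

HINTS.
* `Good.true`: `CT.const` (cost `size w ≤ κ * (w.length + 1)`, `size_list_fin`); `expo t ≥ 1`.
* `Good.and`: `CT.pair`, then the finite function `Bool × Bool → Bool` (`CT.fin`).  Cost
  `size w + T1 w + T2 w`.  Take `max C 0` or so: the constants may be negative in the definition, but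
  `0 ≤ T w ≤ C * ..`, so bound `C` by `|C|`.
* `Good.forall_fin`: induction on `m` (`Fin.forall_fin_succ`).
* `Good.machine`: `CT.machine` for `f`; `fun w => f w.reverse` has cost `size w + T w.reverse`
  (`CT.comp`, `CT.reverse`), and all words of length `n` have `T w ≤ ⌊C * (n+1) ^ expo t⌋₊ =: T' n`.
  The function of the machine is `fun w => decide (Z w)` which equals `f` (rewrite with `funext`).
-/

set_option autoImplicit false

namespace Pool.Agent.WPM

open Pool.Agent.Lib.PolyTime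

theorem f03_one_le_expo (t : ℕ) : 1 ≤ expo t := le_max_left _ _

theorem f03_le_pow (t n : ℕ) : (n : ℝ) + 1 ≤ ((n : ℝ) + 1) ^ expo t := by
  have h1 : (1 : ℝ) ≤ (n : ℝ) + 1 := by
    have : (0 : ℝ) ≤ (n : ℝ) := Nat.cast_nonneg n
    linarith
  calc (n : ℝ) + 1 = ((n : ℝ) + 1) ^ (1 : ℝ) := (Real.rpow_one _).symm
    _ ≤ ((n : ℝ) + 1) ^ expo t := Real.rpow_le_rpow_of_exponent_le h1 (f03_one_le_expo t)

theorem Good.iff {r t : ℕ} {Z Z' : List (Letter r) → Prop} (h : Good r t Z)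
    (hZ : ∀ w, Z' w ↔ Z w) : Good r t Z' := by
  obtain ⟨f, T, C, hf, hfz, hT⟩ := h
  exact ⟨f, T, C, hf, fun w => (hfz w).trans (hZ w).symm, hT⟩

theorem f03_size (r : ℕ) : ∃ κ : ℕ, ∀ (t : ℕ) (w : List (Letter r)),
    (size w : ℝ) ≤ κ * ((w.length : ℝ) + 1) ^ expo t := by
  obtain ⟨κ, hκ⟩ := size_list_fin (Letter r)
  refine ⟨κ, fun t w => ?_⟩
  have h1 : ((size w : ℕ) : ℝ) ≤ κ * ((w.length : ℝ) + 1) := by
    have := hκ w
    calc ((size w : ℕ) : ℝ) ≤ ((κ * (w.length + 1) : ℕ) : ℝ) := by exact_mod_cast this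
      _ = κ * ((w.length : ℝ) + 1) := by push_cast; ring
  exact h1.trans (mul_le_mul_of_nonneg_left (f03_le_pow t w.length) (Nat.cast_nonneg κ))

theorem Good.true (r t : ℕ) : Good r t (fun _ => True) := by
  obtain ⟨κ, hκ⟩ := f03_size r
  exact ⟨fun _ => Bool.true, fun w => size w, κ, CT.const Bool.true, fun w => by simp,
    fun w => hκ t w⟩

theorem Good.and {r t : ℕ} {Z1 Z2 : List (Letter r) → Prop} (h1 : Good r t Z1)
    (h2 : Good r t Z2) : Good r t (fun w => Z1 w ∧ Z2 w) := by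
  obtain ⟨κ, hκ⟩ := f03_size r
  obtain ⟨f1, T1, C1, hf1, hz1, hT1⟩ := h1
  obtain ⟨f2, T2, C2, hf2, hz2, hT2⟩ := h2
  refine ⟨fun w => f1 w && f2 w, fun w => (size w + T1 w + T2 w) + 0, κ + C1 + C2, ?_, ?_, ?_⟩
  · exact (CT.fin (fun x : Bool × Bool => x.1 && x.2)).comp (CT.pair hf1 hf2)
  · intro w
    rw [Bool.and_eq_true, hz1, hz2]
  · intro w
    have e1 := hκ t w
    have e2 := hT1 w
    have e3 := hT2 w
    push_cast
    linarith

theorem Good.forall_fin {r t : ℕ} (m : ℕ) (Z : Fin m → List (Letter r) → Prop)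
    (h : ∀ i, Good r t (Z i)) : Good r t (fun w => ∀ i, Z i w) := by
  induction m with
  | zero => exact (Good.true r t).iff (fun w => ⟨fun _ => trivial, fun _ i => i.elim0⟩)
  | succ m ih =>
    exact ((h 0).and (ih (fun i => Z i.succ) (fun i => h i.succ))).iff
      (fun w => Fin.forall_fin_succ)

open Classical in
theorem Good.machine {r t : ℕ} {Z : List (Letter r) → Prop} (h : Good r t Z) :
    ∃ (M : Turing.TM2ComputableInTime (fun w : List (Letter r) => w) (fun b : Bool => [b])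
      (fun w => decide (Z w))) (C : ℝ), (∀ k, Finite (M.tm.Γ k)) ∧
      ∀ n : ℕ, (M.time n : ℝ) ≤ C * ((n : ℝ) + 1) ^ expo t := by
  obtain ⟨κ, hκ⟩ := f03_size r
  obtain ⟨f, T, C, hf, hfz, hT⟩ := h
  have hfe : f = fun w => decide (Z w) := by
    funext w
    rw [Bool.eq_iff_iff, hfz, decide_eq_true_iff]
  rw [← hfe]
  have hrev : CT (fun w : List (Letter r) => f w.reverse) (fun w => size w + T w.reverse) :=
    hf.comp CT.reverse
  have hpos : ∀ n : ℕ, 0 ≤ ((n : ℝ) + 1) ^ expo t := fun n =>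
    Real.rpow_nonneg (by positivity) _
  obtain ⟨M, C', hfin, hM⟩ := CT.machine f _ hrev
    (fun n => ⌊(κ + C) * ((n : ℝ) + 1) ^ expo t⌋₊) (by
      intro w
      refine Nat.le_floor ?_
      have e1 := hκ t w
      have e2 := hT w.reverse
      rw [List.length_reverse] at e2
      push_cast
      linarith)
  refine ⟨M, C' * (|κ + C| + 1), hfin, fun n => ?_⟩
  have h1 : ((⌊(κ + C) * ((n : ℝ) + 1) ^ expo t⌋₊ : ℕ) : ℝ) ≤ |κ + C| * ((n : ℝ) + 1) ^ expo t := by
    have h2 : (κ + C) * ((n : ℝ) + 1) ^ expo t ≤ |κ + C| * ((n : ℝ) + 1) ^ expo t :=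
      mul_le_mul_of_nonneg_right (le_abs_self _) (hpos n)
    exact (Nat.cast_le.mpr (Nat.floor_le_floor h2)).trans
      (Nat.floor_le (mul_nonneg (abs_nonneg _) (hpos n)))
  have h3 : (M.time n : ℝ) ≤ C' * ((⌊(κ + C) * ((n : ℝ) + 1) ^ expo t⌋₊ : ℕ) + n + 1) := by
    exact_mod_cast hM n
  refine h3.trans ?_
  rw [mul_assoc]
  refine mul_le_mul_of_nonneg_left ?_ (Nat.cast_nonneg C')
  have h4 := f03_le_pow t n
  linarith

end Pool.Agent.WPM
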