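import Pool.Agent.Lib.MP_2da099_lc.A02
import Pool.Agent.Lib.MP_2da099_lc.A03
import Pool.Agent.Lib.MP_2da099_lc.A04
import Pool.Agent.Lib.MP_2da099_lc.A11
import Pool.Agent.Lib.MP_2da099_lc.F02
import Pool.Agent.Lib.MP_2da099_lc.F03

/-!
# A12: prime exponent

HINTS.  `exists_cocycle` gives `M`, `a`; `N` = the kernel of the linear map `(Letter r → Λ) → M`,
`c ↦ Σ c l • a l` (`Fintype.linearCombination` / `Finsupp` or by hand); the sum in `exists_cocycle` is
the value of this map at `Σ mon x • Pi.single l 1`.  `lasker` and `isNoetherian_lam`;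
`rank_cond` gives `L` and `y`; for `v ∈ L`, `(mon v - 1) • x ∈ N ≤ Q i`.  `component_sound`,
`good_of_sound`, `Good.forall_fin`, `Good.iff`.
-/

set_option autoImplicit false

namespace Pool.Agent.WPM

universe u

theorem good_prime {G : Type u} [Group G] (p : ℕ) [Fact p.Prime] (A : Subgroup G) [A.Normal]
    (hcomm : ∀ a ∈ A, ∀ b ∈ A, a * b = b * a) (hexp : ∀ a ∈ A, a ^ p = 1)
    (hquot : ∀ x y : G, x * y * x⁻¹ * y⁻¹ ∈ A) {r t : ℕ} (g : Fin r → G)
    (hg : Subgroup.closure (Set.range g) = ⊤) (x : Fin t → G)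
    (hx : ∀ h : G, ∃ k, 0 < k ∧ h ^ k ∈ Subgroup.closure (Set.range x) ⊔ A) :
    Good r t (fun w => value g w = 1) := by
  classical
  obtain ⟨M, _, _, a, hval, hact⟩ := exists_cocycle p A hcomm hexp hquot g
  obtain ⟨L, y, hL, hy⟩ := rank_cond A hquot g hg x hx
  have hNoe := isNoetherian_lam p r
  let T : (Letter r → Lam p r) →ₗ[Lam p r] M := Fintype.linearCombination (Lam p r) a
  obtain ⟨m, Q, P, hN, hQ⟩ := lasker (Lam p r) (Letter r) (LinearMap.ker T)
  have hgood : ∀ i : Fin m, Good r t (fun w => ((posl 0 w).map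
      (fun x => (mon x.1 : Lam p r) • (Pi.single x.2 1 : Letter r → Lam p r))).sum ∈ Q i) := by
    intro i
    obtain ⟨hP, hne, h1, h2⟩ := hQ i
    obtain ⟨D, hd, hs⟩ := component_sound (t := t) (Q i) (P i) hP hne h1 h2 L (by
      intro v hv z
      refine (hN _).mp ?_ i
      rw [LinearMap.mem_ker, map_smul, sub_smul, one_smul, hact v (hL v hv), sub_self]) y hy
    exact good_of_sound t D hd _ hs
  refine (Good.forall_fin m _ hgood).iff (fun w => ?_)
  rw [← hN, LinearMap.mem_ker, map_list_sum, List.map_map, hval]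
  have : (posl 0 w).map (fun x => (mon x.1 : Lam p r) • a x.2)
      = (posl 0 w).map (T ∘ fun x => (mon x.1 : Lam p r) •
        (Pi.single x.2 1 : Letter r → Lam p r)) := by
    refine List.map_congr_left (fun z _ => ?_)
    simp only [Function.comp_apply, map_smul]
    congr 1
    change a z.2 = Fintype.linearCombination (Lam p r) a (Pi.single z.2 1)
    rw [Fintype.linearCombination_apply_single, one_smul]
  rw [this]

end Pool.Agent.WPM
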