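import Pool.Agent.Lib.MP_2da099_lc.A12
import Mathlib.GroupTheory.OrderOfElement
import Mathlib.Algebra.Squarefree.Basic

/-!
# A13: squarefree exponent

HINTS.  For a prime `q ∣ m` let `A_q = {a ∈ A | a ^ (m / q) = 1}`, a subgroup (A is abelian), normal in
`G`.  `G_q = G ⧸ A_q` with the normal subgroup `A.map (mk' A_q)`: abelian, of exponent `q` (for `a ∈ A`,
`(a ^ q) ^ (m / q) = a ^ m = 1`), the quotient is abelian, generated by the images of `g`, and `hx` is
inherited.  `good_prime` for `G_q`: `value` of the images is the image of `value` (`map_list_prod`), so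
this decides `value g w ∈ A_q`.  If `value g w ∈ A_q` for all primes `q ∣ m` and `m ≥ 2`, then its order
divides all `m / q`, whose gcd is 1 (`m` squarefree), so it is 1.  `Good.forall_fin` over the list of
prime divisors (`Nat.primeFactorsList m` or `m.primeFactors`).  `m = 1`: `A` is trivial, use
`good_prime` with `p = 2`.
-/

set_option autoImplicit false

namespace Pool.Agent.WPM

universe u

theorem a13_value_map {G H : Type*} [Group G] [Group H] (f : G →* H) {r : ℕ} (g : Fin r → G)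
    (w : List (Letter r)) : value (fun i => f (g i)) w = f (value g w) := by
  unfold value
  rw [map_list_prod, List.map_map]
  refine congrArg List.prod (List.map_congr_left (fun l _ => ?_))
  rcases l with ⟨i, b⟩
  cases b <;> simp

theorem a13_component {G : Type u} [Group G] (m q : ℕ) (hq : q.Prime) (hqm : q ∣ m)
    (A : Subgroup G)
    [A.Normal] (hcomm : ∀ a ∈ A, ∀ b ∈ A, a * b = b * a) (hexp : ∀ a ∈ A, a ^ m = 1)
    (hquot : ∀ x y : G, x * y * x⁻¹ * y⁻¹ ∈ A) {r t : ℕ} (g : Fin r → G)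
    (hg : Subgroup.closure (Set.range g) = ⊤) (x : Fin t → G)
    (hx : ∀ h : G, ∃ k, 0 < k ∧ h ^ k ∈ Subgroup.closure (Set.range x) ⊔ A) :
    Good r t (fun w => value g w ∈ A ∧ value g w ^ (m / q) = 1) := by
  have hpf : Fact q.Prime := ⟨hq⟩
  let B : Subgroup G :=
    { carrier := {a | a ∈ A ∧ a ^ (m / q) = 1}
      one_mem' := ⟨A.one_mem, one_pow _⟩
      mul_mem' := by
        rintro a b ⟨ha, ha'⟩ ⟨hb, hb'⟩
        refine ⟨A.mul_mem ha hb, ?_⟩
        have hc : Commute a b := hcomm a ha b hb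
        rw [hc.mul_pow, ha', hb', one_mul]
      inv_mem' := by
        rintro a ⟨ha, ha'⟩
        exact ⟨A.inv_mem ha, by rw [inv_pow, ha', inv_one]⟩ }
  have hB : ∀ a, a ∈ B ↔ a ∈ A ∧ a ^ (m / q) = 1 := fun a => Iff.rfl
  have hBn : B.Normal := by
    refine ⟨fun a ha h => ?_⟩
    obtain ⟨h1, h2⟩ := (hB a).mp ha
    refine (hB _).mpr ⟨Subgroup.Normal.conj_mem inferInstance a h1 h, ?_⟩
    rw [conj_pow, h2, mul_one, mul_inv_cancel]
  let π : G →* G ⧸ B := QuotientGroup.mk' B
  have hπs : Function.Surjective π := QuotientGroup.mk'_surjective B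
  have hAn : (A.map π).Normal := Subgroup.Normal.map inferInstance π hπs
  have key : Good r t (fun w => value (fun i => π (g i)) w = 1) := by
    refine good_prime q (A.map π) ?_ ?_ ?_ (fun i => π (g i)) ?_ (fun i => π (x i)) ?_
    · rintro _ ⟨a, ha, rfl⟩ _ ⟨b, hb, rfl⟩
      rw [← map_mul, hcomm a ha b hb, map_mul]
    · rintro _ ⟨a, ha, rfl⟩
      rw [← map_pow]
      refine (QuotientGroup.eq_one_iff _).mpr ((hB _).mpr ⟨A.pow_mem ha _, ?_⟩)
      rw [← pow_mul, Nat.mul_div_cancel' hqm]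
      exact hexp a ha
    · intro a b
      obtain ⟨a, rfl⟩ := hπs a
      obtain ⟨b, rfl⟩ := hπs b
      exact ⟨a * b * a⁻¹ * b⁻¹, hquot a b, by simp⟩
    · have h1 : (Subgroup.closure (Set.range g)).map π = ⊤ := by
        rw [hg]
        exact Subgroup.map_top_of_surjective π hπs
      rw [MonoidHom.map_closure, ← Set.range_comp] at h1
      exact h1
    · intro h
      obtain ⟨h, rfl⟩ := hπs h
      obtain ⟨k, hk, hkx⟩ := hx h
      refine ⟨k, hk, ?_⟩
      have h1 : π (h ^ k) ∈ (Subgroup.closure (Set.range x) ⊔ A).map π := ⟨_, hkx, rfl⟩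
      rw [Subgroup.map_sup, MonoidHom.map_closure, ← Set.range_comp, map_pow] at h1
      exact h1
  refine key.iff (fun w => ?_)
  rw [a13_value_map]
  exact ((QuotientGroup.eq_one_iff (value g w)).trans (hB _)).symm

theorem good_squarefree {G : Type u} [Group G] (m : ℕ) (hm : Squarefree m) (A : Subgroup G)
    [A.Normal] (hcomm : ∀ a ∈ A, ∀ b ∈ A, a * b = b * a) (hexp : ∀ a ∈ A, a ^ m = 1)
    (hquot : ∀ x y : G, x * y * x⁻¹ * y⁻¹ ∈ A) {r t : ℕ} (g : Fin r → G)
    (hg : Subgroup.closure (Set.range g) = ⊤) (x : Fin t → G)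
    (hx : ∀ h : G, ∃ k, 0 < k ∧ h ^ k ∈ Subgroup.closure (Set.range x) ⊔ A) :
    Good r t (fun w => value g w = 1) := by
  classical
  by_cases h1 : m = 1
  · have hp2 : Fact (Nat.Prime 2) := ⟨Nat.prime_two⟩
    refine good_prime 2 A hcomm (fun a ha => ?_) hquot g hg x hx
    have := hexp a ha
    rw [h1, pow_one] at this
    rw [this, one_pow]
  · have hall : Good r t (fun w => ∀ i : Fin (m + 1), (i : ℕ).Prime → (i : ℕ) ∣ m →
        value g w ∈ A ∧ value g w ^ (m / (i : ℕ)) = 1) := by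
      refine Good.forall_fin (m + 1) _ (fun i => ?_)
      by_cases hi : (i : ℕ).Prime ∧ (i : ℕ) ∣ m
      · refine (a13_component m i hi.1 hi.2 A hcomm hexp hquot g hg x hx).iff (fun w => ?_)
        exact ⟨fun h => h hi.1 hi.2, fun h _ _ => h⟩
      · refine (Good.true r t).iff (fun w => ?_)
        exact ⟨fun _ => trivial, fun _ h2 h3 => absurd ⟨h2, h3⟩ hi⟩
    refine hall.iff (fun w => ⟨fun h i _ _ => ?_, fun h => ?_⟩)
    · rw [h, one_pow]
      exact ⟨A.one_mem, rfl⟩
    · have hm0 : m ≠ 0 := hm.ne_zero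
      have hpow : ∀ q : ℕ, q.Prime → q ∣ m → value g w ^ (m / q) = 1 := by
        intro q hq hqm
        have hlt : q < m + 1 := Nat.lt_succ_of_le (Nat.le_of_dvd (Nat.pos_of_ne_zero hm0) hqm)
        exact (h ⟨q, hlt⟩ hq hqm).2
      obtain ⟨q0, hq0, hq0m⟩ := Nat.exists_prime_and_dvd h1
      by_contra hne
      have ho : orderOf (value g w) ≠ 1 := by
        rwa [Ne, orderOf_eq_one_iff]
      obtain ⟨q, hq, hqo⟩ := Nat.exists_prime_and_dvd ho
      have hd0 : orderOf (value g w) ∣ m / q0 := orderOf_dvd_of_pow_eq_one (hpow q0 hq0 hq0m)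
      have hqm : q ∣ m := hqo.trans (hd0.trans (Nat.div_dvd_of_dvd hq0m))
      have hd : orderOf (value g w) ∣ m / q := orderOf_dvd_of_pow_eq_one (hpow q hq hqm)
      have hqq : q * q ∣ m := by
        obtain ⟨c, hc⟩ := hqo.trans hd
        refine ⟨c, ?_⟩
        have := Nat.mul_div_cancel' hqm
        rw [hc] at this
        rw [← this]
        ring
      have := hm q hqq
      rw [Nat.isUnit_iff] at this
      exact hq.one_lt.ne' this

end Pool.Agent.WPM
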