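import Pool.Agent.Lib.MP_2da099_lc.Defs
import Mathlib.Algebra.MonoidAlgebra.Basic
import Mathlib.GroupTheory.QuotientGroup.Basic
import Mathlib.Data.Fin.Basic

/-!
# Algebra: definitions
-/

set_option autoImplicit false

namespace Pool.Agent.WPM

/-- The group ring of `ℤ ^ r` over the prime field. -/
abbrev Lam (p r : ℕ) : Type := AddMonoidAlgebra (ZMod p) (Fin r → ℤ)

/-- The monomials. -/
noncomputable def mon {p r : ℕ} (v : Fin r → ℤ) : Lam p r := AddMonoidAlgebra.single v 1

/-- The product of the powers of the generators with given exponents. -/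
def gpow {G : Type*} [Group G] {r : ℕ} (g : Fin r → G) (v : Fin r → ℤ) : G :=
  ((List.finRange r).map (fun i => g i ^ v i)).prod

/-- The integer vector of a vector of digits. -/
def dz {q r : ℕ} (a : Fin r → Fin q) : Fin r → ℤ := fun i => ((a i : ℕ) : ℤ)

end Pool.Agent.WPM
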