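import Pool.Agent.Lib.MP_2da099_lc.Defs

/-!
# C01: the time calculus, basic rules
-/

set_option autoImplicit false

namespace Pool.Agent.WPM

open Pool.Agent.Lib.PolyTime Function

variable {α β γ δ : Type} [Enc α] [Enc β] [Enc γ] [Enc δ]

theorem CT.mono {f : α → β} {T T' : α → ℕ} (C : ℕ) (h : CT f T)
    (hT : ∀ a, T a ≤ C * (T' a + 1)) : CT f T' := by
  obtain ⟨K, _, _, P, k, C₁, h⟩ := h
  refine ⟨K, inferInstance, inferInstance, P, k, C₁ * (C + 1), fun a u => ?_⟩
  obtain ⟨t, h1, h2⟩ := h a u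
  refine ⟨t, h1.trans ?_, h2⟩
  rw [Nat.mul_assoc]
  refine Nat.mul_le_mul_left _ ?_
  have := hT a
  rw [Nat.add_mul, Nat.one_mul]
  omega

theorem CT.congr {f g : α → β} {T : α → ℕ} (h : CT f T) (hfg : ∀ a, f a = g a) : CT g T := by
  have : f = g := funext hfg
  rwa [← this]

theorem CT.of_enc_eq {f : α → β} (h : ∀ a, enc (f a) = enc a) : CT f (fun _ => 0) := by
  refine ⟨Unit, inferInstance, inferInstance, .skip, (), 1, fun a u => ⟨1, by omega, ?_⟩⟩
  have : code (f a) = code a := by simp only [code, h]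
  rw [this]
  exact .skip _

/-- A function with the same encodings of the values has the same cost. -/
theorem CT.congr_enc {f : α → β} {g : α → γ} {T : α → ℕ} (hg : CT g T)
    (h : ∀ a, enc (f a) = enc (g a)) : CT f T := by
  obtain ⟨K, _, _, P, k, C₁, hg⟩ := hg
  refine ⟨K, inferInstance, inferInstance, P, k, C₁, fun a u => ?_⟩
  have : code (f a) = code (g a) := by simp only [code, h]
  rw [this]
  exact hg a u

/-- Composition: the costs add up, there is no extra cost for the size of the data. -/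
theorem CT.comp {f : α → β} {g : β → γ} {T : α → ℕ} {T' : β → ℕ} (hg : CT g T') (hf : CT f T) :
    CT (fun a => g (f a)) (fun a => T a + T' (f a)) := by
  obtain ⟨K1, _, _, P1, k1, C1, h1⟩ := hf
  obtain ⟨K2, _, _, P2, k2, C2, h2⟩ := hg
  let e1 : K1 → Unit ⊕ (K1 ⊕ K2) := fun k => if k = k1 then Sum.inl () else Sum.inr (Sum.inl k)
  let e2 : K2 → Unit ⊕ (K1 ⊕ K2) := fun k => if k = k2 then Sum.inl () else Sum.inr (Sum.inr k)
  have he1 : Injective e1 := by
    intro a b hab
    by_cases ha : a = k1 <;> by_cases hb : b = k1 <;> simp_all [e1]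
  have he2 : Injective e2 := by
    intro a b hab
    by_cases ha : a = k2 <;> by_cases hb : b = k2 <;> simp_all [e2]
  have h1k : e1 k1 = Sum.inl () := by simp [e1]
  have h2k : e2 k2 = Sum.inl () := by simp [e2]
  refine ⟨Unit ⊕ (K1 ⊕ K2), inferInstance, inferInstance, .seq (P1.map e1) (P2.map e2),
    Sum.inl (), C1 + C2, fun a u => ?_⟩
  obtain ⟨t1, ht1, r1⟩ := h1 a u
  obtain ⟨t2, ht2, r2⟩ := h2 (f a) u
  have s1 := embed r1 e1 he1 (single (Sum.inl ()) (code a ++ u)) (by rw [h1k, single_self])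
    (fun k hk => single_ne (fun h => hk (he1 (h.trans h1k.symm))) _)
  rw [h1k, update_single] at s1
  have s2 := embed r2 e2 he2 (single (Sum.inl ()) (code (f a) ++ u)) (by rw [h2k, single_self])
    (fun k hk => single_ne (fun h => hk (he2 (h.trans h2k.symm))) _)
  rw [h2k, update_single] at s2
  refine ⟨t1 + t2, ?_, .seq s1 s2⟩
  have e : (C1 + C2) * (T a + T' (f a) + 1) =
      C1 * (T a + 1) + C2 * (T' (f a) + 1) + C1 * T' (f a) + C2 * T a := by ring
  show t1 + t2 ≤ (C1 + C2) * (T a + T' (f a) + 1)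
  omega

theorem CT.size_le {f : α → β} {T : α → ℕ} (h : CT f T) :
    ∃ C : ℕ, ∀ a, size (f a) ≤ size a + C * (T a + 1) := by
  obtain ⟨K, _, _, P, k, C₁, h⟩ := h
  refine ⟨C₁, fun a => ?_⟩
  obtain ⟨t, h1, h2⟩ := h a []
  have := h2.length_le k
  rw [single_self, single_self, List.append_nil, List.append_nil, length_code, length_code] at this
  omega

end Pool.Agent.WPM
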