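import Pool.Agent.Lib.MP_2da099_lc.Defs

/-!
# C02: functions on finite types have constant cost
-/

set_option autoImplicit false

namespace Pool.Agent.WPM

open Pool.Agent.Lib.PolyTime Function

/-- A decision tree which reads a code word from the stack and pushes its value. -/
noncomputable def c02_read (val : List Bool → Option (List Bool)) : ℕ → List Bool → Prog Unit
  | 0, w => match val w with
    | some v => pushList () v
    | none => .skip
  | N + 1, w => match val w with
    | some v => pushList () v
    | none => .ite () isT (.seq (.pop ()) (c02_read val N (w ++ [true])))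
        (.seq (.pop ()) (c02_read val N (w ++ [false])))

theorem c02_run {ι β : Type} [Enc ι] [Enc β] (F : ι → β) (val : List Bool → Option (List Bool))
    (hval : ∀ i : ι, val (code i) = some (code (F i)))
    (hval' : ∀ w, (∀ i : ι, code i ≠ w) → val w = none) (M : ℕ)
    (hM : ∀ i : ι, (code (F i)).length ≤ M) (i : ι) :
    ∀ (N : ℕ) (w v : List Bool), code i = w ++ v → v.length ≤ N → ∀ u : List Bool,
      ∃ t, t ≤ 2 * N + M + 1 ∧
        Run (c02_read val N w) (single () (v ++ u)) (single () (code (F i) ++ u)) t := by
  have key : ∀ (N : ℕ) (w : List Bool) (u : List Bool), code i = w →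
      ∃ t, t ≤ 2 * N + M + 1 ∧
        Run (c02_read val N w) (single () u) (single () (code (F i) ++ u)) t := by
    intro N w u hw
    have h1 := run_pushList (K := Unit) () (code (F i)) (single () u)
    rw [update_single, single_self] at h1
    refine ⟨(code (F i)).length + 1, ?_, ?_⟩
    · have := hM i
      omega
    · cases N with
      | zero =>
        unfold c02_read
        rw [← hw, hval i]
        exact h1
      | succ N =>
        unfold c02_read
        rw [← hw, hval i]
        exact h1
  intro N
  induction N with
  | zero =>
    intro w v hwv hv u
    have hv0 : v = [] := List.length_eq_zero_iff.1 (Nat.le_zero.1 hv)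
    subst hv0
    rw [List.append_nil] at hwv
    exact key 0 w u hwv
  | succ N ih =>
    intro w v hwv hv u
    cases v with
    | nil =>
      rw [List.append_nil] at hwv
      exact key (N + 1) w u hwv
    | cons b v =>
      have hnone : val w = none := by
        apply hval'
        intro j hj
        have h2 : (enc i).ser ++ [] = (enc j).ser ++ (b :: v) := by
          have h3 : code i = code j ++ (b :: v) := by rw [hj]; exact hwv
          rw [List.append_nil]
          exact h3
        have h4 := (BT.ser_append_inj h2).2
        exact absurd h4 (by simp)
      have hwv' : code i = (w ++ [b]) ++ v := by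
        rw [hwv]
        simp
      have hv' : v.length ≤ N := by
        simp only [List.length_cons] at hv
        omega
      obtain ⟨t, ht, hrun⟩ := ih (w ++ [b]) v hwv' hv' u
      have hpop : Run (.pop ()) (single () (b :: v ++ u)) (single () (v ++ u)) 1 := by
        have h5 := Run.pop () (single () (b :: v ++ u))
        rw [update_single, single_self] at h5
        exact h5
      have hseq := Run.seq hpop hrun
      refine ⟨1 + t + 1, by omega, ?_⟩
      unfold c02_read
      rw [hnone]
      cases b with
      | true => exact .iteT (by rw [single_self]; rfl) hseq
      | false => exact .iteF (by rw [single_self]; rfl) hseq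

theorem CT.fin {ι β : Type} [Enc ι] [Enc β] [Finite ι] (F : ι → β) : CT F (fun _ => 0) := by
  classical
  have : Fintype ι := Fintype.ofFinite ι
  let val : List Bool → Option (List Bool) := fun w =>
    if h : ∃ i : ι, code i = w then some (code (F h.choose)) else none
  have hval : ∀ i : ι, val (code i) = some (code (F i)) := by
    intro i
    have hex : ∃ j : ι, code j = code i := ⟨i, rfl⟩
    have h1 : hex.choose = i := code_injective ι hex.choose_spec
    simp only [val, dif_pos hex, h1]
  have hval' : ∀ w, (∀ i : ι, code i ≠ w) → val w = none := by
    intro w hw
    have hex : ¬ ∃ j : ι, code j = w := fun ⟨j, hj⟩ => hw j hj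
    simp only [val, dif_neg hex]
  let M : ℕ := Finset.univ.sup (fun i : ι => (code (F i)).length)
  let N : ℕ := Finset.univ.sup (fun i : ι => (code i).length)
  have hM : ∀ i : ι, (code (F i)).length ≤ M := fun i =>
    Finset.le_sup (f := fun i : ι => (code (F i)).length) (Finset.mem_univ i)
  have hN : ∀ i : ι, (code i).length ≤ N := fun i =>
    Finset.le_sup (f := fun i : ι => (code i).length) (Finset.mem_univ i)
  refine ⟨Unit, inferInstance, inferInstance, c02_read val N [], (), 2 * N + M + 1,
    fun i u => ?_⟩
  obtain ⟨t, ht, hrun⟩ := c02_run F val hval hval' M hM i N [] (code i) (by simp) (hN i) u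
  exact ⟨t, by simpa using ht, hrun⟩

end Pool.Agent.WPM
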