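import Pool.Agent.Lib.MP_2da099_lc.C01

/-!
# C07: zip in linear time
-/

set_option autoImplicit false

namespace Pool.Agent.WPM

open Pool.Agent.Lib.PolyTime Function

variable {α β : Type} [Enc α] [Enc β]

/-- Stacks: `0` main, `1` and `2` the lists, `3` the output (reversed), `4` auxiliary, `5` counter. -/
def c07_st (m a b o : List Bool) : St (Fin 6) := fun i => if i = 0 then m else if i = 1 then a
  else if i = 2 then b else if i = 3 then o else []

/-- One round. -/
def c07_round : Prog (Fin 6) :=
  .seq (.pop 1) (.seq (.pop 2) (.seq (.push 3 true) (.seq (.push 3 true)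
    (.seq (takeTree 1 3 5) (takeTree 2 3 5)))))

theorem c07_run_round (m : List Bool) (a : α) (b : β) (u v o : List Bool) :
    Run c07_round (c07_st m (true :: (code a ++ u)) (true :: (code b ++ v)) o)
      (c07_st m u v ((true :: (code (a, b))).reverse ++ o)) (5 * size a + 5 * size b + 8) := by
  have s1 := Run.pop (1 : Fin 6) (c07_st m (true :: (code a ++ u)) (true :: (code b ++ v)) o)
  have e1 : update (c07_st m (true :: (code a ++ u)) (true :: (code b ++ v)) o) 1
      (c07_st m (true :: (code a ++ u)) (true :: (code b ++ v)) o 1).tail =
      c07_st m (code a ++ u) (true :: (code b ++ v)) o := by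
    funext y
    fin_cases y <;> simp [c07_st, update]
  rw [e1] at s1
  have s2 := Run.pop (2 : Fin 6) (c07_st m (code a ++ u) (true :: (code b ++ v)) o)
  have e2 : update (c07_st m (code a ++ u) (true :: (code b ++ v)) o) 2
      (c07_st m (code a ++ u) (true :: (code b ++ v)) o 2).tail =
      c07_st m (code a ++ u) (code b ++ v) o := by
    funext y
    fin_cases y <;> simp [c07_st, update]
  rw [e2] at s2
  have s3 := Run.push (3 : Fin 6) true (c07_st m (code a ++ u) (code b ++ v) o)
  have e3 : update (c07_st m (code a ++ u) (code b ++ v) o) 3
      (true :: c07_st m (code a ++ u) (code b ++ v) o 3) =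
      c07_st m (code a ++ u) (code b ++ v) (true :: o) := by
    funext y
    fin_cases y <;> simp [c07_st, update]
  rw [e3] at s3
  have s4 := Run.push (3 : Fin 6) true (c07_st m (code a ++ u) (code b ++ v) (true :: o))
  have e4 : update (c07_st m (code a ++ u) (code b ++ v) (true :: o)) 3
      (true :: c07_st m (code a ++ u) (code b ++ v) (true :: o) 3) =
      c07_st m (code a ++ u) (code b ++ v) (true :: true :: o) := by
    funext y
    fin_cases y <;> simp [c07_st, update]
  rw [e4] at s4
  have s5 := run_takeTree (a := (1 : Fin 6)) (b := 3) (c := 5) (by decide) (by decide) (by decide)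
    (enc a) (c07_st m (code a ++ u) (code b ++ v) (true :: true :: o)) u rfl rfl
  have e5 : update (update (c07_st m (code a ++ u) (code b ++ v) (true :: true :: o)) 1 u) 3
      ((enc a).ser.reverse ++ c07_st m (code a ++ u) (code b ++ v) (true :: true :: o) 3) =
      c07_st m u (code b ++ v) ((code a).reverse ++ (true :: true :: o)) := by
    funext y
    fin_cases y <;> simp [c07_st, update, code]
  rw [e5] at s5
  have s6 := run_takeTree (a := (2 : Fin 6)) (b := 3) (c := 5) (by decide) (by decide) (by decide)
    (enc b) (c07_st m u (code b ++ v) ((code a).reverse ++ (true :: true :: o))) v rfl rfl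
  have e6 : update (update (c07_st m u (code b ++ v) ((code a).reverse ++ (true :: true :: o))) 2
      v) 3 ((enc b).ser.reverse ++ c07_st m u (code b ++ v)
        ((code a).reverse ++ (true :: true :: o)) 3) =
      c07_st m u v ((true :: (code (a, b))).reverse ++ o) := by
    funext y
    fin_cases y <;> simp [c07_st, update, code, BT.ser]
  rw [e6] at s6
  have h := Run.seq s1 (.seq s2 (.seq s3 (.seq s4 (.seq s5 s6))))
  have e : 1 + (1 + (1 + (1 + (5 * (enc a).size + 2 + (5 * (enc b).size + 2))))) =
      5 * size a + 5 * size b + 8 := by
    have h1 : (enc a).size = size a := rfl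
    have h2 : (enc b).size = size b := rfl
    rw [h1, h2]
    omega
  rw [e] at h
  exact h

/-- The loop. -/
def c07_loop : Prog (Fin 6) := .loop 1 isT (.ite 2 isT c07_round (clear 1))

theorem c07_run_loop (m : List Bool) : ∀ (l : List α) (l' : List β) (o : List Bool),
    ∃ (τ : ℕ) (w w' : List Bool), τ ≤ 20 * (size l + size l') ∧ w.length ≤ size l ∧
      w'.length ≤ size l' ∧
      Run c07_loop (c07_st m (code l) (code l') o)
        (c07_st m w w' ((code (l.zip l')).dropLast.reverse ++ o)) τ := by
  intro l
  induction l with
  | nil =>
    intro l' o
    refine ⟨1, code ([] : List α), code l', ?_, le_refl _, le_refl _, ?_⟩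
    · rw [size_nil]; omega
    have e : (code (([] : List α).zip l')).dropLast.reverse ++ o = o := by
      simp [code, BT.ser]
    rw [e]
    exact .loopF rfl
  | cons a l ih =>
    intro l' o
    cases l' with
    | nil =>
      have s1 := run_clear (1 : Fin 6) (code (a :: l)) (c07_st m (code (a :: l))
        (code ([] : List β)) o) rfl
      have e1 : update (c07_st m (code (a :: l)) (code ([] : List β)) o) 1 [] =
          c07_st m [] (code ([] : List β)) o := by
        funext y
        fin_cases y <;> simp [c07_st, update]
      rw [e1, length_code] at s1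
      have e : (code ((a :: l).zip ([] : List β))).dropLast.reverse ++ o = o := by
        simp [code, BT.ser]
      rw [e]
      refine ⟨_, [], code ([] : List β), ?_, by simp, le_refl _,
        .loopT (by rfl) (.iteF (by rfl) s1) (.loopF (by rfl))⟩
      rw [size_cons]
      omega
    | cons b l' =>
      obtain ⟨τ, w, w', hτ, hw, hw', h⟩ := ih l' ((true :: (code (a, b))).reverse ++ o)
      have s1 := c07_run_round m a b (code l) (code l') o
      have ea : true :: (code a ++ code l) = code (a :: l) := rfl
      have eb : true :: (code b ++ code l') = code (b :: l') := rfl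
      rw [ea, eb] at s1
      have e : (code ((a :: l).zip (b :: l'))).dropLast.reverse ++ o =
          (code (l.zip l')).dropLast.reverse ++ ((true :: (code (a, b))).reverse ++ o) := by
        rw [List.zip_cons_cons, code_cons]
        have hne : code (l.zip l') ≠ [] := by
          intro h0
          have := congrArg List.length h0
          rw [length_code] at this
          have := size_pos (l.zip l')
          simp at *
          omega
        rw [← List.cons_append, List.dropLast_append_of_ne_nil hne, List.reverse_append,
          List.append_assoc]
      rw [e]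
      refine ⟨_, w, w', ?_, ?_, ?_, .loopT (by rfl) (.iteT (by rfl) s1) h⟩
      · rw [size_cons, size_cons]
        omega
      · rw [size_cons]; omega
      · rw [size_cons]; omega

theorem CT.zip : CT (fun x : List α × List β => x.1.zip x.2)
    (fun x => size x.1 + size x.2) := by
  refine ⟨Fin 6, inferInstance, inferInstance,
    .seq (.pop 0) (.seq (takeTree 0 4 5) (.seq (mv 4 1) (.seq (takeTree 0 4 5) (.seq (mv 4 2)
      (.seq c07_loop (.seq (.push 3 false) (.seq (mv 3 0) (.seq (clear 1) (clear 2))))))))), 0,
    100, ?_⟩
  rintro ⟨l, l'⟩ u
  have s1 := Run.pop (0 : Fin 6) (single 0 (code (l, l') ++ u))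
  have e1 : update (single (0 : Fin 6) (code (l, l') ++ u)) 0
      (single (0 : Fin 6) (code (l, l') ++ u) 0).tail =
      c07_st (code l ++ (code l' ++ u)) [] [] [] := by
    funext y
    fin_cases y <;> simp [c07_st, single, update, code_prod]
  rw [e1] at s1
  have s2 := run_takeTree (a := (0 : Fin 6)) (b := 4) (c := 5) (by decide) (by decide) (by decide)
    (enc l) (c07_st (code l ++ (code l' ++ u)) [] [] []) (code l' ++ u) rfl rfl
  have s3 := run_mv (a := (4 : Fin 6)) (b := 1) (by decide) (code l).reverse
    (update (update (c07_st (code l ++ (code l' ++ u)) [] [] []) 0 (code l' ++ u)) 4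
      ((enc l).ser.reverse ++ c07_st (code l ++ (code l' ++ u)) [] [] [] 4)) (by
        rw [update_self]
        simp [c07_st, code])
  have e3 : update (update (update (update (c07_st (code l ++ (code l' ++ u)) [] [] []) 0
      (code l' ++ u)) 4 ((enc l).ser.reverse ++ c07_st (code l ++ (code l' ++ u)) [] [] [] 4)) 4
      []) 1 ((code l).reverse.reverse ++
        update (update (c07_st (code l ++ (code l' ++ u)) [] [] []) 0 (code l' ++ u)) 4
      ((enc l).ser.reverse ++ c07_st (code l ++ (code l' ++ u)) [] [] [] 4) 1) =
      c07_st (code l' ++ u) (code l) [] [] := by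
    funext y
    fin_cases y <;> simp [c07_st, update]
  rw [e3, List.length_reverse, length_code] at s3
  have s4 := run_takeTree (a := (0 : Fin 6)) (b := 4) (c := 5) (by decide) (by decide) (by decide)
    (enc l') (c07_st (code l' ++ u) (code l) [] []) u rfl rfl
  have s5 := run_mv (a := (4 : Fin 6)) (b := 2) (by decide) (code l').reverse
    (update (update (c07_st (code l' ++ u) (code l) [] []) 0 u) 4
      ((enc l').ser.reverse ++ c07_st (code l' ++ u) (code l) [] [] 4)) (by
        rw [update_self]
        simp [c07_st, code])
  have e5 : update (update (update (update (c07_st (code l' ++ u) (code l) [] []) 0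
      u) 4 ((enc l').ser.reverse ++ c07_st (code l' ++ u) (code l) [] [] 4)) 4
      []) 2 ((code l').reverse.reverse ++
        update (update (c07_st (code l' ++ u) (code l) [] []) 0 u) 4
      ((enc l').ser.reverse ++ c07_st (code l' ++ u) (code l) [] [] 4) 2) =
      c07_st u (code l) (code l') [] := by
    funext y
    fin_cases y <;> simp [c07_st, update]
  rw [e5, List.length_reverse, length_code] at s5
  obtain ⟨τ, w, w', hτ, hw, hw', s6⟩ := c07_run_loop u l l' []
  rw [List.append_nil] at s6
  have s7 := Run.push (3 : Fin 6) false (c07_st u w w' (code (l.zip l')).dropLast.reverse)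
  have hlast : (code (l.zip l')).dropLast ++ [false] = code (l.zip l') := by
    have key : ∀ z : List (α × β), (code z).dropLast ++ [false] = code z := by
      intro z
      induction z with
      | nil => simp [code, BT.ser]
      | cons x z ih =>
        rw [code_cons]
        have hne : code z ≠ [] := by
          intro h0
          have := congrArg List.length h0
          rw [length_code] at this
          have := size_pos z
          simp at *
          omega
        rw [← List.cons_append, List.dropLast_append_of_ne_nil hne, List.append_assoc, ih]
    exact key _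
  have e7 : update (c07_st u w w' (code (l.zip l')).dropLast.reverse) 3
      (false :: c07_st u w w' (code (l.zip l')).dropLast.reverse 3) =
      c07_st u w w' (code (l.zip l')).reverse := by
    have h0 : (code (l.zip l')).reverse = false :: (code (l.zip l')).dropLast.reverse := by
      conv_lhs => rw [← hlast]
      rw [List.reverse_append]
      rfl
    rw [h0]
    funext y
    fin_cases y <;> simp [c07_st, update]
  rw [e7] at s7
  have s8 := run_mv (a := (3 : Fin 6)) (b := 0) (by decide) (code (l.zip l')).reverse
    (c07_st u w w' (code (l.zip l')).reverse) rfl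
  have e8 : update (update (c07_st u w w' (code (l.zip l')).reverse) 3 []) 0
      ((code (l.zip l')).reverse.reverse ++ c07_st u w w' (code (l.zip l')).reverse 0) =
      c07_st (code (l.zip l') ++ u) w w' [] := by
    funext y
    fin_cases y <;> simp [c07_st, update]
  rw [e8, List.length_reverse, length_code] at s8
  have s9 := run_clear (1 : Fin 6) w (c07_st (code (l.zip l') ++ u) w w' []) rfl
  have e9 : update (c07_st (code (l.zip l') ++ u) w w' []) 1 [] =
      c07_st (code (l.zip l') ++ u) [] w' [] := by
    funext y
    fin_cases y <;> simp [c07_st, update]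
  rw [e9] at s9
  have s10 := run_clear (2 : Fin 6) w' (c07_st (code (l.zip l') ++ u) [] w' []) rfl
  have e10 : update (c07_st (code (l.zip l') ++ u) [] w' []) 2 [] =
      single 0 (code (l.zip l') ++ u) := by
    funext y
    fin_cases y <;> simp [c07_st, single, update]
  rw [e10] at s10
  refine ⟨_, ?_, .seq s1 (.seq s2 (.seq s3 (.seq s4 (.seq s5 (.seq s6 (.seq s7 (.seq s8
    (.seq s9 s10))))))))⟩
  have hz : size (l.zip l') ≤ size l + size l' := by
    clear s1 e1 s2 s3 e3 s4 s5 e5 s6 s7 hlast e7 s8 e8 s9 e9 s10 e10
    clear hτ hw hw'
    induction l generalizing l' with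
    | nil => simp
    | cons a l ih =>
      cases l' with
      | nil => simp
      | cons b l' =>
        rw [List.zip_cons_cons, size_cons, size_cons, size_cons, size_prod]
        have := ih l'
        simp only
        omega
  have ea : (enc l).size = size l := rfl
  have eb : (enc l').size = size l' := rfl
  show _ ≤ 100 * (size l + size l' + 1)
  rw [ea, eb]
  omega

end Pool.Agent.WPM
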