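import Pool.Agent.Lib.PolyTime.More
import Mathlib.Data.ZMod.Basic
import Mathlib.Data.Sign.Basic
import Mathlib.Data.Fintype.Pi
import Mathlib.Algebra.Field.ZMod
import Mathlib.Analysis.SpecialFunctions.Pow.Real

/-!
# Word problems of metabelian groups: definitions

`CT f T` : the function `f` is computed on the top of a stack, in time `O(T a + 1)`.
-/

set_option autoImplicit false

namespace Pool.Agent.WPM

open Pool.Agent.Lib.PolyTime

/-! ### Time calculus -/

/-- `CT f T`: some structured program computes `f` on the top of a stack (with an arbitrary content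
`u` below, which is not touched), in at most `C * (T a + 1)` steps on the input `a`. -/
def CT {α β : Type} [Enc α] [Enc β] (f : α → β) (T : α → ℕ) : Prop :=
  ∃ (K : Type) (_ : Fintype K) (_ : DecidableEq K) (P : Prog K) (k₀ : K) (C : ℕ),
    ∀ (a : α) (u : List Bool), ∃ t, t ≤ C * (T a + 1) ∧
      Run P (single k₀ (code a ++ u)) (single k₀ (code (f a) ++ u)) t

/-- The encoding of a finite type (by its elements in some order, in unary). -/
@[reducible] noncomputable def encFintype (α : Type) [Fintype α] : Enc α where
  enc a := encNat (Fintype.equivFin α a : Fin (Fintype.card α)).1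
  inj := by
    intro a b h
    have h1 := Enc.inj (α := ℕ) h
    exact (Fintype.equivFin α).injective (Fin.ext h1)

noncomputable instance encFin (n : ℕ) : Enc (Fin n) := encFintype _

noncomputable instance encPi {r : ℕ} {β : Type} [Fintype β] : Enc (Fin r → β) := encFintype _

noncomputable instance encZMod (p : ℕ) [NeZero p] : Enc (ZMod p) := encFintype _

/-- Cost of a fold: the sum of the costs of the steps, at the states that really occur. -/
def foldCost {α σ : Type} (T : α × σ → ℕ) (step : α × σ → σ) : List α → σ → ℕ
  | [], _ => 0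
  | a :: l, s => T (a, s) + foldCost T step l (step (a, s))

/-- A finite state transducer. -/
def trans {α β σ : Type} (f : σ → α → σ × β) : σ → List α → List β
  | _, [] => []
  | s, a :: l => (f s a).2 :: trans f (f s a).1 l

/-- The maximal length of the rows. -/
def mxl {α : Type} (rows : List (List α)) : ℕ := (rows.map List.length).foldr max 0

/-! ### The objects of the algorithm -/

/-- Vectors of signs. -/
abbrev Sg (r : ℕ) : Type := Fin r → SignType

/-- Vectors over the prime field. -/
abbrev Vec (p e : ℕ) : Type := Fin e → ZMod p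

/-- Letters: `(i, true)` is the generator `i`, `(i, false)` its inverse. -/
abbrev Letter (r : ℕ) : Type := Fin r × Bool

/-- Annotations: digits, offset of the block number, increment at the start of a block. -/
abbrev Ann (q r : ℕ) : Type := (Fin r → Fin q) × (Sg r × Option (Sg r))

/-- States of the annotation transducer: number of items in the current block, digits, offset. -/
abbrev ASt (q r : ℕ) : Type := Fin (q + 1) × ((Fin r → Fin q) × Sg r)

/-- The integer vector of a vector of signs. -/
def sz {r : ℕ} (δ : Sg r) : Fin r → ℤ := fun i => (δ i : ℤ)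

/-- Quotients by `q`. -/
def fl {r : ℕ} (q : ℕ) (c : Fin r → ℤ) : Fin r → ℤ := fun i => c i / (q : ℤ)

/-- Residues modulo `q`. -/
def md {r : ℕ} (q : ℕ) [NeZero q] (c : Fin r → ℤ) : Fin r → Fin q :=
  fun i => Fin.ofNat q (c i % (q : ℤ)).toNat

/-- New digit. -/
def dig (q : ℕ) [NeZero q] (x : Fin q) (s : SignType) : Fin q :=
  Fin.ofNat q ((((x : ℕ) : ℤ) + (s : ℤ)) % (q : ℤ)).toNat

/-- Carry. -/
noncomputable def car (q : ℕ) (x : Fin q) (s : SignType) : SignType :=
  SignType.sign ((((x : ℕ) : ℤ) + (s : ℤ)) / (q : ℤ))

/-- One step of the annotation transducer. -/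
noncomputable def annStep (q r : ℕ) [NeZero q] (st : ASt q r) (Δ : Sg r) : ASt q r × Ann q r :=
  let a : Fin r → Fin q := fun i => dig q (st.2.1 i) (Δ i)
  let δ : Sg r := fun i => SignType.sign ((st.2.2 i : ℤ) + (car q (st.2.1 i) (Δ i) : ℤ))
  if st.1.1 = q then ((Fin.ofNat (q + 1) 1, (a, fun _ => 0)), (a, (fun _ => 0, some δ)))
  else ((Fin.ofNat (q + 1) (st.1.1 + 1), (a, δ)), (a, (δ, none)))

/-- The annotations of a list of increments. -/
noncomputable def ann (q r : ℕ) [NeZero q] (Δs : List (Sg r)) : List (Ann q r) :=
  trans (annStep q r) (Fin.last q, (fun _ => Fin.ofNat q 0, fun _ => 0)) Δs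

/-- The increments of the block numbers. -/
def nxt {q r : ℕ} (l : List (Ann q r)) : List (Sg r) := l.filterMap (fun y => y.2.2)

/-- Sums over the blocks. -/
def brow {q r p e : ℕ} {X : Type} (h : Ann q r → X → Vec p e) (l : List (Ann q r × X)) :
    List (Vec p e) :=
  (l.foldr (fun y s => if y.1.2.2.isSome then (0, (h y.1 y.2 + s.1) :: s.2)
    else (h y.1 y.2 + s.1, s.2)) ((0 : Vec p e), ([] : List (Vec p e)))).2

open Classical in
/-- The multiplier which kills a nonzero coordinate of `y` in `x`. -/
noncomputable def coef {p e : ℕ} (x y : Vec p e) : ZMod p :=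
  if h : ∃ i, y i ≠ 0 then x h.choose * (y h.choose)⁻¹ else 0

open Classical in
/-- One step of the reduction of a row by another row. -/
noncomputable def redStep {p e : ℕ} (s : Option (ZMod p)) (x : Vec p e × Vec p e) :
    Option (ZMod p) × Vec p e :=
  match s with
  | none => if x.2 = 0 then (none, x.1)
      else (some (coef x.1 x.2), x.1 - coef x.1 x.2 • x.2)
  | some c => (some c, x.1 - c • x.2)

/-- The reduction of the row `r` by the row `b`. -/
noncomputable def red {p e : ℕ} (r b : List (Vec p e)) : List (Vec p e) :=
  trans redStep none (r.zip b)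

/-- The reduction of the row `r` by all rows of a list. -/
noncomputable def redAll {p e : ℕ} (r : List (Vec p e)) (B : List (List (Vec p e))) :
    List (Vec p e) := B.foldl red r

open Classical in
/-- Test whether a row is zero. -/
noncomputable def isZ {p e : ℕ} (r : List (Vec p e)) : Bool := r.all (fun v => decide (v = 0))

/-- Insertion of a row in a list of reduced rows. -/
noncomputable def ins {p e : ℕ} (B : List (List (Vec p e))) (v : List (Vec p e)) :
    List (List (Vec p e)) := if isZ (redAll v B) then B else B ++ [redAll v B]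

/-- Removal of superfluous rows. -/
noncomputable def prune {p e : ℕ} (vs : List (List (Vec p e))) : List (List (Vec p e)) :=
  vs.foldl ins []

/-- The finite data of the algorithm. -/
structure Data (p r : ℕ) where
  /-- modulus of the first step -/
  q : ℕ
  hq : NeZero q
  /-- dimension of the space of coefficients -/
  e : ℕ
  /-- number of digits -/
  d : ℕ
  /-- number of initial rows -/
  s : ℕ
  /-- the step map -/
  step : (Fin r → Fin p) → Sg r → Fin d → Vec p e → Vec p e
  /-- the initial coefficients -/
  init : (Fin r → Fin q) → Sg r → Letter r → Fin s → Vec p e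

attribute [instance] Data.hq

section

variable {p r : ℕ} [NeZero p]

/-- The rows of the next level, before pruning. -/
noncomputable def news (D : Data p r) (an : List (Ann p r)) (rows : List (List (Vec p D.e))) :
    List (List (Vec p D.e)) :=
  rows.flatMap (fun row => (List.finRange D.d).map
    (fun j => brow (fun y u => D.step y.1 y.2.1 j u) (an.zip row)))

/-- One level. -/
noncomputable def level (D : Data p r) (x : List (Sg r) × List (List (Vec p D.e))) :
    List (Sg r) × List (List (Vec p D.e)) :=
  (nxt (ann p r x.1), prune (news D (ann p r x.1) x.2))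

/-- The sign vector of a letter. -/
def sgl {r : ℕ} (l : Letter r) : Sg r := fun i => if i = l.1 then (if l.2 then 1 else -1) else 0

/-- The increments of the positions before the letters of a word. -/
def incr {r : ℕ} (w : List (Letter r)) : List (Sg r) :=
  trans (fun (s : Sg r) (l : Letter r) => (sgl l, s)) (fun _ => 0) w

/-- The initial state. -/
noncomputable def start (D : Data p r) (w : List (Letter r)) :
    List (Sg r) × List (List (Vec p D.e)) :=
  (nxt (ann D.q r (incr w)), (List.finRange D.s).map
    (fun j => brow (fun y l => D.init y.1 y.2.1 l j) ((ann D.q r (incr w)).zip w)))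

/-- The final test. -/
noncomputable def finish {p e r : ℕ} (x : List (Sg r) × List (List (Vec p e))) : Bool :=
  x.2.all isZ

/-- The decision procedure. -/
noncomputable def decide' (D : Data p r) (w : List (Letter r)) : Bool :=
  finish (w.foldl (fun x _ => level D x) (start D w))

/-! ### Semantics -/

/-- The letters of a word with the positions before them. -/
def posl {r : ℕ} : (Fin r → ℤ) → List (Letter r) → List ((Fin r → ℤ) × Letter r)
  | _, [] => []
  | c, l :: w => (c, l) :: posl (c + sz (sgl l)) w

/-- The positions given by increments. -/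
def posd {r : ℕ} : (Fin r → ℤ) → List (Sg r) → List (Fin r → ℤ)
  | _, [] => []
  | c, Δ :: l => (c + sz Δ) :: posd (c + sz Δ) l

/-- The value of a row. -/
def val {r p e : ℕ} {K : Type} [AddCommGroup K] (V : (Fin r → ℤ) → Vec p e →+ K)
    (cs : List (Fin r → ℤ)) (row : List (Vec p e)) : K :=
  (List.zipWith (fun c u => V c u) cs row).sum

/-- The data `D` decide the predicate `Z` on words. -/
def Data.Sound (D : Data p r) (Z : List (Letter r) → Prop) : Prop :=
  ∃ (K : Type) (_ : AddCommGroup K) (V : (Fin r → ℤ) → Vec p D.e →+ K),
    (∀ c, Function.Injective (V c)) ∧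
    (∀ (c : Fin r → ℤ) (δ : Sg r) (a : Fin r → Fin p) (j : Fin D.d) (u : Vec p D.e),
      V (c + sz δ) (D.step a (fun _ => 0) j u) = V c (D.step a δ j u)) ∧
    (∀ l : List ((Fin r → ℤ) × Vec p D.e), (l.map (fun x => V x.1 x.2)).sum = 0 ↔
      ∀ j, (l.map (fun x => V (fl p x.1) (D.step (md p x.1) (fun _ => 0) j x.2))).sum = 0) ∧
    (∀ (c : Fin r → ℤ) (δ : Sg r) (a : Fin r → Fin D.q) (l : Letter r) (j : Fin D.s),
      V (c + sz δ) (D.init a (fun _ => 0) l j) = V c (D.init a δ l j)) ∧
    (∀ w, Z w ↔ ∀ j, ((posl 0 w).map
      (fun x => V (fl D.q x.1) (D.init (md D.q x.1) (fun _ => 0) x.2 j))).sum = 0)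

end

/-- The exponent of the running time. -/
noncomputable def expo (t : ℕ) : ℝ := max 1 (3 * (t : ℝ) / ((t : ℝ) + 1))

/-- The predicate `Z` on words is decided in time `O(n ^ expo t)`. -/
def Good (r t : ℕ) (Z : List (Letter r) → Prop) : Prop :=
  ∃ (f : List (Letter r) → Bool) (T : List (Letter r) → ℕ) (C : ℝ), CT f T ∧
    (∀ w, f w = true ↔ Z w) ∧ ∀ w, (T w : ℝ) ≤ C * ((w.length : ℝ) + 1) ^ expo t

/-- The value of a word in a group. -/
def value {G : Type*} [Group G] {r : ℕ} (g : Fin r → G) (w : List (Letter r)) : G :=
  (w.map (fun l => if l.2 then g l.1 else (g l.1)⁻¹)).prod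

end Pool.Agent.WPM
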