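import Pool.Agent.Lib.MP_2da099_lc.Defs

/-!
# F01: the sum of the costs of the levels

HINTS (pure real analysis).
* `min_sum`: split at the largest `k1` with `p ^ k1 ≤ y` (if `y < 1` there is none): the terms with
  `p ^ k ≤ y` are at most `p ^ k / y`, sum `≤ 2` (geometric, `p ≥ 2`), the terms with `p ^ k > y` are at
  most `y / p ^ k`, sum `≤ 2`.  An induction-free way: `min (p^k / y) (y / p^k) ≤ 2 ^ (-|k - k1|)`.
* `term_bound`: with `X = p ^ k`, `Y = n / X + 1`: `N k ≤ n / X + 1 = Y` (induction from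
  `N (k+1) ≤ (N k + p - 1) / p`, that is `N k ≤ n / p ^ k + 1` in reals; better `N k ≤ ⌈n / p ^ k⌉`),
  `R k ≤ s * d ^ k ≤ s * X ^ t`, and `R k ≤ e * Y` for `k ≥ 1`, `R 0 ≤ s`.  So with
  `m = min (X ^ t) Y ≥ 1`, `R k ≤ (s + e + 1) * m`, `R (k+1) ≤ d * R k`, `N (k+1) ≤ N k + 1`, every
  term of the sum is at most `C * m ^ 2 * Y`.
* Sum of `m ^ 2 * Y` over `k < n`: if `X > n` then `Y < 2`, `m < 2`, the term is at most 8 (at most `n`
  such `k`).  If `X ≤ n` then `Y ≤ 2 n / X`.  For `t = 0`: `m = 1`, the sum of `2 n / X` is `≤ 4 n`.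
  For `t ≥ 1` let `y > 0` with `y ^ (t + 1) = 2 n` (`Real.rpow`): `m ^ 2 * Y ≤ min (X ^ t, 2n/X) ^ 2 *
  (2n/X)`, which is `(2n) ^ (3t/(t+1)) * (X/y) ^ (2t-1)` if `X ≤ y` and `(2n) ^ (3t/(t+1)) * (y/X) ^ 3`
  if `X ≥ y` (note `(2n) ^ (3t/(t+1)) = y ^ (3t)`), in both cases at most
  `(2n) ^ (3t/(t+1)) * min (X/y) (y/X)`.  Now `min_sum`.
-/

set_option autoImplicit false

namespace Pool.Agent.WPM

open Classical in
/-- a potential -/
noncomputable def f01_phi (x : ℝ) : ℝ := if x ≤ 1 then x else 4 - 2 / x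

theorem f01_phi_le {x : ℝ} (hx : 0 < x) : f01_phi x ≤ 4 := by
  unfold f01_phi
  split_ifs with h
  · linarith
  · have : 0 < 2 / x := by positivity
    linarith

theorem f01_phi_nonneg {x : ℝ} (hx : 0 < x) : 0 ≤ f01_phi x := by
  unfold f01_phi
  split_ifs with h
  · exact hx.le
  · push Not at h
    have : 2 / x ≤ 2 := by
      rw [div_le_iff₀ hx]
      linarith
    linarith

theorem f01_phi_step {p x : ℝ} (hp : 2 ≤ p) (hx : 0 < x) :
    min x (1 / x) ≤ f01_phi (p * x) - f01_phi x := by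
  have hpx : 0 < p * x := by positivity
  unfold f01_phi
  by_cases h1 : x ≤ 1
  · rw [if_pos h1]
    by_cases h2 : p * x ≤ 1
    · rw [if_pos h2]
      refine (min_le_left _ _).trans ?_
      nlinarith
    · rw [if_neg h2]
      push Not at h2
      refine (min_le_left _ _).trans ?_
      have : 2 / (p * x) ≤ 2 := by
        rw [div_le_iff₀ hpx]
        linarith
      linarith
  · rw [if_neg h1]
    push Not at h1
    have h2 : ¬ p * x ≤ 1 := by
      push Not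
      nlinarith
    rw [if_neg h2]
    refine (min_le_right _ _).trans ?_
    have h3 : 2 / (p * x) ≤ 1 / x := by
      rw [div_le_div_iff₀ hpx hx]
      nlinarith
    have h4 : 2 / x = 1 / x + 1 / x := by ring
    linarith

theorem min_sum (p : ℕ) (hp : 2 ≤ p) (y : ℝ) (hy : 0 < y) (n : ℕ) :
    ∑ k ∈ Finset.range n, min ((p : ℝ) ^ k / y) (y / (p : ℝ) ^ k) ≤ 4 := by
  have hp' : (2 : ℝ) ≤ p := by exact_mod_cast hp
  have hp0 : (0 : ℝ) < p := by linarith
  have key : ∀ n : ℕ, ∑ k ∈ Finset.range n, min ((p : ℝ) ^ k / y) (y / (p : ℝ) ^ k) ≤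
      f01_phi ((p : ℝ) ^ n / y) - f01_phi ((p : ℝ) ^ 0 / y) := by
    intro n
    induction n with
    | zero => simp
    | succ n ih =>
      rw [Finset.sum_range_succ]
      have hx : 0 < (p : ℝ) ^ n / y := by positivity
      have h1 := f01_phi_step hp' hx
      have h2 : 1 / ((p : ℝ) ^ n / y) = y / (p : ℝ) ^ n := by rw [one_div_div]
      have h3 : (p : ℝ) * ((p : ℝ) ^ n / y) = (p : ℝ) ^ (n + 1) / y := by
        rw [pow_succ]
        ring
      rw [h2, h3] at h1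
      linarith
  have h1 := key n
  have h2 := f01_phi_le (x := (p : ℝ) ^ n / y) (by positivity)
  have h3 := f01_phi_nonneg (x := (p : ℝ) ^ 0 / y) (by positivity)
  linarith

theorem f01_geo (p : ℕ) (hp : 2 ≤ p) (n : ℕ) :
    ∑ k ∈ Finset.range n, 1 / (p : ℝ) ^ k ≤ 2 := by
  have hp' : (2 : ℝ) ≤ p := by exact_mod_cast hp
  have hp0 : (0 : ℝ) < p := by linarith
  have key : ∀ n : ℕ, ∑ k ∈ Finset.range n, 1 / (p : ℝ) ^ k ≤ 2 - 2 / (p : ℝ) ^ n := by
    intro n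
    induction n with
    | zero => simp
    | succ n ih =>
      rw [Finset.sum_range_succ]
      have hx : 0 < (p : ℝ) ^ n := by positivity
      have h1 : 2 / (p : ℝ) ^ (n + 1) ≤ 1 / (p : ℝ) ^ n := by
        rw [div_le_div_iff₀ (by positivity) hx, pow_succ]
        nlinarith
      have h2 : 2 / (p : ℝ) ^ n = 1 / (p : ℝ) ^ n + 1 / (p : ℝ) ^ n := by ring
      linarith
  have h1 := key n
  have h2 : 0 < 2 / (p : ℝ) ^ n := by positivity
  linarith

theorem f01_A (u : ℕ) (n X y : ℝ) (hn : 1 ≤ n) (hX : 1 ≤ X) (hy : 0 < y)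
    (hyt : y ^ (u + 2) = 2 * n) :
    (min (X ^ (u + 1)) (n / X + 1)) ^ 2 * (n / X + 1) ≤
      8 + y ^ (3 * (u + 1)) * min (X / y) (y / X) := by
  have hX0 : 0 < X := by linarith
  have hn0 : 0 < n := by linarith
  have hY : 0 < n / X + 1 := by positivity
  have hm0 : 0 ≤ min (X ^ (u + 1)) (n / X + 1) := by positivity
  have hr : 0 ≤ y ^ (3 * (u + 1)) * min (X / y) (y / X) := by positivity
  rcases lt_or_ge n X with h | h
  · have h1 : n / X + 1 ≤ 2 := by
      have : n / X ≤ 1 := by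
        rw [div_le_iff₀ hX0]
        linarith
      linarith
    have h2 : min (X ^ (u + 1)) (n / X + 1) ≤ 2 := (min_le_right _ _).trans h1
    have h3 : (min (X ^ (u + 1)) (n / X + 1)) ^ 2 ≤ 2 ^ 2 := pow_le_pow_left₀ hm0 h2 2
    have h4 : (min (X ^ (u + 1)) (n / X + 1)) ^ 2 * (n / X + 1) ≤ 2 ^ 2 * 2 :=
      mul_le_mul h3 h1 hY.le (by norm_num)
    linarith
  · have hZ : n / X + 1 ≤ y ^ (u + 2) / X := by
      rw [hyt]
      have : 1 ≤ n / X := by
        rw [le_div_iff₀ hX0]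
        linarith
      have h2 : 2 * n / X = n / X + n / X := by ring
      linarith
    have hZ0 : 0 < y ^ (u + 2) / X := by positivity
    rcases le_total X y with h1 | h1
    · have h2 : min (X / y) (y / X) = X / y := by
        apply min_eq_left
        rw [div_le_div_iff₀ hy hX0]
        exact mul_self_le_mul_self hX0.le h1
      rw [h2]
      have h3 : (min (X ^ (u + 1)) (n / X + 1)) ^ 2 ≤ (X ^ (u + 1)) ^ 2 :=
        pow_le_pow_left₀ hm0 (min_le_left _ _) 2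
      have h4 : (min (X ^ (u + 1)) (n / X + 1)) ^ 2 * (n / X + 1) ≤
          (X ^ (u + 1)) ^ 2 * (y ^ (u + 2) / X) :=
        mul_le_mul h3 hZ hY.le (by positivity)
      have h5 : (X ^ (u + 1)) ^ 2 * (y ^ (u + 2) / X) = X ^ (2 * u) * (X * y ^ (u + 2)) := by
        field_simp
        ring
      have h6 : y ^ (3 * (u + 1)) * (X / y) = y ^ (2 * u) * (X * y ^ (u + 2)) := by
        field_simp
        ring
      have h7 : X ^ (2 * u) ≤ y ^ (2 * u) := pow_le_pow_left₀ hX0.le h1 _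
      have h8 : X ^ (2 * u) * (X * y ^ (u + 2)) ≤ y ^ (2 * u) * (X * y ^ (u + 2)) :=
        mul_le_mul_of_nonneg_right h7 (by positivity)
      linarith
    · have h2 : min (X / y) (y / X) = y / X := by
        apply min_eq_right
        rw [div_le_div_iff₀ hX0 hy]
        exact mul_self_le_mul_self hy.le h1
      rw [h2]
      have h3 : (min (X ^ (u + 1)) (n / X + 1)) ^ 2 ≤ (y ^ (u + 2) / X) ^ 2 :=
        pow_le_pow_left₀ hm0 ((min_le_right _ _).trans hZ) 2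
      have h4 : (min (X ^ (u + 1)) (n / X + 1)) ^ 2 * (n / X + 1) ≤
          (y ^ (u + 2) / X) ^ 2 * (y ^ (u + 2) / X) :=
        mul_le_mul h3 hZ hY.le (by positivity)
      have h5 : (y ^ (u + 2) / X) ^ 2 * (y ^ (u + 2) / X) =
          y ^ 2 * (y ^ (3 * (u + 1)) * (y / X) / X ^ 2) := by
        field_simp
        ring
      have h6 : y ^ 2 * (y ^ (3 * (u + 1)) * (y / X) / X ^ 2) ≤
          X ^ 2 * (y ^ (3 * (u + 1)) * (y / X) / X ^ 2) :=
        mul_le_mul_of_nonneg_right (pow_le_pow_left₀ hy.le h1 2) (by positivity)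
      have h7 : X ^ 2 * (y ^ (3 * (u + 1)) * (y / X) / X ^ 2) = y ^ (3 * (u + 1)) * (y / X) := by
        field_simp
      linarith

theorem f01_sum (p t : ℕ) (hp : 2 ≤ p) (n : ℕ) :
    ∑ k ∈ Finset.range n, (min (((p : ℝ) ^ k) ^ t) ((n : ℝ) / (p : ℝ) ^ k + 1)) ^ 2 *
      ((n : ℝ) / (p : ℝ) ^ k + 1) ≤ 40 * ((n : ℝ) + 1) ^ expo t := by
  have hp' : (2 : ℝ) ≤ p := by exact_mod_cast hp
  have hp0 : (0 : ℝ) < p := by linarith
  rcases Nat.eq_zero_or_pos n with rfl | hn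
  · simp
  have hn1 : (1 : ℝ) ≤ n := by exact_mod_cast hn
  have hX : ∀ k : ℕ, 1 ≤ (p : ℝ) ^ k := fun k => one_le_pow₀ (by linarith)
  have hb1 : (1 : ℝ) ≤ (n : ℝ) + 1 := by linarith
  have he1 : (1 : ℝ) ≤ expo t := le_max_left _ _
  have hlin : (n : ℝ) ≤ ((n : ℝ) + 1) ^ expo t := by
    have h1 : ((n : ℝ) + 1) ^ (1 : ℝ) ≤ ((n : ℝ) + 1) ^ expo t :=
      Real.rpow_le_rpow_of_exponent_le hb1 he1
    rw [Real.rpow_one] at h1
    linarith
  rcases Nat.eq_zero_or_pos t with rfl | ht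
  · have h1 : ∀ k ∈ Finset.range n, (min (((p : ℝ) ^ k) ^ 0) ((n : ℝ) / (p : ℝ) ^ k + 1)) ^ 2 *
        ((n : ℝ) / (p : ℝ) ^ k + 1) ≤ (n : ℝ) * (1 / (p : ℝ) ^ k) + 1 := by
      intro k _
      have h2 : min (((p : ℝ) ^ k) ^ 0) ((n : ℝ) / (p : ℝ) ^ k + 1) = 1 := by
        rw [pow_zero]
        apply min_eq_left
        have : 0 < (n : ℝ) / (p : ℝ) ^ k := by positivity
        linarith
      rw [h2, one_pow, one_mul]
      apply le_of_eq
      ring
    refine (Finset.sum_le_sum h1).trans ?_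
    rw [Finset.sum_add_distrib, ← Finset.mul_sum, Finset.sum_const, Finset.card_range,
      nsmul_eq_mul, mul_one]
    have h2 := f01_geo p hp n
    have h3 : (n : ℝ) * ∑ k ∈ Finset.range n, 1 / (p : ℝ) ^ k ≤ n * 2 :=
      mul_le_mul_of_nonneg_left h2 (by linarith)
    linarith
  · obtain ⟨u, rfl⟩ : ∃ u, t = u + 1 := ⟨t - 1, by omega⟩
    set y : ℝ := (2 * (n : ℝ)) ^ (1 / ((u : ℝ) + 2)) with hy
    have h2n : (0 : ℝ) < 2 * n := by linarith
    have hy0 : 0 < y := Real.rpow_pos_of_pos h2n _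
    have hu0 : (0 : ℝ) < (u : ℝ) + 2 := by positivity
    have hyt : y ^ (u + 2) = 2 * (n : ℝ) := by
      rw [hy, ← Real.rpow_natCast, ← Real.rpow_mul h2n.le]
      have : 1 / ((u : ℝ) + 2) * ((u + 2 : ℕ) : ℝ) = 1 := by
        push_cast
        field_simp
      rw [this, Real.rpow_one]
    have hyy : y ^ (3 * (u + 1)) ≤ 8 * ((n : ℝ) + 1) ^ expo (u + 1) := by
      have h1 : y ^ (3 * (u + 1)) = (2 * (n : ℝ)) ^ (3 * ((u : ℝ) + 1) / ((u : ℝ) + 2)) := by
        rw [hy, ← Real.rpow_natCast, ← Real.rpow_mul h2n.le]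
        congr 1
        push_cast
        field_simp
      have h2 : 3 * ((u : ℝ) + 1) / ((u : ℝ) + 2) ≤ expo (u + 1) := by
        unfold expo
        refine le_trans (le_of_eq ?_) (le_max_right _ _)
        push_cast
        congr 1
        ring
      have h3 : 3 * ((u : ℝ) + 1) / ((u : ℝ) + 2) ≤ 3 := by
        rw [div_le_iff₀ hu0]
        linarith
      rw [h1, Real.mul_rpow (by norm_num) (by linarith)]
      have h4 : (2 : ℝ) ^ (3 * ((u : ℝ) + 1) / ((u : ℝ) + 2)) ≤ 8 := by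
        have := Real.rpow_le_rpow_of_exponent_le (x := 2) (by norm_num) h3
        have h5 : (2 : ℝ) ^ (3 : ℝ) = 8 := by norm_num
        rwa [h5] at this
      have h5 : (n : ℝ) ^ (3 * ((u : ℝ) + 1) / ((u : ℝ) + 2)) ≤ ((n : ℝ) + 1) ^ expo (u + 1) := by
        refine (Real.rpow_le_rpow_of_exponent_le hn1 h2).trans ?_
        exact Real.rpow_le_rpow (by linarith) (by linarith) (by linarith)
      exact mul_le_mul h4 h5 (by positivity) (by norm_num)
    have h1 : ∀ k ∈ Finset.range n,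
        (min (((p : ℝ) ^ k) ^ (u + 1)) ((n : ℝ) / (p : ℝ) ^ k + 1)) ^ 2 *
        ((n : ℝ) / (p : ℝ) ^ k + 1) ≤
        8 + y ^ (3 * (u + 1)) * min ((p : ℝ) ^ k / y) (y / (p : ℝ) ^ k) := fun k _ =>
      f01_A u n ((p : ℝ) ^ k) y hn1 (hX k) hy0 hyt
    refine (Finset.sum_le_sum h1).trans ?_
    rw [Finset.sum_add_distrib, ← Finset.mul_sum, Finset.sum_const, Finset.card_range,
      nsmul_eq_mul]
    have h2 := min_sum p hp y hy0 n
    have h3 : y ^ (3 * (u + 1)) * ∑ k ∈ Finset.range n, min ((p : ℝ) ^ k / y) (y / (p : ℝ) ^ k) ≤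
        y ^ (3 * (u + 1)) * 4 := mul_le_mul_of_nonneg_left h2 (by positivity)
    linarith

theorem f01_term (a d x x' z z' m Y : ℝ) (ha : 0 ≤ a) (hd : 0 ≤ d) (hx : 0 ≤ x) (hx' : 0 ≤ x')
    (hz : 0 ≤ z) (hz' : 0 ≤ z') (hm : 1 ≤ m) (hY : 1 ≤ Y) (h1 : x ≤ a * m) (h2 : x' ≤ d * x)
    (h3 : z ≤ Y) (h4 : z' ≤ Y) :
    (x + 1) * (2 * z + 1) + (d * x + 1) * ((x' + 1) * (z' + 1)) ≤
      (3 * (a + 1) + 2 * (d * a + 1) ^ 2) * (m ^ 2 * Y) := by
  have e1 : x + 1 ≤ (a + 1) * m := by linarith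
  have e2 : 2 * z + 1 ≤ 3 * Y := by linarith
  have hdx : d * x ≤ d * (a * m) := mul_le_mul_of_nonneg_left h1 hd
  have e3 : d * x + 1 ≤ (d * a + 1) * m := by linarith
  have e4 : x' + 1 ≤ (d * a + 1) * m := by linarith
  have e5 : z' + 1 ≤ 2 * Y := by linarith
  have hdx0 : 0 ≤ d * x := by positivity
  have hda : 0 ≤ d * a := by positivity
  have f1 : (x + 1) * (2 * z + 1) ≤ ((a + 1) * m) * (3 * Y) :=
    mul_le_mul e1 e2 (by linarith) (by positivity)
  have f2 : (x' + 1) * (z' + 1) ≤ ((d * a + 1) * m) * (2 * Y) :=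
    mul_le_mul e4 e5 (by linarith) (by positivity)
  have f3 : (d * x + 1) * ((x' + 1) * (z' + 1)) ≤
      ((d * a + 1) * m) * (((d * a + 1) * m) * (2 * Y)) :=
    mul_le_mul e3 f2 (by positivity) (by positivity)
  have f4 : ((a + 1) * m) * (3 * Y) ≤ 3 * (a + 1) * (m ^ 2 * Y) := by
    have : m ≤ m ^ 2 := by nlinarith
    have g1 : 0 ≤ 3 * (a + 1) * Y := by positivity
    have g2 := mul_le_mul_of_nonneg_left this g1
    have g3 : 3 * (a + 1) * Y * m = ((a + 1) * m) * (3 * Y) := by ring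
    have g4 : 3 * (a + 1) * Y * m ^ 2 = 3 * (a + 1) * (m ^ 2 * Y) := by ring
    linarith
  have f5 : ((d * a + 1) * m) * (((d * a + 1) * m) * (2 * Y)) =
      2 * (d * a + 1) ^ 2 * (m ^ 2 * Y) := by ring
  have f6 : (3 * (a + 1) + 2 * (d * a + 1) ^ 2) * (m ^ 2 * Y) =
      3 * (a + 1) * (m ^ 2 * Y) + 2 * (d * a + 1) ^ 2 * (m ^ 2 * Y) := by ring
  linarith

theorem sum_bound (p t s e d : ℕ) (hp : 2 ≤ p) (hd : d ≤ p ^ t) :
    ∃ C : ℝ, ∀ (n : ℕ) (N R : ℕ → ℕ), N 0 ≤ n → (∀ k, N (k + 1) ≤ (N k + p - 1) / p) →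
      R 0 ≤ s → (∀ k, R (k + 1) ≤ d * R k) → (∀ k, R (k + 1) ≤ e * N (k + 1)) →
      ∑ k ∈ Finset.range n, (((R k + 1) * (2 * N k + 1) +
        (d * R k + 1) * ((R (k + 1) + 1) * (N (k + 1) + 1)) : ℕ) : ℝ) ≤
        C * ((n : ℝ) + 1) ^ expo t := by
  have hp' : (2 : ℝ) ≤ p := by exact_mod_cast hp
  have hp0 : (0 : ℝ) < p := by linarith
  set a : ℝ := (s : ℝ) + e with ha
  have ha0 : 0 ≤ a := by positivity
  set D : ℝ := 3 * (a + 1) + 2 * ((d : ℝ) * a + 1) ^ 2 with hD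
  have hD0 : 0 ≤ D := by positivity
  refine ⟨D * 40, ?_⟩
  intro n N R hN0 hN hR0 hR hRe
  have hX : ∀ k : ℕ, 1 ≤ (p : ℝ) ^ k := fun k => one_le_pow₀ (by linarith)
  have hNk : ∀ k, (N k : ℝ) ≤ (n : ℝ) / (p : ℝ) ^ k + 1 := by
    intro k
    induction k with
    | zero =>
      have : (N 0 : ℝ) ≤ n := by exact_mod_cast hN0
      simp only [pow_zero, div_one]
      linarith
    | succ k ih =>
      have h1 : N (k + 1) * p ≤ N k + p - 1 := by
        have := (Nat.le_div_iff_mul_le (by omega : 0 < p)).1 (hN k)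
        exact this
      have h2 : N (k + 1) * p + 1 ≤ N k + p := by omega
      have h3 : (N (k + 1) : ℝ) * p + 1 ≤ N k + p := by exact_mod_cast h2
      have h4 : (n : ℝ) / (p : ℝ) ^ (k + 1) * p = (n : ℝ) / (p : ℝ) ^ k := by
        rw [pow_succ]
        field_simp
      have h5 : (N (k + 1) : ℝ) * p ≤ ((n : ℝ) / (p : ℝ) ^ (k + 1) + 1) * p := by
        rw [add_mul, h4]
        linarith
      exact le_of_mul_le_mul_right h5 hp0
  have hY1 : ∀ k, 1 ≤ (n : ℝ) / (p : ℝ) ^ k + 1 := by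
    intro k
    have : 0 ≤ (n : ℝ) / (p : ℝ) ^ k := by positivity
    linarith
  have hRk1 : ∀ k, (R k : ℝ) ≤ s * ((p : ℝ) ^ k) ^ t := by
    intro k
    induction k with
    | zero =>
      have : (R 0 : ℝ) ≤ s := by exact_mod_cast hR0
      simpa using this
    | succ k ih =>
      have h1 : (R (k + 1) : ℝ) ≤ d * R k := by exact_mod_cast hR k
      have h2 : (d : ℝ) ≤ (p : ℝ) ^ t := by exact_mod_cast hd
      have h3 : (d : ℝ) * R k ≤ (p : ℝ) ^ t * (s * ((p : ℝ) ^ k) ^ t) :=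
        mul_le_mul h2 ih (by positivity) (by positivity)
      have h4 : (p : ℝ) ^ t * (s * ((p : ℝ) ^ k) ^ t) = s * ((p : ℝ) ^ (k + 1)) ^ t := by
        rw [pow_succ, mul_pow]
        ring
      linarith
  have hRk2 : ∀ k, (R k : ℝ) ≤ a * ((n : ℝ) / (p : ℝ) ^ k + 1) := by
    intro k
    rcases k with _ | k
    · have h1 : (R 0 : ℝ) ≤ s := by exact_mod_cast hR0
      have h2 := hY1 0
      have he0 : (0 : ℝ) ≤ e := by positivity
      have h3 : (R 0 : ℝ) ≤ a := by linarith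
      nlinarith
    · have h1 : (R (k + 1) : ℝ) ≤ e * N (k + 1) := by exact_mod_cast hRe k
      have h2 := hNk (k + 1)
      have he0 : (0 : ℝ) ≤ e := by positivity
      have hs0 : (0 : ℝ) ≤ s := by positivity
      have h3 : (e : ℝ) * N (k + 1) ≤ a * ((n : ℝ) / (p : ℝ) ^ (k + 1) + 1) :=
        mul_le_mul (by linarith) h2 (by positivity) ha0
      linarith
  have hterm : ∀ k ∈ Finset.range n, (((R k + 1) * (2 * N k + 1) +
        (d * R k + 1) * ((R (k + 1) + 1) * (N (k + 1) + 1)) : ℕ) : ℝ) ≤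
      D * ((min (((p : ℝ) ^ k) ^ t) ((n : ℝ) / (p : ℝ) ^ k + 1)) ^ 2 *
      ((n : ℝ) / (p : ℝ) ^ k + 1)) := by
    intro k _
    have hXt : 1 ≤ ((p : ℝ) ^ k) ^ t := one_le_pow₀ (hX k)
    have hm : 1 ≤ min (((p : ℝ) ^ k) ^ t) ((n : ℝ) / (p : ℝ) ^ k + 1) :=
      le_min hXt (hY1 k)
    have h1 : (R k : ℝ) ≤ a * min (((p : ℝ) ^ k) ^ t) ((n : ℝ) / (p : ℝ) ^ k + 1) := by
      rcases min_choice (((p : ℝ) ^ k) ^ t) ((n : ℝ) / (p : ℝ) ^ k + 1) with h | h
      · rw [h]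
        have he0 : (0 : ℝ) ≤ e := by positivity
        refine (hRk1 k).trans (mul_le_mul_of_nonneg_right (by linarith) (by positivity))
      · rw [h]
        exact hRk2 k
    have h2 : (R (k + 1) : ℝ) ≤ d * R k := by exact_mod_cast hR k
    have h3 : (N (k + 1) : ℝ) ≤ (n : ℝ) / (p : ℝ) ^ k + 1 := by
      refine (hNk (k + 1)).trans ?_
      have : (n : ℝ) / (p : ℝ) ^ (k + 1) ≤ (n : ℝ) / (p : ℝ) ^ k := by
        apply div_le_div_of_nonneg_left (by positivity) (by positivity)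
        exact pow_le_pow_right₀ (by linarith) (Nat.le_succ k)
      linarith
    have h4 := f01_term a d (R k) (R (k + 1)) (N k) (N (k + 1))
      (min (((p : ℝ) ^ k) ^ t) ((n : ℝ) / (p : ℝ) ^ k + 1)) ((n : ℝ) / (p : ℝ) ^ k + 1)
      ha0 (by positivity) (by positivity) (by positivity) (by positivity) (by positivity)
      hm (hY1 k) h1 h2 (hNk k) h3
    push_cast
    exact h4
  refine (Finset.sum_le_sum hterm).trans ?_
  rw [← Finset.mul_sum, mul_assoc]
  exact mul_le_mul_of_nonneg_left (f01_sum p t hp n) hD0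

end Pool.Agent.WPM
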