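import Pool.Agent.Lib.MP_2da099_lc.C05
import Pool.Agent.Lib.MP_2da099_lc.C07
import Pool.Agent.Lib.MP_2da099_lc.C09

/-!
# K01: cost of the annotations and of the block sums
-/

set_option autoImplicit false

namespace Pool.Agent.WPM

open Pool.Agent.Lib.PolyTime Function

theorem ct_ann (q r : ℕ) [NeZero q] : CT (ann q r) (fun l => l.length) :=
  CT.transduce (annStep q r) _

theorem ct_nxt (q r : ℕ) : CT (nxt : List (Ann q r) → List (Sg r)) (fun l => l.length) :=
  CT.filterMap _

theorem ct_incr (r : ℕ) : CT (incr : List (Letter r) → List (Sg r)) (fun l => l.length) :=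
  CT.transduce (fun (s : Sg r) (l : Letter r) => (sgl l, s)) _

/-- one step of the block sums -/
def k01_step {q r p e : ℕ} {X : Type} (h : Ann q r → X → Vec p e)
    (z : (Ann q r × X) × (Vec p e × List (Vec p e))) : Vec p e × List (Vec p e) :=
  if z.1.1.2.2.isSome then (0, (h z.1.1 z.1.2 + z.2.1) :: z.2.2) else (h z.1.1 z.1.2 + z.2.1, z.2.2)

theorem k01_ct_step {q r p e : ℕ} [NeZero p] {X : Type} [Enc X] [Finite X]
    (h : Ann q r → X → Vec p e) : CT (k01_step h) (fun _ => 0) := by
  have h1 : CT (fun z : (Ann q r × X) × (Vec p e × List (Vec p e)) => ((z.1, z.2.1), z.2.2))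
      (fun z => size z.1) := CT.assocL
  have h2 : CT (fun w : (Ann q r × X) × Vec p e =>
      ((w.1.1.2.2.isSome, h w.1.1 w.1.2 + w.2) : Bool × Vec p e)) (fun _ => 0) := CT.fin _
  have h3 : CT (fun z : ((Ann q r × X) × Vec p e) × List (Vec p e) =>
      (((z.1.1.1.2.2.isSome, h z.1.1.1 z.1.1.2 + z.1.2) : Bool × Vec p e), z.2)) (fun _ => 0) :=
    CT.first h2
  have h4 : CT (fun x : (Bool × Vec p e) × List (Vec p e) => (x.1.1, (x.1.2, x.2)))
    (fun x => size x.1.1) := CT.assocR
  have h5 : CT (fun x : Vec p e × List (Vec p e) => x.1 :: x.2) (fun _ => 0) :=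
    CT.of_enc_eq (fun _ => rfl)
  have h6 : CT (fun l : List (Vec p e) => ((0 : Vec p e), l)) (fun _ => 0) := CT.pushConst _
  have h7 : CT (fun x : Vec p e × List (Vec p e) => x) (fun _ => 0) :=
    CT.of_enc_eq (fun _ => rfl)
  have h8 := CT.bcase (h6.comp h5) h7
  obtain ⟨κ, hκ⟩ := size_fin (Ann q r × X)
  obtain ⟨κ', hκ'⟩ := size_fin Bool
  refine ((h8.comp (h4.comp (h3.comp h1))).mono (κ + κ') (fun z => ?_)).congr (fun z => ?_)
  · have a1 := hκ z.1
    have a2 := hκ' (z.1.1.2.2.isSome)
    simp only [Nat.add_zero, Nat.zero_add, ite_self, Nat.mul_one]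
    omega
  · simp only [k01_step]

theorem k01_brow {q r p e : ℕ} {X : Type} (h : Ann q r → X → Vec p e)
    (l : List (Ann q r × X)) : brow h l =
      (l.foldr (fun a s => k01_step h (a, s)) ((0 : Vec p e), ([] : List (Vec p e)))).2 := rfl

theorem ct_brow {q r p e : ℕ} [NeZero p] {X : Type} [Enc X] [Finite X]
    (h : Ann q r → X → Vec p e) :
    CT (fun l : List (Ann q r × X) => brow h l) (fun l => l.length) := by
  have h1 : CT (fun l : List (Ann q r × X) => (((0 : Vec p e), ([] : List (Vec p e))), l))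
    (fun _ => 0) := CT.pushConst _
  have h2 : CT (fun x : (Vec p e × List (Vec p e)) × List (Ann q r × X) => (x.2, x.1))
    (fun x => size x.1 + size x.2) := CT.swap
  have h3 := CT.foldr (k01_ct_step h)
  have h4 : CT (fun x : Vec p e × List (Vec p e) => x.2) (fun x => size x.1) := CT.snd
  obtain ⟨κ, hκ⟩ := size_list_fin (Ann q r × X)
  obtain ⟨κ', hκ'⟩ := size_fin (Vec p e)
  refine ((h4.comp (h3.comp (h2.comp h1))).mono
    (2 * κ + κ' + size ((0 : Vec p e), ([] : List (Vec p e)))) (fun l => ?_)).congr (fun l => ?_)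
  · have a1 := hκ l
    have a2 := hκ' (l.foldr (fun a s => k01_step h (a, s))
      ((0 : Vec p e), ([] : List (Vec p e)))).1
    have a3 := foldCost_le (T := fun _ => 0) (step := k01_step h) 0 (fun _ => le_refl _) l.reverse
      ((0 : Vec p e), ([] : List (Vec p e)))
    rw [Nat.zero_mul] at a3
    show 0 + (size ((0 : Vec p e), ([] : List (Vec p e))) + size l) +
      (size l + foldCost (fun _ => 0) (k01_step h) l.reverse
        ((0 : Vec p e), ([] : List (Vec p e)))) +
      size (l.foldr (fun a s => k01_step h (a, s)) ((0 : Vec p e), ([] : List (Vec p e)))).1 ≤ _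
    have a4 : (2 * κ + κ' + size ((0 : Vec p e), ([] : List (Vec p e)))) * (l.length + 1) =
      2 * (κ * (l.length + 1)) + κ' * (l.length + 1) +
        size ((0 : Vec p e), ([] : List (Vec p e))) * (l.length + 1) := by ring
    have a5 : κ' ≤ κ' * (l.length + 1) := Nat.le_mul_of_pos_right _ (Nat.succ_pos _)
    have a6 : size ((0 : Vec p e), ([] : List (Vec p e))) ≤
      size ((0 : Vec p e), ([] : List (Vec p e))) * (l.length + 1) :=
      Nat.le_mul_of_pos_right _ (Nat.succ_pos _)
    rw [a4]
    omega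
  · exact (k01_brow h l).symm

theorem ct_browzip {q r p e : ℕ} [NeZero p] {X : Type} [Enc X] [Finite X]
    (h : Ann q r → X → Vec p e) :
    CT (fun x : List (Ann q r) × List X => brow h (x.1.zip x.2))
      (fun x => x.1.length + x.2.length) := by
  have h1 : CT (fun x : List (Ann q r) × List X => x.1.zip x.2)
    (fun x => size x.1 + size x.2) := CT.zip
  obtain ⟨κ, hκ⟩ := size_list_fin (Ann q r)
  obtain ⟨κ', hκ'⟩ := size_list_fin X
  refine ((ct_brow h).comp h1).mono (κ + κ' + 1) (fun x => ?_)
  have a1 := hκ x.1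
  have a2 := hκ' x.2
  have a3 : (x.1.zip x.2).length ≤ x.1.length := by
    rw [List.length_zip]; exact Nat.min_le_left _ _
  show size x.1 + size x.2 + (x.1.zip x.2).length ≤ _
  have a4 : (κ + κ' + 1) * (x.1.length + x.2.length + 1) =
    κ * (x.1.length + 1) + κ' * (x.2.length + 1) + (x.1.length + x.2.length + 1) +
      κ * x.2.length + κ' * x.1.length := by ring
  rw [a4]
  omega

theorem k01_length_le {q r p e : ℕ} {X : Type} (h : Ann q r → X → Vec p e)
    (l : List (Ann q r × X)) : (l.foldr (fun a s => k01_step h (a, s))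
      ((0 : Vec p e), ([] : List (Vec p e)))).2.length ≤ l.length := by
  induction l with
  | nil => simp
  | cons a l ih =>
    rw [List.foldr_cons]
    show (k01_step h (a, _)).2.length ≤ _
    rw [k01_step]
    split_ifs
    · simpa using ih
    · exact ih.trans (by simp)

theorem length_brow_le {q r p e : ℕ} {X : Type} (h : Ann q r → X → Vec p e)
    (l : List (Ann q r × X)) : (brow h l).length ≤ l.length := by
  rw [k01_brow]
  exact k01_length_le h l

end Pool.Agent.WPM
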