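import Pool.Agent.Lib.MP_2da099_lc.K01
import Pool.Agent.Lib.MP_2da099_lc.C10

/-!
# K02: cost of the rows of the next level
-/

set_option autoImplicit false

namespace Pool.Agent.WPM

open Pool.Agent.Lib.PolyTime Function

theorem k02_foldCost_le {τ ρ : Type} {T : τ × ρ → ℕ} {step : τ × ρ → ρ} (B : ℕ) (l : List τ)
    (hB : ∀ a ∈ l, ∀ s, T (a, s) ≤ B) (s : ρ) : foldCost T step l s ≤ B * l.length := by
  induction l generalizing s with
  | nil => simp [foldCost]
  | cons a l ih =>
    rw [foldCost, List.length_cons, Nat.mul_succ]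
    have h1 := hB a (List.mem_cons_self ..) s
    have h2 := ih (fun b hb => hB b (List.mem_cons_of_mem _ hb)) (step (a, s))
    omega

theorem k02_le_mxl {α : Type} {rows : List (List α)} {row : List α} (h : row ∈ rows) :
    row.length ≤ mxl rows := by
  induction rows with
  | nil => simp at h
  | cons a l ih =>
    have e : mxl (a :: l) = max a.length (mxl l) := rfl
    rw [e]
    rcases List.mem_cons.1 h with h | h
    · rw [h]; exact le_max_left _ _
    · exact (ih h).trans (le_max_right _ _)

theorem k02_mxl_le {α : Type} {rows : List (List α)} {B : ℕ}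
    (h : ∀ row ∈ rows, row.length ≤ B) : mxl rows ≤ B := by
  induction rows with
  | nil => exact Nat.zero_le _
  | cons a l ih =>
    have e : mxl (a :: l) = max a.length (mxl l) := rfl
    rw [e]
    exact max_le (h a (List.mem_cons_self ..)) (ih (fun b hb => h b (List.mem_cons_of_mem _ hb)))

theorem ct_rowset {q r p e : ℕ} [NeZero p] {X : Type} [Enc X] [Finite X] (d : ℕ)
    (h : Fin d → Ann q r → X → Vec p e) :
    CT (fun x : List (Ann q r) × List X =>
      (List.finRange d).map (fun j => brow (h j) (x.1.zip x.2)))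
      (fun x => x.1.length + x.2.length) := by
  obtain ⟨κ, hκ⟩ := size_list_fin (Ann q r)
  obtain ⟨κ', hκ'⟩ := size_list_fin X
  refine (CT.mapConst (List.finRange d)
    (f := fun (j : Fin d) (x : List (Ann q r) × List X) => brow (h j) (x.1.zip x.2))
    (fun j _ => ct_browzip (h j))).mono (κ + κ' + 2) (fun x => ?_)
  have a1 := hκ x.1
  have a2 := hκ' x.2
  have a3 : size x = size x.1 + size x.2 + 1 := size_prod x
  have a4 : (κ + κ' + 2) * (x.1.length + x.2.length + 1) =
    κ * (x.1.length + 1) + κ' * (x.2.length + 1) + 2 * (x.1.length + x.2.length + 1) +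
      κ * x.2.length + κ' * x.1.length := by ring
  rw [a3, a4]
  omega

theorem size_rows_le (p e : ℕ) [NeZero p] : ∃ κ : ℕ, ∀ rows : List (List (Vec p e)),
    size rows ≤ κ * ((rows.length + 1) * (mxl rows + 1)) := by
  obtain ⟨κ, hκ⟩ := size_list_fin (Vec p e)
  refine ⟨κ + 1, fun rows => ?_⟩
  refine (size_list_le_of (κ * (mxl rows + 1)) rows (fun row hrow => ?_)).trans ?_
  · refine (hκ row).trans (Nat.mul_le_mul_left _ ?_)
    have := k02_le_mxl hrow
    omega
  · have a1 : (κ + 1) * ((rows.length + 1) * (mxl rows + 1)) =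
      (κ * (mxl rows + 1) + (mxl rows + 1)) * (rows.length + 1) := by ring
    rw [a1]
    refine Nat.mul_le_mul_right _ ?_
    omega

/-- the rows obtained from one row -/
noncomputable def k02_F {p r : ℕ} [NeZero p] (D : Data p r) (an : List (Ann p r))
    (row : List (Vec p D.e)) : List (List (Vec p D.e)) :=
  (List.finRange D.d).map (fun j => brow (fun y u => D.step y.1 y.2.1 j u) (an.zip row))

theorem k02_news {p r : ℕ} [NeZero p] (D : Data p r) (an : List (Ann p r))
    (rows : List (List (Vec p D.e))) : news D an rows = rows.flatMap (k02_F D an) := rfl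

theorem k02_len {p r : ℕ} [NeZero p] (D : Data p r) (an : List (Ann p r))
    (row row' : List (Vec p D.e)) (h : row' ∈ k02_F D an row) : row'.length ≤ an.length := by
  rw [k02_F, List.mem_map] at h
  obtain ⟨j, _, rfl⟩ := h
  refine (length_brow_le _ _).trans ?_
  rw [List.length_zip]
  exact Nat.min_le_left _ _

theorem k02_Flen {p r : ℕ} [NeZero p] (D : Data p r) (an : List (Ann p r))
    (row : List (Vec p D.e)) : (k02_F D an row).length = D.d := by
  rw [k02_F, List.length_map, List.length_finRange]

theorem k02_fold {α β : Type} (F : α → List β) (l : List α) (acc : List β) :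
    l.foldl (fun s a => F a ++ s) acc = l.reverse.flatMap F ++ acc := by
  induction l generalizing acc with
  | nil => rfl
  | cons a l ih =>
    rw [List.foldl_cons, ih, List.reverse_cons, List.flatMap_append, List.append_assoc]
    simp

/-- the step of the fold -/
noncomputable def k02_step {p r : ℕ} [NeZero p] (D : Data p r)
    (z : (List (Vec p D.e) × List (Ann p r)) × List (List (Vec p D.e))) :
    List (List (Vec p D.e)) := k02_F D z.1.2 z.1.1 ++ z.2

theorem k02_ct_step {p r : ℕ} [NeZero p] (D : Data p r) :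
    CT (k02_step D) (fun z => z.1.2.length + z.1.1.length) := by
  have h1 : CT (fun x : List (Vec p D.e) × List (Ann p r) => (x.2, x.1))
    (fun x => size x.1 + size x.2) := CT.swap
  have h2 : CT (fun x : List (Ann p r) × List (Vec p D.e) => k02_F D x.1 x.2)
    (fun x => x.1.length + x.2.length) :=
    ct_rowset D.d (fun j y u => D.step y.1 y.2.1 j u)
  have h3 : CT (fun z : (List (Vec p D.e) × List (Ann p r)) × List (List (Vec p D.e)) =>
    (k02_F D z.1.2 z.1.1, z.2)) _ := CT.first (h2.comp h1)
  have h4 : CT (fun x : List (List (Vec p D.e)) × List (List (Vec p D.e)) => x.1 ++ x.2)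
    (fun x => size x.1) := CT.append
  obtain ⟨κ, hκ⟩ := size_list_fin (Ann p r)
  obtain ⟨κ', hκ'⟩ := size_list_fin (Vec p D.e)
  obtain ⟨μ, hμ⟩ := size_rows_le p D.e
  refine ((h4.comp h3).mono (κ + κ' + 1 + μ * (D.d + 1)) (fun z => ?_)).congr (fun z => ?_)
  · have a1 := hκ z.1.2
    have a2 := hκ' z.1.1
    have a3 := hμ (k02_F D z.1.2 z.1.1)
    rw [k02_Flen] at a3
    have a4 : mxl (k02_F D z.1.2 z.1.1) ≤ z.1.2.length := k02_mxl_le (fun row h => k02_len D _ _ _ h)
    have a5 : μ * ((D.d + 1) * (mxl (k02_F D z.1.2 z.1.1) + 1)) ≤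
        μ * ((D.d + 1) * (z.1.2.length + z.1.1.length + 1)) :=
      Nat.mul_le_mul_left _ (Nat.mul_le_mul_left _ (by omega))
    show size z.1.1 + size z.1.2 + (z.1.2.length + z.1.1.length) + size (k02_F D z.1.2 z.1.1) ≤ _
    have a6 : (κ + κ' + 1 + μ * (D.d + 1)) * (z.1.2.length + z.1.1.length + 1) =
      κ * (z.1.2.length + 1) + κ' * (z.1.1.length + 1) + (z.1.2.length + z.1.1.length + 1) +
      κ * z.1.1.length + κ' * z.1.2.length +
      μ * ((D.d + 1) * (z.1.2.length + z.1.1.length + 1)) := by ring
    rw [a6]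
    omega
  · rfl

theorem ct_news {p r : ℕ} [NeZero p] (D : Data p r) :
    CT (fun x : List (Ann p r) × List (List (Vec p D.e)) => news D x.1 x.2)
      (fun x => (x.2.length + 1) * (x.1.length + mxl x.2 + 1)) := by
  have h1 : CT (fun x : List (Ann p r) × List (List (Vec p D.e)) => (x.2, x.1))
    (fun x => size x.1 + size x.2) := CT.swap
  have h2 : CT (fun x : List (List (Vec p D.e)) × List (Ann p r) => (x.1.reverse, x.2))
    (fun x => size x.1) := CT.first CT.reverse
  have h3 : CT (fun an : List (Ann p r) => (([] : List (List (Vec p D.e))), an)) (fun _ => 0) :=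
    CT.pushConst _
  have h4 : CT (fun x : List (List (Vec p D.e)) × List (Ann p r) => (x.2, x.1))
    (fun x => size x.1 + size x.2) := CT.swap
  have h5 : CT (fun x : List (List (Vec p D.e)) × List (Ann p r) =>
    (x.1, (x.2, ([] : List (List (Vec p D.e)))))) _ := CT.second (h4.comp h3)
  have h6 := CT.foldlEnv (k02_ct_step D)
  obtain ⟨κ, hκ⟩ := size_list_fin (Ann p r)
  obtain ⟨μ, hμ⟩ := size_rows_le p D.e
  refine ((h6.comp (h5.comp (h2.comp h1))).mono (3 * κ + 4 * μ + 3) (fun x => ?_)).congr
    (fun x => ?_)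
  · have a1 := hκ x.1
    have a2 := hμ x.2
    have a3 : foldCost (fun y : List (Vec p D.e) × List (List (Vec p D.e)) =>
        x.1.length + y.1.length) (fun y => k02_step D ((y.1, x.1), y.2)) x.2.reverse [] ≤
        (x.1.length + mxl x.2) * x.2.reverse.length :=
      k02_foldCost_le _ _ (fun a ha s => Nat.add_le_add_left
        (k02_le_mxl (List.mem_reverse.1 ha)) _) _
    rw [List.length_reverse] at a3
    show size x.1 + size x.2 + size x.2 + (size x.2.reverse + (0 + (size ([] : List (List (Vec p D.e))) + size x.1))) +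
      (size x.2.reverse + (x.2.reverse.length + 1) * size x.1 +
        foldCost (fun y : List (Vec p D.e) × List (List (Vec p D.e)) =>
        x.1.length + y.1.length) (fun y => k02_step D ((y.1, x.1), y.2)) x.2.reverse []) ≤ _
    rw [size_reverse, size_nil, List.length_reverse]
    set n := x.2.length
    set L := x.1.length
    set m := mxl x.2
    have b1 : κ * (L + 1) ≤ κ * ((n + 1) * (L + m + 1)) := by
      refine Nat.mul_le_mul_left _ ?_
      nlinarith
    have b2 : μ * ((n + 1) * (m + 1)) ≤ μ * ((n + 1) * (L + m + 1)) :=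
      Nat.mul_le_mul_left _ (Nat.mul_le_mul_left _ (by omega))
    have b3 : (n + 1) * size x.1 ≤ κ * ((n + 1) * (L + m + 1)) := by
      calc (n + 1) * size x.1 ≤ (n + 1) * (κ * (L + 1)) := Nat.mul_le_mul_left _ a1
        _ = κ * ((n + 1) * (L + 1)) := by ring
        _ ≤ _ := Nat.mul_le_mul_left _ (Nat.mul_le_mul_left _ (by omega))
    have b4 : (L + m) * n ≤ (n + 1) * (L + m + 1) := by nlinarith
    have b5 : (3 * κ + 4 * μ + 3) * ((n + 1) * (L + m + 1) + 1) =
      3 * (κ * ((n + 1) * (L + m + 1))) + 4 * (μ * ((n + 1) * (L + m + 1))) +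
      3 * ((n + 1) * (L + m + 1)) + (3 * κ + 4 * μ + 3) := by ring
    rw [b5]
    omega
  · show x.2.reverse.foldl (fun s a => k02_F D x.1 a ++ s) [] = news D x.1 x.2
    rw [k02_fold, List.reverse_reverse, List.append_nil]
    rfl

theorem news_length {p r : ℕ} [NeZero p] (D : Data p r) (an : List (Ann p r))
    (rows : List (List (Vec p D.e))) : (news D an rows).length = D.d * rows.length := by
  rw [k02_news]
  induction rows with
  | nil => rfl
  | cons a l ih =>
    rw [List.flatMap_cons, List.length_append, ih, k02_Flen, List.length_cons, Nat.mul_succ]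
    omega

theorem mxl_news_le {p r : ℕ} [NeZero p] (D : Data p r) (an : List (Ann p r))
    (rows : List (List (Vec p D.e))) : mxl (news D an rows) ≤ an.length := by
  refine k02_mxl_le (fun row hrow => ?_)
  rw [k02_news, List.mem_flatMap] at hrow
  obtain ⟨a, _, h⟩ := hrow
  exact k02_len D _ _ _ h

end Pool.Agent.WPM
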