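import Pool.Agent.Lib.MP_2da099_lc.C07
import Pool.Agent.Lib.MP_2da099_lc.C09
import Pool.Agent.Lib.MP_2da099_lc.C10

/-!
# K03: cost of the reduction of a row
-/

set_option autoImplicit false

namespace Pool.Agent.WPM

open Pool.Agent.Lib.PolyTime Function

theorem length_red_le {p e : ℕ} (r b : List (Vec p e)) : (red r b).length ≤ r.length := by
  unfold red
  rw [c09_length_trans, List.length_zip]
  exact Nat.min_le_left _ _

theorem length_redAll_le {p e : ℕ} (r : List (Vec p e)) (B : List (List (Vec p e))) :
    (redAll r B).length ≤ r.length := by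
  unfold redAll
  induction B generalizing r with
  | nil => simp
  | cons b B ih =>
    rw [List.foldl_cons]
    exact (ih _).trans (length_red_le r b)

theorem ct_red (p e : ℕ) [NeZero p] : CT (fun x : List (Vec p e) × List (Vec p e) => red x.1 x.2)
    (fun x => x.1.length + x.2.length) := by
  obtain ⟨κ1, hκ1⟩ := size_list_fin (Vec p e)
  have hz : CT (fun x : List (Vec p e) × List (Vec p e) => x.1.zip x.2)
    (fun x => size x.1 + size x.2) := CT.zip
  have ht : CT (fun l : List (Vec p e × Vec p e) => trans redStep none l) (fun l => l.length) :=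
    CT.transduce redStep none
  refine ((ht.comp hz).mono (2 * κ1 + 1) (fun x => ?_)).congr (fun x => rfl)
  have a1 := hκ1 x.1
  have a2 := hκ1 x.2
  have a3 : (x.1.zip x.2).length ≤ x.1.length := by
    rw [List.length_zip]; exact Nat.min_le_left _ _
  show size x.1 + size x.2 + (x.1.zip x.2).length ≤
    (2 * κ1 + 1) * (x.1.length + x.2.length + 1)
  have e : (2 * κ1 + 1) * (x.1.length + x.2.length + 1) =
    κ1 * (x.1.length + 1) + κ1 * (x.2.length + 1) + κ1 * (x.1.length + x.2.length) +
      (x.1.length + x.2.length + 1) := by ring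
  omega

theorem k03_mxl_cons {α : Type} (b : List α) (B : List (List α)) :
    mxl (b :: B) = max b.length (mxl B) := rfl

theorem k03_size_rows (p e : ℕ) [NeZero p] : ∃ κ : ℕ, ∀ rows : List (List (Vec p e)),
    size rows ≤ κ * ((rows.length + 1) * (mxl rows + 1)) := by
  obtain ⟨κ1, hκ1⟩ := size_list_fin (Vec p e)
  refine ⟨κ1 + 1, fun rows => ?_⟩
  have key : ∀ (M : ℕ) (rows : List (List (Vec p e))), mxl rows ≤ M →
      size rows ≤ (κ1 + 1) * ((rows.length + 1) * (M + 1)) := by
    intro M rows
    induction rows with
    | nil =>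
      intro _
      rw [size_nil]
      simp only [List.length_nil]
      have : 0 < (κ1 + 1) * ((0 + 1) * (M + 1)) := by positivity
      omega
    | cons b B ih =>
      intro hM
      rw [k03_mxl_cons] at hM
      have h1 := ih (by omega)
      have h2 := hκ1 b
      have h3 : κ1 * (b.length + 1) ≤ κ1 * (M + 1) := Nat.mul_le_mul_left _ (by omega)
      rw [size_cons, List.length_cons]
      have e1 : (κ1 + 1) * ((B.length + 1 + 1) * (M + 1)) =
        (κ1 + 1) * ((B.length + 1) * (M + 1)) + κ1 * (M + 1) + (M + 1) := by ring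
      omega
  exact key _ rows le_rfl

theorem ct_redAll (p e : ℕ) [NeZero p] :
    CT (fun x : List (Vec p e) × List (List (Vec p e)) => redAll x.1 x.2)
      (fun x => (x.2.length + 1) * (x.1.length + mxl x.2 + 1)) := by
  obtain ⟨κ1, hκ1⟩ := size_list_fin (Vec p e)
  obtain ⟨κ2, hκ2⟩ := k03_size_rows p e
  have hsw : CT (fun x : List (Vec p e) × List (List (Vec p e)) => (x.2, x.1)) _ := CT.swap
  have hstep : CT (fun x : List (Vec p e) × List (Vec p e) => red x.2 x.1)
      (fun x => x.1.length + x.2.length) := by
    have a1 : CT (fun x : List (Vec p e) × List (Vec p e) => (x.2, x.1)) _ := CT.swap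
    refine ((ct_red p e).comp a1).mono (2 * κ1 + 1) (fun x => ?_)
    have a1 := hκ1 x.1
    have a2 := hκ1 x.2
    show size x.1 + size x.2 + (x.2.length + x.1.length) ≤
      (2 * κ1 + 1) * (x.1.length + x.2.length + 1)
    have e : (2 * κ1 + 1) * (x.1.length + x.2.length + 1) =
      κ1 * (x.1.length + 1) + κ1 * (x.2.length + 1) + κ1 * (x.1.length + x.2.length) +
        (x.1.length + x.2.length + 1) := by ring
    omega
  have hfold := CT.foldl hstep
  have hcost : ∀ (M : ℕ) (B : List (List (Vec p e))) (r : List (Vec p e)), mxl B ≤ M →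
      foldCost (fun x : List (Vec p e) × List (Vec p e) => x.1.length + x.2.length)
        (fun x => red x.2 x.1) B r ≤ B.length * (r.length + M) := by
    intro M B
    induction B with
    | nil => intro r _; simp [foldCost]
    | cons b B ih =>
      intro r hM
      rw [k03_mxl_cons] at hM
      have h1 := ih (red r b) (by omega)
      have h2 := length_red_le r b
      have h3 : B.length * ((red r b).length + M) ≤ B.length * (r.length + M) :=
        Nat.mul_le_mul_left _ (by omega)
      simp only [foldCost, List.length_cons]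
      have e : (B.length + 1) * (r.length + M) = B.length * (r.length + M) + (r.length + M) := by
        ring
      omega
  refine ((hfold.comp hsw).mono (2 * κ1 + 2 * κ2 + 1) (fun x => ?_)).congr (fun x => rfl)
  obtain ⟨r, B⟩ := x
  have a1 := hκ1 r
  have a2 := hκ2 B
  have a3 := hcost (mxl B) B r le_rfl
  show size r + size B + (size B + foldCost (fun x : List (Vec p e) × List (Vec p e) =>
    x.1.length + x.2.length) (fun x => red x.2 x.1) B r) ≤
    (2 * κ1 + 2 * κ2 + 1) * ((B.length + 1) * (r.length + mxl B + 1) + 1)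
  have b1 : κ2 * ((B.length + 1) * (mxl B + 1)) ≤
      κ2 * ((B.length + 1) * (r.length + mxl B + 1)) :=
    Nat.mul_le_mul_left _ (Nat.mul_le_mul_left _ (by omega))
  have b2 : κ1 * (r.length + 1) ≤ κ1 * ((B.length + 1) * (r.length + mxl B + 1)) := by
    refine Nat.mul_le_mul_left _ ?_
    have : (B.length + 1) * (r.length + mxl B + 1) =
      B.length * (r.length + mxl B + 1) + (r.length + mxl B + 1) := by ring
    omega
  have b3 : B.length * (r.length + mxl B) ≤ (B.length + 1) * (r.length + mxl B + 1) :=
    Nat.mul_le_mul (by omega) (by omega)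
  have e : (2 * κ1 + 2 * κ2 + 1) * ((B.length + 1) * (r.length + mxl B + 1) + 1) =
    2 * (κ1 * ((B.length + 1) * (r.length + mxl B + 1))) +
    2 * (κ2 * ((B.length + 1) * (r.length + mxl B + 1))) +
    (B.length + 1) * (r.length + mxl B + 1) + (2 * κ1 + 2 * κ2 + 1) := by ring
  omega

theorem ct_isZ (p e : ℕ) [NeZero p] : CT (isZ : List (Vec p e) → Bool) (fun l => l.length) :=
  CT.all _

end Pool.Agent.WPM
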