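import Pool.Agent.Lib.MP_2da099_lc.K02
import Pool.Agent.Lib.MP_2da099_lc.K03
import Pool.Agent.Lib.MP_2da099_lc.C05

/-!
# K04: cost of the pruning
-/

set_option autoImplicit false

namespace Pool.Agent.WPM

open Pool.Agent.Lib.PolyTime Function

theorem k04_mxl_le {α : Type} (rows : List (List α)) (M : ℕ) :
    mxl rows ≤ M ↔ ∀ r ∈ rows, r.length ≤ M := by
  induction rows with
  | nil => simp [mxl]
  | cons a l ih =>
    have e : mxl (a :: l) = max a.length (mxl l) := rfl
    rw [e, max_le_iff, ih, List.forall_mem_cons]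

theorem ct_ins (p e : ℕ) [NeZero p] :
    CT (fun x : List (Vec p e) × List (List (Vec p e)) => ins x.2 x.1)
      (fun x => (x.2.length + 1) * (x.1.length + mxl x.2 + 1)) := by
  obtain ⟨κ1, hκ1⟩ := size_list_fin (Vec p e)
  obtain ⟨κ2, hκ2⟩ := size_rows_le p e
  -- `x ↦ (x, x) ↦ (v', (v, B)) ↦ (v', B)`
  have a1 : CT (fun x : List (Vec p e) × List (List (Vec p e)) => (x, x)) (fun x => size x) :=
    CT.dup
  have a2 : CT (fun x : (List (Vec p e) × List (List (Vec p e))) ×
      (List (Vec p e) × List (List (Vec p e))) => (redAll x.1.1 x.1.2, x.2)) _ :=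
    CT.first (ct_redAll p e)
  have a3 : CT (fun x : List (Vec p e) × (List (Vec p e) × List (List (Vec p e))) =>
      (x.1, x.2.2)) _ := CT.second (γ := List (Vec p e)) CT.snd
  -- `(v', B) ↦ ((isZ v', v'), B) ↦ (isZ v', (v', B))`
  have b1 : CT (fun v : List (Vec p e) => v) (fun _ => 0) := CT.of_enc_eq (fun _ => rfl)
  have b2 : CT (fun v : List (Vec p e) => (isZ v, v)) (fun v => size v + v.length + 0) :=
    (ct_isZ p e).pair b1
  have b3 : CT (fun x : List (Vec p e) × List (List (Vec p e)) => ((isZ x.1, x.1), x.2)) _ :=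
    CT.first b2
  have b4 : CT (fun x : (Bool × List (Vec p e)) × List (List (Vec p e)) =>
      (x.1.1, (x.1.2, x.2))) (fun x => size x.1.1) := CT.assocR
  -- the two cases
  have c1 : CT (fun x : List (Vec p e) × List (List (Vec p e)) => x.2) (fun x => size x.1) :=
    CT.snd
  have c2 : CT (fun x : List (Vec p e) × List (List (Vec p e)) => (x.2, x.1))
      (fun x => size x.1 + size x.2) := CT.swap
  have c3 : CT (fun v : List (Vec p e) => ([v] : List (List (Vec p e)))) (fun v => size v) := by
    have d1 : CT (fun v : List (Vec p e) => (([] : List (List (Vec p e))), v)) (fun _ => 0) :=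
      CT.pushConst []
    have d2 : CT (fun x : List (List (Vec p e)) × List (Vec p e) => (x.2, x.1)) _ := CT.swap
    have d3 : CT (fun x : List (Vec p e) × List (List (Vec p e)) => x.1 :: x.2) (fun _ => 0) :=
      CT.of_enc_eq (fun _ => rfl)
    refine ((d3.comp (d2.comp d1)).mono 1 (fun v => ?_)).congr (fun v => rfl)
    show 0 + (size ([] : List (List (Vec p e))) + size v) + 0 ≤ 1 * (size v + 1)
    rw [size_nil]
    omega
  have c4 : CT (fun x : List (List (Vec p e)) × List (Vec p e) =>
      (x.1, ([x.2] : List (List (Vec p e))))) _ := CT.second (γ := List (List (Vec p e))) c3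
  have c5 : CT (fun x : List (List (Vec p e)) × List (List (Vec p e)) => x.1 ++ x.2)
      (fun x => size x.1) := CT.append
  have c6 := c5.comp (c4.comp c2)
  have c7 := CT.bcase c1 c6
  have all := c7.comp ((b4.comp b3).comp (a3.comp (a2.comp a1)))
  refine (all.mono (13 * κ1 + 5 * κ2 + 20) (fun x => ?_)).congr (fun x => ?_)
  · obtain ⟨v, B⟩ := x
    have s1 : size v ≤ κ1 * (v.length + 1) := hκ1 v
    have s2 : size (redAll v B) ≤ κ1 * (v.length + 1) :=
      (hκ1 _).trans (Nat.mul_le_mul_left _ (Nat.succ_le_succ (length_redAll_le v B)))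
    have s3 : size B ≤ κ2 * ((B.length + 1) * (mxl B + 1)) := hκ2 B
    have s4 : (redAll v B).length ≤ v.length := length_redAll_le v B
    have s5 : size (isZ (redAll v B)) ≤ 3 := by
      cases isZ (redAll v B) <;> simp [size]
    have s6 : size (v, B) = size v + size B + 1 := size_prod _
    have l1 : v.length + 1 ≤ (B.length + 1) * (v.length + mxl B + 1) := by nlinarith
    have l2 : (B.length + 1) * (mxl B + 1) ≤ (B.length + 1) * (v.length + mxl B + 1) :=
      Nat.mul_le_mul_left _ (by omega)
    have m1 : κ1 * (v.length + 1) ≤ κ1 * ((B.length + 1) * (v.length + mxl B + 1)) :=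
      Nat.mul_le_mul_left _ l1
    have m2 : κ2 * ((B.length + 1) * (mxl B + 1)) ≤
      κ2 * ((B.length + 1) * (v.length + mxl B + 1)) := Nat.mul_le_mul_left _ l2
    show (size (v, B) + (B.length + 1) * (v.length + mxl B + 1)) + (size (redAll v B) + size v) +
      ((size (redAll v B) + (redAll v B).length + 0) + size (isZ (redAll v B))) +
      (if isZ (redAll v B) then size (redAll v B) else
        (size (redAll v B) + size B) + (size B + size (redAll v B)) + size B) ≤
      (13 * κ1 + 5 * κ2 + 20) * ((B.length + 1) * (v.length + mxl B + 1) + 1)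
    generalize (B.length + 1) * (v.length + mxl B + 1) = T at *
    have e : (13 * κ1 + 5 * κ2 + 20) * (T + 1) = 13 * (κ1 * T) + 5 * (κ2 * T) + 20 * T +
      (13 * κ1 + 5 * κ2 + 20) := by ring
    rw [e]
    split_ifs <;> omega
  · obtain ⟨v, B⟩ := x
    rfl

theorem k04_ins_length {p e : ℕ} (B : List (List (Vec p e))) (v : List (Vec p e)) :
    B.length ≤ (ins B v).length := by
  unfold ins
  split_ifs
  · exact le_refl _
  · simp

theorem k04_foldl_length {p e : ℕ} (vs B : List (List (Vec p e))) :
    B.length ≤ (vs.foldl ins B).length := by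
  induction vs generalizing B with
  | nil => exact le_refl _
  | cons v vs ih => exact (k04_ins_length B v).trans (ih _)

theorem k04_ins_mxl {p e : ℕ} (M : ℕ) (B : List (List (Vec p e))) (v : List (Vec p e))
    (hv : v.length ≤ M) (hB : ∀ b ∈ B, b.length ≤ M) : ∀ b ∈ ins B v, b.length ≤ M := by
  unfold ins
  split_ifs
  · exact hB
  · intro b hb
    rcases List.mem_append.1 hb with h | h
    · exact hB b h
    · rw [List.mem_singleton.1 h]
      exact (length_redAll_le v B).trans hv

theorem k04_foldl_mxl {p e : ℕ} (M : ℕ) (vs B : List (List (Vec p e)))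
    (hv : ∀ v ∈ vs, v.length ≤ M) (hB : ∀ b ∈ B, b.length ≤ M) :
    ∀ b ∈ vs.foldl ins B, b.length ≤ M := by
  induction vs generalizing B with
  | nil => exact hB
  | cons v vs ih =>
    exact ih _ (fun v' h => hv v' (List.mem_cons_of_mem _ h))
      (k04_ins_mxl M B v (hv v List.mem_cons_self) hB)

theorem mxl_prune_le {p e : ℕ} (vs : List (List (Vec p e))) : mxl (prune vs) ≤ mxl vs := by
  rw [k04_mxl_le]
  exact k04_foldl_mxl _ vs [] ((k04_mxl_le vs _).1 le_rfl) (by simp)

theorem k04_foldCost {p e : ℕ} (M : ℕ) (vs B : List (List (Vec p e)))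
    (hv : ∀ v ∈ vs, v.length ≤ M) (hB : ∀ b ∈ B, b.length ≤ M) :
    foldCost (fun x : List (Vec p e) × List (List (Vec p e)) =>
      (x.2.length + 1) * (x.1.length + mxl x.2 + 1)) (fun x => ins x.2 x.1) vs B ≤
      vs.length * (((vs.foldl ins B).length + 1) * (2 * M + 1)) := by
  induction vs generalizing B with
  | nil => simp [foldCost]
  | cons v vs ih =>
    have h1 := ih (ins B v) (fun v' h => hv v' (List.mem_cons_of_mem _ h))
      (k04_ins_mxl M B v (hv v List.mem_cons_self) hB)
    have h2 : B.length ≤ ((v :: vs).foldl ins B).length := k04_foldl_length (v :: vs) B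
    have h3 : mxl B ≤ M := (k04_mxl_le B M).2 hB
    have h4 := hv v List.mem_cons_self
    have h5 : (B.length + 1) * (v.length + mxl B + 1) ≤
        (((v :: vs).foldl ins B).length + 1) * (2 * M + 1) :=
      Nat.mul_le_mul (by omega) (by omega)
    rw [List.foldl_cons] at h5 ⊢
    simp only [foldCost, List.length_cons]
    have e3 : (vs.length + 1) * (((vs.foldl ins (ins B v)).length + 1) * (2 * M + 1)) =
      vs.length * (((vs.foldl ins (ins B v)).length + 1) * (2 * M + 1)) +
      ((vs.foldl ins (ins B v)).length + 1) * (2 * M + 1) := by ring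
    rw [e3]
    exact (Nat.add_le_add h5 h1).trans (le_of_eq (Nat.add_comm _ _))

theorem ct_prune (p e : ℕ) [NeZero p] :
    CT (prune : List (List (Vec p e)) → List (List (Vec p e)))
      (fun vs => (vs.length + 1) * (((prune vs).length + 1) * (mxl vs + 1))) := by
  obtain ⟨κ2, hκ2⟩ := size_rows_le p e
  have a1 : CT (fun vs : List (List (Vec p e)) => (([] : List (List (Vec p e))), vs))
      (fun _ => 0) := CT.pushConst []
  have a2 : CT (fun x : List (List (Vec p e)) × List (List (Vec p e)) => (x.2, x.1)) _ := CT.swap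
  have a3 := CT.foldl (ct_ins p e)
  refine ((a3.comp (a2.comp a1)).mono (2 * κ2 + 4) (fun vs => ?_)).congr (fun vs => rfl)
  have s1 : size vs ≤ κ2 * ((vs.length + 1) * (mxl vs + 1)) := hκ2 vs
  have s2 := k04_foldCost (mxl vs) vs [] ((k04_mxl_le vs _).1 le_rfl) (by simp)
  show 0 + (size ([] : List (List (Vec p e))) + size vs) + (size vs +
    foldCost (fun x : List (Vec p e) × List (List (Vec p e)) =>
      (x.2.length + 1) * (x.1.length + mxl x.2 + 1)) (fun x => ins x.2 x.1) vs []) ≤
    (2 * κ2 + 4) * ((vs.length + 1) * (((prune vs).length + 1) * (mxl vs + 1)) + 1)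
  rw [size_nil]
  have e0 : vs.foldl ins [] = prune vs := rfl
  rw [e0] at s2
  have l1 : (vs.length + 1) * (mxl vs + 1) ≤
      (vs.length + 1) * (((prune vs).length + 1) * (mxl vs + 1)) :=
    Nat.mul_le_mul_left _ (Nat.le_mul_of_pos_left _ (by omega))
  have l2 : vs.length * (((prune vs).length + 1) * (2 * mxl vs + 1)) ≤
      2 * ((vs.length + 1) * (((prune vs).length + 1) * (mxl vs + 1))) := by
    have : vs.length * (((prune vs).length + 1) * (2 * mxl vs + 1)) ≤
      (vs.length + 1) * (((prune vs).length + 1) * (2 * (mxl vs + 1))) :=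
      Nat.mul_le_mul (by omega) (Nat.mul_le_mul_left _ (by omega))
    refine this.trans (le_of_eq ?_)
    ring
  have m1 := Nat.mul_le_mul_left κ2 l1
  generalize (vs.length + 1) * (((prune vs).length + 1) * (mxl vs + 1)) = T at *
  have e : (2 * κ2 + 4) * (T + 1) = 2 * (κ2 * T) + 4 * T + (2 * κ2 + 4) := by ring
  omega

end Pool.Agent.WPM
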