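import Pool.Agent.Lib.MP_2da099_lc.K04

/-!
# K05: cost of one level, of the start and of the final test
-/

set_option autoImplicit false

namespace Pool.Agent.WPM

open Pool.Agent.Lib.PolyTime Function

/-- The cost of one level. -/
noncomputable def lcost {p r : ℕ} [NeZero p] (D : Data p r)
    (x : List (Sg r) × List (List (Vec p D.e))) : ℕ :=
  (x.2.length + 1) * (x.1.length + mxl x.2 + 1) +
    (D.d * x.2.length + 1) * (((level D x).2.length + 1) *
      (mxl (news D (ann p r x.1) x.2) + 1))

theorem k05_length_trans {α β σ : Type} (f : σ → α → σ × β) (s : σ) (l : List α) :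
    (trans f s l).length = l.length := by
  induction l generalizing s with
  | nil => rfl
  | cons a l ih => simp [trans, ih]

theorem k05_length_ann {q r : ℕ} [NeZero q] (Δs : List (Sg r)) :
    (ann q r Δs).length = Δs.length := k05_length_trans _ _ _

theorem k05_length_nxt {q r : ℕ} (l : List (Ann q r)) : (nxt l).length ≤ l.length :=
  List.length_filterMap_le _ _

theorem ct_level {p r : ℕ} [NeZero p] (D : Data p r) : CT (level D) (lcost D) := by
  obtain ⟨κ1, hκ1⟩ := size_list_fin (Ann p r)
  obtain ⟨κ2, hκ2⟩ := size_list_fin (Sg r)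
  have a1 : CT (fun x : List (Sg r) × List (List (Vec p D.e)) => (ann p r x.1, x.2))
      (fun x => x.1.length) := CT.first (ct_ann p r)
  have a2 : CT (fun x : List (Ann p r) × List (List (Vec p D.e)) => ((x.1, x.1), x.2))
      (fun x => size x.1) := CT.first CT.dup
  have a3 : CT (fun x : (List (Ann p r) × List (Ann p r)) × List (List (Vec p D.e)) =>
      (x.1.1, (x.1.2, x.2))) (fun x => size x.1.1) := CT.assocR
  have a4 : CT (fun x : List (Ann p r) × (List (Ann p r) × List (List (Vec p D.e))) =>
      (nxt x.1, x.2)) (fun x => x.1.length) := CT.first (ct_nxt p r)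
  have a5 : CT (fun x : List (Sg r) × (List (Ann p r) × List (List (Vec p D.e))) =>
      (x.1, prune (news D x.2.1 x.2.2))) _ :=
    CT.second (γ := List (Sg r)) ((ct_prune p D.e).comp (ct_news D))
  have all := a5.comp (a4.comp (a3.comp (a2.comp a1)))
  refine (all.mono (2 * κ1 + κ2 + 4) (fun x => ?_)).congr (fun x => rfl)
  obtain ⟨Δs, rows⟩ := x
  have e1 : (ann p r Δs).length = Δs.length := k05_length_ann Δs
  have s1 : size (ann p r Δs) ≤ κ1 * (Δs.length + 1) := by
    have := hκ1 (ann p r Δs)
    rwa [e1] at this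
  have s2 : size (nxt (ann p r Δs)) ≤ κ2 * (Δs.length + 1) := by
    refine (hκ2 _).trans (Nat.mul_le_mul_left _ (Nat.succ_le_succ ?_))
    rw [← e1]
    exact k05_length_nxt _
  have e2 : (news D (ann p r Δs) rows).length = D.d * rows.length := news_length D _ _
  have e3 : (level D (Δs, rows)).2 = prune (news D (ann p r Δs) rows) := rfl
  show Δs.length + size (ann p r Δs) + size (ann p r Δs) + (ann p r Δs).length +
    (size (nxt (ann p r Δs)) +
      ((rows.length + 1) * ((ann p r Δs).length + mxl rows + 1) +
      ((news D (ann p r Δs) rows).length + 1) *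
        (((prune (news D (ann p r Δs) rows)).length + 1) *
          (mxl (news D (ann p r Δs) rows) + 1)))) ≤
    (2 * κ1 + κ2 + 4) * (((rows.length + 1) * (Δs.length + mxl rows + 1) +
    (D.d * rows.length + 1) * (((level D (Δs, rows)).2.length + 1) *
      (mxl (news D (ann p r Δs) rows) + 1))) + 1)
  rw [e3, e2, e1]
  have l1 : Δs.length + 1 ≤ (rows.length + 1) * (Δs.length + mxl rows + 1) := by nlinarith
  have m1 := Nat.mul_le_mul_left κ1 l1
  have m2 := Nat.mul_le_mul_left κ2 l1
  generalize (rows.length + 1) * (Δs.length + mxl rows + 1) = T1 at *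
  generalize (D.d * rows.length + 1) * (((prune (news D (ann p r Δs) rows)).length + 1) *
      (mxl (news D (ann p r Δs) rows) + 1)) = T2 at *
  have e : (2 * κ1 + κ2 + 4) * (T1 + T2 + 1) = 2 * (κ1 * T1) + κ2 * T1 + 4 * T1 +
    (2 * κ1 + κ2) * (T2 + 1) + 4 * (T2 + 1) := by ring
  rw [e]
  omega

theorem ct_start {p r : ℕ} [NeZero p] (D : Data p r) : CT (start D) (fun w => w.length) := by
  obtain ⟨κ1, hκ1⟩ := size_list_fin (Ann D.q r)
  obtain ⟨κ2, hκ2⟩ := size_list_fin (Sg r)
  obtain ⟨κ3, hκ3⟩ := size_list_fin (Letter r)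
  have a0 : CT (fun w : List (Letter r) => (w, w)) (fun w => size w) := CT.dup
  have a1 : CT (fun x : List (Letter r) × List (Letter r) => (ann D.q r (incr x.1), x.2))
      (fun x => x.1.length + (incr x.1).length) := CT.first ((ct_ann D.q r).comp (ct_incr r))
  have a2 : CT (fun x : List (Ann D.q r) × List (Letter r) => ((x.1, x.1), x.2))
      (fun x => size x.1) := CT.first CT.dup
  have a3 : CT (fun x : (List (Ann D.q r) × List (Ann D.q r)) × List (Letter r) =>
      (x.1.1, (x.1.2, x.2))) (fun x => size x.1.1) := CT.assocR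
  have a4 : CT (fun x : List (Ann D.q r) × (List (Ann D.q r) × List (Letter r)) =>
      (nxt x.1, x.2)) (fun x => x.1.length) := CT.first (ct_nxt D.q r)
  have a5 : CT (fun x : List (Sg r) × (List (Ann D.q r) × List (Letter r)) =>
      (x.1, (List.finRange D.s).map
        (fun j => brow (fun y l => D.init y.1 y.2.1 l j) (x.2.1.zip x.2.2)))) _ :=
    CT.second (γ := List (Sg r)) (ct_rowset D.s (fun j y l => D.init y.1 y.2.1 l j))
  have all := a5.comp (a4.comp (a3.comp (a2.comp (a1.comp a0))))
  refine (all.mono (2 * κ1 + κ2 + κ3 + 5) (fun w => ?_)).congr (fun w => rfl)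
  have e0 : (incr w).length = w.length := k05_length_trans _ _ _
  have e1 : (ann D.q r (incr w)).length = w.length := by rw [k05_length_ann, e0]
  have s1 : size (ann D.q r (incr w)) ≤ κ1 * (w.length + 1) := by
    have := hκ1 (ann D.q r (incr w))
    rwa [e1] at this
  have s2 : size (nxt (ann D.q r (incr w))) ≤ κ2 * (w.length + 1) := by
    refine (hκ2 _).trans (Nat.mul_le_mul_left _ (Nat.succ_le_succ ?_))
    rw [← e1]
    exact k05_length_nxt _
  have s3 : size w ≤ κ3 * (w.length + 1) := hκ3 w
  show size w + (w.length + (incr w).length) + size (ann D.q r (incr w)) +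
    size (ann D.q r (incr w)) + (ann D.q r (incr w)).length +
    (size (nxt (ann D.q r (incr w))) + ((ann D.q r (incr w)).length + w.length)) ≤
    (2 * κ1 + κ2 + κ3 + 5) * (w.length + 1)
  rw [e0, e1]
  have e : (2 * κ1 + κ2 + κ3 + 5) * (w.length + 1) = 2 * (κ1 * (w.length + 1)) +
    κ2 * (w.length + 1) + κ3 * (w.length + 1) + 5 * (w.length + 1) := by ring
  omega

theorem k05_foldCost {α : Type} (c M : ℕ) (step : List α × Bool → Bool) (rows : List (List α))
    (b : Bool) (h : ∀ r ∈ rows, r.length ≤ M) :
    foldCost (fun x : List α × Bool => x.1.length + c) step rows b ≤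
      rows.length * (M + c) := by
  induction rows generalizing b with
  | nil => simp [foldCost]
  | cons a l ih =>
    have h1 := ih (step (a, b)) (fun r hr => h r (List.mem_cons_of_mem _ hr))
    have h2 := h a List.mem_cons_self
    simp only [foldCost, List.length_cons]
    have e : (l.length + 1) * (M + c) = l.length * (M + c) + (M + c) := by ring
    omega

theorem ct_finish (p e r : ℕ) [NeZero p] :
    CT (finish : List (Sg r) × List (List (Vec p e)) → Bool)
      (fun x => x.1.length + (x.2.length + 1) * (mxl x.2 + 1)) := by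
  obtain ⟨κ1, hκ1⟩ := size_list_fin (Sg r)
  obtain ⟨κ2, hκ2⟩ := size_rows_le p e
  have a1 : CT (fun x : List (Sg r) × List (List (Vec p e)) => x.2) (fun x => size x.1) := CT.snd
  have a2 : CT (fun x : List (List (Vec p e)) => (true, x)) (fun _ => 0) := CT.pushConst true
  have a3 : CT (fun x : Bool × List (List (Vec p e)) => (x.2, x.1))
      (fun x => size x.1 + size x.2) := CT.swap
  have b1 : CT (fun x : List (Vec p e) × Bool => (isZ x.1, x.2)) (fun x => x.1.length) :=
    CT.first (ct_isZ p e)
  have b2 : CT (fun x : Bool × Bool => x.1 && x.2) (fun _ => 0) := CT.fin _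
  have b3 : CT (fun x : List (Vec p e) × Bool => isZ x.1 && x.2) (fun x => x.1.length + 0) :=
    b2.comp b1
  have a4 := CT.foldl b3
  have all := a4.comp (a3.comp (a2.comp a1))
  refine (all.mono (κ1 + 2 * κ2 + 5) (fun x => ?_)).congr (fun x => ?_)
  · obtain ⟨Δs, rows⟩ := x
    have s1 : size Δs ≤ κ1 * (Δs.length + 1) := hκ1 Δs
    have s2 : size rows ≤ κ2 * ((rows.length + 1) * (mxl rows + 1)) := hκ2 rows
    have s3 := k05_foldCost 0 (mxl rows) (fun x : List (Vec p e) × Bool => isZ x.1 && x.2)
      rows true ((k04_mxl_le rows _).1 le_rfl)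
    have s4 : size true = 3 := by simp [size]
    show size Δs + 0 + (size true + size rows) + (size rows +
      foldCost (fun x : List (Vec p e) × Bool => x.1.length + 0) (fun x => isZ x.1 && x.2)
        rows true) ≤
      (κ1 + 2 * κ2 + 5) * (Δs.length + (rows.length + 1) * (mxl rows + 1) + 1)
    have l1 : rows.length * (mxl rows + 0) ≤ (rows.length + 1) * (mxl rows + 1) :=
      Nat.mul_le_mul (by omega) (by omega)
    generalize (rows.length + 1) * (mxl rows + 1) = T at *
    have e : (κ1 + 2 * κ2 + 5) * (Δs.length + T + 1) = κ1 * (Δs.length + 1) + κ1 * T +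
      2 * κ2 * (Δs.length + 1) + 2 * (κ2 * T) + 5 * (Δs.length + T + 1) := by ring
    rw [e]
    omega
  · obtain ⟨Δs, rows⟩ := x
    show rows.foldl (fun s a => isZ a && s) true = rows.all isZ
    have key : ∀ (l : List (List (Vec p e))) (b : Bool),
        l.foldl (fun s a => isZ a && s) b = (l.all isZ && b) := by
      intro l
      induction l with
      | nil => intro b; simp
      | cons a l ih =>
        intro b
        rw [List.foldl_cons, ih, List.all_cons]
        cases isZ a <;> cases b <;> cases l.all isZ <;> rfl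
    rw [key, Bool.and_true]

end Pool.Agent.WPM
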