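import Pool.Agent.Lib.MP_2da099_lc.S01

/-!
# S02: the annotations and the block sums are correct
-/

set_option autoImplicit false

namespace Pool.Agent.WPM

theorem length_trans {α β σ : Type} (f : σ → α → σ × β) (s : σ) (l : List α) :
    (trans f s l).length = l.length := by
  induction l generalizing s with
  | nil => rfl
  | cons a l ih => simp [trans, ih]

theorem length_ann (q r : ℕ) [NeZero q] (Δs : List (Sg r)) : (ann q r Δs).length = Δs.length :=
  length_trans _ _ _

theorem length_posd {r : ℕ} (c : Fin r → ℤ) (Δs : List (Sg r)) :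
    (posd c Δs).length = Δs.length := by
  induction Δs generalizing c with
  | nil => rfl
  | cons a l ih => simp [posd, ih]

theorem nxt_cons_some {q r : ℕ} (a : Fin r → Fin q) (δ δ' : Sg r) (l : List (Ann q r)) :
    nxt ((a, (δ, some δ')) :: l) = δ' :: nxt l := rfl

theorem nxt_cons_none {q r : ℕ} (a : Fin r → Fin q) (δ : Sg r) (l : List (Ann q r)) :
    nxt ((a, (δ, none)) :: l) = nxt l := rfl

/-- The step at a start of a block. -/
theorem annStep_start {q r : ℕ} [NeZero q] (st : ASt q r) (Δ : Sg r) (h : st.1.1 = q) :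
    annStep q r st Δ =
      ((Fin.ofNat (q + 1) 1, (fun i => dig q (st.2.1 i) (Δ i), fun _ => 0)),
        (fun i => dig q (st.2.1 i) (Δ i),
          (fun _ => 0, some (fun i => SignType.sign ((st.2.2 i : ℤ) +
            (car q (st.2.1 i) (Δ i) : ℤ)))))) := by
  unfold annStep
  simp only [h, if_true]

/-- The step inside a block. -/
theorem annStep_in {q r : ℕ} [NeZero q] (st : ASt q r) (Δ : Sg r) (h : st.1.1 ≠ q) :
    annStep q r st Δ =
      ((Fin.ofNat (q + 1) (st.1.1 + 1), (fun i => dig q (st.2.1 i) (Δ i),
          fun i => SignType.sign ((st.2.2 i : ℤ) + (car q (st.2.1 i) (Δ i) : ℤ)))),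
        (fun i => dig q (st.2.1 i) (Δ i),
          (fun i => SignType.sign ((st.2.2 i : ℤ) + (car q (st.2.1 i) (Δ i) : ℤ)), none))) := by
  unfold annStep
  simp only [h, if_false]

theorem length_nxt_aux {q r : ℕ} [NeZero q] (Δs : List (Sg r)) (st : ASt q r)
    (h1 : 1 ≤ st.1.1) :
    (nxt (trans (annStep q r) st Δs)).length = (Δs.length + st.1.1 - 1) / q := by
  have hq : 0 < q := Nat.pos_of_ne_zero (NeZero.ne q)
  induction Δs generalizing st with
  | nil =>
    have := st.1.2
    simp only [trans, nxt, List.filterMap_nil, List.length_nil]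
    rw [Nat.div_eq_of_lt]
    omega
  | cons Δ l ih =>
    by_cases h : st.1.1 = q
    · have e1 : (Fin.ofNat (q + 1) 1 : Fin (q + 1)).1 = 1 := by
        rw [Fin.val_ofNat, Nat.mod_eq_of_lt (by omega)]
      have ih' := ih (annStep q r st Δ).1 (by
        rw [annStep_start st Δ h]; simp only [e1]; exact le_refl 1)
      rw [annStep_start st Δ h] at ih'
      simp only [e1] at ih'
      simp only [trans]
      rw [annStep_start st Δ h]
      rw [nxt_cons_some, List.length_cons, ih', List.length_cons, h]
      rw [show l.length + 1 + q - 1 = l.length + 1 - 1 + q by omega, Nat.add_div_right _ hq]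
    · have hlt := st.1.2
      have e1 : (Fin.ofNat (q + 1) (st.1.1 + 1) : Fin (q + 1)).1 = st.1.1 + 1 := by
        rw [Fin.val_ofNat, Nat.mod_eq_of_lt (by omega)]
      have ih' := ih (annStep q r st Δ).1 (by
        rw [annStep_in st Δ h]; simp only [e1]; omega)
      rw [annStep_in st Δ h] at ih'
      simp only [e1] at ih'
      simp only [trans]
      rw [annStep_in st Δ h]
      rw [nxt_cons_none, ih', List.length_cons]
      congr 1
      omega

theorem length_nxt (q r : ℕ) [NeZero q] (Δs : List (Sg r)) :
    (nxt (ann q r Δs)).length = (Δs.length + q - 1) / q := by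
  unfold ann
  rw [length_nxt_aux]
  · rfl
  · exact Nat.pos_of_ne_zero (NeZero.ne q)

/-- The fold computing the block sums. -/
def browF {q r p e : ℕ} {X : Type} (h : Ann q r → X → Vec p e) (l : List (Ann q r × X)) :
    Vec p e × List (Vec p e) :=
  l.foldr (fun y s => if y.1.2.2.isSome then (0, (h y.1 y.2 + s.1) :: s.2)
    else (h y.1 y.2 + s.1, s.2)) ((0 : Vec p e), ([] : List (Vec p e)))

theorem brow_eq {q r p e : ℕ} {X : Type} (h : Ann q r → X → Vec p e) (l : List (Ann q r × X)) :
    brow h l = (browF h l).2 := rfl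

theorem browF_cons {q r p e : ℕ} {X : Type} (h : Ann q r → X → Vec p e) (y : Ann q r × X)
    (l : List (Ann q r × X)) : browF h (y :: l) =
      if y.1.2.2.isSome then (0, (h y.1 y.2 + (browF h l).1) :: (browF h l).2)
      else (h y.1 y.2 + (browF h l).1, (browF h l).2) := rfl

theorem length_browF {q r p e : ℕ} {X : Type} (h : Ann q r → X → Vec p e)
    (l : List (Ann q r × X)) : (browF h l).2.length = (nxt (l.map Prod.fst)).length := by
  induction l with
  | nil => rfl
  | cons y l ih =>
    obtain ⟨⟨a, δ, o⟩, x⟩ := y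
    rw [browF_cons]
    cases o with
    | none =>
      rw [List.map_cons, nxt_cons_none]
      exact ih
    | some δ' =>
      rw [List.map_cons, nxt_cons_some, List.length_cons, ← ih]
      rfl

theorem length_brow {q r p e : ℕ} [NeZero q] {X : Type} (h : Ann q r → X → Vec p e)
    (Δs : List (Sg r)) (xs : List X) (hlen : xs.length = Δs.length) :
    (brow h ((ann q r Δs).zip xs)).length = (nxt (ann q r Δs)).length := by
  rw [brow_eq, length_browF, List.map_fst_zip]
  rw [length_ann, hlen]

/-- The main induction. -/
theorem brow_spec_aux {q r p e : ℕ} [NeZero q] {X K : Type} [AddCommGroup K]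
    (V : (Fin r → ℤ) → Vec p e →+ K) (H : (Fin r → Fin q) → Sg r → X → Vec p e)
    (hH : ∀ (c : Fin r → ℤ) (δ : Sg r) (a : Fin r → Fin q) (x : X),
      V (c + sz δ) (H a (fun _ => 0) x) = V c (H a δ x))
    (Δs : List (Sg r)) (xs : List X) (hlen : xs.length = Δs.length) (st : ASt q r)
    (c cs : Fin r → ℤ) (h1 : 1 ≤ st.1.1) (h2 : ∀ i, st.2.1 i = md q c i)
    (h3 : ∀ i, (st.2.2 i : ℤ) + fl q cs i = fl q c i)
    (h4 : ∀ i, |c i - cs i| ≤ (st.1.1 : ℤ) - 1) :
    V (fl q cs) (browF (fun y x => H y.1 y.2.1 x) ((trans (annStep q r) st Δs).zip xs)).1 +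
      val V (posd (fl q cs) (nxt (trans (annStep q r) st Δs)))
        (browF (fun y x => H y.1 y.2.1 x) ((trans (annStep q r) st Δs).zip xs)).2 =
      (List.zipWith (fun c x => V (fl q c) (H (md q c) (fun _ => 0) x)) (posd c Δs) xs).sum := by
  have hq : 0 < q := Nat.pos_of_ne_zero (NeZero.ne q)
  induction Δs generalizing xs st c cs with
  | nil =>
    obtain rfl : xs = [] := List.length_eq_zero_iff.1 hlen
    simp [trans, nxt, posd, browF, val]
  | cons Δ l ih =>
    obtain ⟨x, xs, rfl⟩ : ∃ x xs', xs = x :: xs' := by
      cases xs with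
      | nil => simp at hlen
      | cons x xs' => exact ⟨x, xs', rfl⟩
    have hlen' : xs.length = l.length := by simpa using hlen
    have hlt := st.1.2
    -- the new position
    have hdig : (fun i => dig q (st.2.1 i) (Δ i)) = md q (c + sz Δ) := by
      funext i; rw [h2, dig_md]
    have hoff : ∀ i, ((SignType.sign ((st.2.2 i : ℤ) + (car q (st.2.1 i) (Δ i) : ℤ)) :
        SignType) : ℤ) = fl q (c + sz Δ) i - fl q cs i := by
      intro i
      have e1 : (st.2.2 i : ℤ) + (car q (st.2.1 i) (Δ i) : ℤ) =
          fl q (c + sz Δ) i - fl q cs i := by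
        rw [h2, car_md]
        have := h3 i
        linarith
      rw [e1]
      apply sign_cast_of_abs_le
      apply abs_div_sub_div_le
      have e2 : (c + sz Δ) i - cs i = (c i - cs i) + (Δ i : ℤ) := by
        show c i + (Δ i : ℤ) - cs i = _
        ring
      rw [e2]
      refine (abs_add_le _ _).trans ?_
      have := h4 i
      have := abs_cast_le (Δ i)
      have : (st.1.1 : ℤ) ≤ q := by exact_mod_cast Nat.lt_succ_iff.1 hlt
      linarith
    by_cases h : st.1.1 = q
    · have e1 : (Fin.ofNat (q + 1) 1 : Fin (q + 1)).1 = 1 := by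
        rw [Fin.val_ofNat, Nat.mod_eq_of_lt (by omega)]
      have ih' := ih xs hlen' (annStep q r st Δ).1 (c + sz Δ) (c + sz Δ)
        (by rw [annStep_start st Δ h]; simp only [e1]; exact le_refl 1)
        (by rw [annStep_start st Δ h]; intro i; exact congrFun hdig i)
        (by rw [annStep_start st Δ h]; intro i; simp)
        (by rw [annStep_start st Δ h]; intro i; simp only [e1]; simp)
      rw [annStep_start st Δ h] at ih'
      simp only [trans]
      rw [annStep_start st Δ h]
      simp only [hdig] at ih' ⊢
      rw [List.zip_cons_cons, browF_cons]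
      simp only [Option.isSome_some, if_true]
      rw [nxt_cons_some]
      simp only [posd]
      have e3 : (fl q cs + sz fun i => SignType.sign ((st.2.2 i : ℤ) +
            (car q (st.2.1 i) (Δ i) : ℤ))) = fl q (c + sz Δ) := by
        funext i
        show fl q cs i + ((SignType.sign ((st.2.2 i : ℤ) + (car q (st.2.1 i) (Δ i) : ℤ)) :
          SignType) : ℤ) = _
        rw [hoff]; ring
      rw [e3]
      simp only [List.zipWith_cons_cons, List.sum_cons]
      rw [← ih']
      unfold val
      simp only [List.zipWith_cons_cons, List.sum_cons, map_zero, map_add]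
      abel
    · have e1 : (Fin.ofNat (q + 1) (st.1.1 + 1) : Fin (q + 1)).1 = st.1.1 + 1 := by
        rw [Fin.val_ofNat, Nat.mod_eq_of_lt (by omega)]
      have ih' := ih xs hlen' (annStep q r st Δ).1 (c + sz Δ) cs
        (by rw [annStep_in st Δ h]; simp only [e1]; omega)
        (by rw [annStep_in st Δ h]; intro i; exact congrFun hdig i)
        (by rw [annStep_in st Δ h]; intro i; simp only [hoff]; ring)
        (by
          rw [annStep_in st Δ h]; intro i; simp only [e1]
          have e2 : (c + sz Δ) i - cs i = (c i - cs i) + (Δ i : ℤ) := by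
            show c i + (Δ i : ℤ) - cs i = _
            ring
          rw [e2]
          refine (abs_add_le _ _).trans ?_
          have := h4 i
          have := abs_cast_le (Δ i)
          push_cast
          linarith)
      rw [annStep_in st Δ h] at ih'
      simp only [trans]
      rw [annStep_in st Δ h]
      simp only [hdig] at ih' ⊢
      rw [List.zip_cons_cons, browF_cons]
      simp only [Option.isSome_none, Bool.false_eq_true, if_false]
      rw [nxt_cons_none]
      simp only [posd]
      simp only [List.zipWith_cons_cons, List.sum_cons]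
      rw [← ih', map_add, ← hH]
      have e3 : (fl q cs + sz fun i => SignType.sign ((st.2.2 i : ℤ) +
            (car q (st.2.1 i) (Δ i) : ℤ))) = fl q (c + sz Δ) := by
        funext i
        show fl q cs i + ((SignType.sign ((st.2.2 i : ℤ) + (car q (st.2.1 i) (Δ i) : ℤ)) :
          SignType) : ℤ) = _
        rw [hoff]; ring
      rw [e3]
      abel

theorem brow_spec {q r p e : ℕ} [NeZero q] {X K : Type} [AddCommGroup K]
    (V : (Fin r → ℤ) → Vec p e →+ K) (H : (Fin r → Fin q) → Sg r → X → Vec p e)
    (hH : ∀ (c : Fin r → ℤ) (δ : Sg r) (a : Fin r → Fin q) (x : X),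
      V (c + sz δ) (H a (fun _ => 0) x) = V c (H a δ x))
    (Δs : List (Sg r)) (xs : List X) (hlen : xs.length = Δs.length) :
    val V (posd 0 (nxt (ann q r Δs))) (brow (fun y x => H y.1 y.2.1 x) ((ann q r Δs).zip xs)) =
      (List.zipWith (fun c x => V (fl q c) (H (md q c) (fun _ => 0) x)) (posd 0 Δs) xs).sum := by
  have hq : 0 < q := Nat.pos_of_ne_zero (NeZero.ne q)
  have hfl : fl q (0 : Fin r → ℤ) = 0 := by
    funext i; simp [fl]
  have h := brow_spec_aux V H hH Δs xs hlen
    (Fin.last q, (fun _ => Fin.ofNat q 0, fun _ => 0)) 0 0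
    hq (by intro i; simp [md]) (by intro i; simp) (by intro i; simp; omega)
  rw [← h, hfl, brow_eq]
  have h0 : (browF (fun y x => H y.1 y.2.1 x)
      ((trans (annStep q r) (Fin.last q, (fun _ => Fin.ofNat q 0, fun _ => 0)) Δs).zip xs)).1
      = 0 := by
    cases Δs with
    | nil => rfl
    | cons Δ l =>
      cases xs with
      | nil => rfl
      | cons x xs =>
        simp only [trans]
        rw [annStep_start _ Δ (by rfl), List.zip_cons_cons, browF_cons]
        simp
  rw [h0, map_zero, zero_add]
  rfl

end Pool.Agent.WPM
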