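import Pool.Agent.Lib.MP_2da099_lc.Defs

/-!
# S03: the reduction of rows is correct
-/

set_option autoImplicit false

namespace Pool.Agent.WPM

theorem trans_redStep_some {p e : ℕ} (c : ZMod p) (r b : List (Vec p e)) :
    trans redStep (some c) (r.zip b) = List.zipWith (fun x y => x - c • y) r b := by
  induction r generalizing b with
  | nil => simp [trans]
  | cons x r ih =>
    cases b with
    | nil => simp [trans]
    | cons y b =>
      rw [List.zip_cons_cons, List.zipWith_cons_cons]
      show (x - c • y) :: trans redStep (some c) (r.zip b) = _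
      rw [ih]

theorem trans_redStep_none_zero {p e : ℕ} (x y : Vec p e) (r b : List (Vec p e)) (hy : y = 0) :
    trans redStep none ((x :: r).zip (y :: b)) = x :: trans redStep none (r.zip b) := by
  rw [List.zip_cons_cons]
  simp only [trans]
  have : redStep none (x, y) = (none, x) := by
    unfold redStep
    simp [hy]
  rw [this]

theorem trans_redStep_none_ne {p e : ℕ} (x y : Vec p e) (r b : List (Vec p e)) (hy : y ≠ 0) :
    trans redStep none ((x :: r).zip (y :: b)) =
      List.zipWith (fun u v => u - coef x y • v) (x :: r) (y :: b) := by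
  rw [List.zip_cons_cons]
  simp only [trans]
  have : redStep none (x, y) = (some (coef x y), x - coef x y • y) := by
    unfold redStep
    simp [hy]
  rw [this, List.zipWith_cons_cons, trans_redStep_some]

theorem red_eq {p e : ℕ} [Fact p.Prime] (r b : List (Vec p e)) :
    ∃ c : ZMod p, red r b = List.zipWith (fun x y => x - c • y) r b := by
  unfold red
  induction r generalizing b with
  | nil => exact ⟨0, by simp [trans]⟩
  | cons x r ih =>
    cases b with
    | nil => exact ⟨0, by simp [trans]⟩
    | cons y b =>
      by_cases hy : y = 0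
      · obtain ⟨c, hc⟩ := ih b
        refine ⟨c, ?_⟩
        rw [trans_redStep_none_zero _ _ _ _ hy, hc, List.zipWith_cons_cons, hy]
        simp
      · exact ⟨coef x y, trans_redStep_none_ne _ _ _ _ hy⟩

theorem length_trans_red {α β σ : Type} (f : σ → α → σ × β) (s : σ) (l : List α) :
    (trans f s l).length = l.length := by
  induction l generalizing s with
  | nil => rfl
  | cons a l ih => simp [trans, ih]

theorem length_red {p e : ℕ} (r b : List (Vec p e)) :
    (red r b).length = min r.length b.length := by
  unfold red
  rw [length_trans_red, List.length_zip]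

theorem length_redAll {p e : ℕ} (n : ℕ) (r : List (Vec p e)) (B : List (List (Vec p e)))
    (hr : r.length = n) (hB : ∀ b ∈ B, b.length = n) : (redAll r B).length = n := by
  unfold redAll
  induction B generalizing r with
  | nil => exact hr
  | cons b B ih =>
    rw [List.foldl_cons]
    refine ih (red r b) ?_ (fun b' hb' => hB b' (List.mem_cons_of_mem _ hb'))
    rw [length_red, hr, hB b List.mem_cons_self, min_self]

theorem length_mem_ins {p e : ℕ} (n : ℕ) (B : List (List (Vec p e))) (v : List (Vec p e))
    (hv : v.length = n) (hB : ∀ b ∈ B, b.length = n) : ∀ b ∈ ins B v, b.length = n := by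
  unfold ins
  split_ifs
  · exact hB
  · intro b hb
    rcases List.mem_append.1 hb with h | h
    · exact hB b h
    · rw [List.mem_singleton.1 h]
      exact length_redAll n v B hv hB

theorem length_mem_foldl_ins {p e : ℕ} (n : ℕ) (vs : List (List (Vec p e)))
    (h : ∀ v ∈ vs, v.length = n) (B : List (List (Vec p e))) (hB : ∀ b ∈ B, b.length = n) :
    ∀ v ∈ vs.foldl ins B, v.length = n := by
  induction vs generalizing B with
  | nil => exact hB
  | cons v vs ih =>
    rw [List.foldl_cons]
    exact ih (fun v' hv' => h v' (List.mem_cons_of_mem _ hv')) _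
      (length_mem_ins n B v (h v List.mem_cons_self) hB)

theorem length_mem_prune {p e : ℕ} (n : ℕ) (vs : List (List (Vec p e)))
    (h : ∀ v ∈ vs, v.length = n) : ∀ v ∈ prune vs, v.length = n :=
  length_mem_foldl_ins n vs h [] (by simp)

theorem prune_length_le {p e : ℕ} (vs : List (List (Vec p e))) :
    (prune vs).length ≤ vs.length := by
  have h : ∀ B : List (List (Vec p e)), (vs.foldl ins B).length ≤ B.length + vs.length := by
    induction vs with
    | nil => intro B; simp
    | cons v vs ih =>
      intro B
      rw [List.foldl_cons]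
      refine (ih _).trans ?_
      have h1 : (ins B v).length ≤ B.length + 1 := by
        unfold ins
        split_ifs
        · omega
        · simp
      rw [List.length_cons]
      omega
  have := h []
  simpa [prune] using this

theorem val_zipWith_sub {p e r : ℕ} [Fact p.Prime] {K : Type} [AddCommGroup K]
    (V : (Fin r → ℤ) → Vec p e →+ K) (c : ZMod p) (cs : List (Fin r → ℤ))
    (a b : List (Vec p e)) (ha : a.length = cs.length) (hb : b.length = cs.length) :
    val V cs (List.zipWith (fun x y => x - c • y) a b) =
      val V cs a - c.val • val V cs b := by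
  unfold val
  induction cs generalizing a b with
  | nil => simp
  | cons c0 cs ih =>
    cases a with
    | nil => simp at ha
    | cons x a =>
      cases b with
      | nil => simp at hb
      | cons y b =>
        simp only [List.zipWith_cons_cons, List.sum_cons]
        rw [ih a b (by simpa using ha) (by simpa using hb), map_sub]
        have e1 : c • y = c.val • y := by
          have : ((c.val : ℕ) : ZMod p) = c := ZMod.natCast_zmod_val c
          conv_lhs => rw [← this]
          exact Nat.cast_smul_eq_nsmul _ _ _
        rw [e1, map_nsmul, nsmul_add]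
        abel

theorem val_red {p e r : ℕ} [Fact p.Prime] {K : Type} [AddCommGroup K]
    (V : (Fin r → ℤ) → Vec p e →+ K) (cs : List (Fin r → ℤ))
    (a b : List (Vec p e)) (ha : a.length = cs.length) (hb : b.length = cs.length)
    (h : val V cs b = 0) : val V cs (red a b) = val V cs a := by
  obtain ⟨c, hc⟩ := red_eq a b
  rw [hc, val_zipWith_sub V c cs a b ha hb, h, smul_zero, sub_zero]

theorem val_redAll {p e r : ℕ} [Fact p.Prime] {K : Type} [AddCommGroup K]
    (V : (Fin r → ℤ) → Vec p e →+ K) (cs : List (Fin r → ℤ))
    (a : List (Vec p e)) (B : List (List (Vec p e))) (ha : a.length = cs.length)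
    (hB : ∀ b ∈ B, b.length = cs.length) (h : ∀ b ∈ B, val V cs b = 0) :
    val V cs (redAll a B) = val V cs a := by
  unfold redAll
  induction B generalizing a with
  | nil => rfl
  | cons b B ih =>
    rw [List.foldl_cons, ih (red a b) (by
      rw [length_red, ha, hB b List.mem_cons_self, min_self])
      (fun b' hb' => hB b' (List.mem_cons_of_mem _ hb'))
      (fun b' hb' => h b' (List.mem_cons_of_mem _ hb'))]
    exact val_red V cs a b ha (hB b List.mem_cons_self) (h b List.mem_cons_self)

theorem isZ_iff {p e : ℕ} (r : List (Vec p e)) : isZ r = true ↔ ∀ v ∈ r, v = 0 := by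
  unfold isZ
  simp [List.all_eq_true]

theorem val_of_isZ {p e r : ℕ} {K : Type} [AddCommGroup K]
    (V : (Fin r → ℤ) → Vec p e →+ K) (cs : List (Fin r → ℤ))
    (a : List (Vec p e)) (h : isZ a = true) : val V cs a = 0 := by
  rw [isZ_iff] at h
  unfold val
  induction cs generalizing a with
  | nil => simp
  | cons c0 cs ih =>
    cases a with
    | nil => simp
    | cons x a =>
      simp only [List.zipWith_cons_cons, List.sum_cons]
      rw [ih a (fun v hv => h v (List.mem_cons_of_mem _ hv)), h x List.mem_cons_self, map_zero,
        add_zero]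

theorem val_ins {p e r : ℕ} [Fact p.Prime] {K : Type} [AddCommGroup K]
    (V : (Fin r → ℤ) → Vec p e →+ K) (cs : List (Fin r → ℤ))
    (B : List (List (Vec p e))) (v : List (Vec p e)) (hv : v.length = cs.length)
    (hB : ∀ b ∈ B, b.length = cs.length) :
    (∀ b ∈ ins B v, val V cs b = 0) ↔ (∀ b ∈ B, val V cs b = 0) ∧ val V cs v = 0 := by
  constructor
  · intro h
    have h1 : ∀ b ∈ B, val V cs b = 0 := by
      intro b hb
      apply h
      unfold ins
      split_ifs
      · exact hb
      · exact List.mem_append_left _ hb
    refine ⟨h1, ?_⟩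
    rw [← val_redAll V cs v B hv hB h1]
    by_cases hz : isZ (redAll v B) = true
    · exact val_of_isZ V cs _ hz
    · apply h
      unfold ins
      rw [if_neg hz]
      exact List.mem_append_right _ (List.mem_singleton_self _)
  · rintro ⟨h1, h2⟩ b hb
    unfold ins at hb
    split_ifs at hb
    · exact h1 b hb
    · rcases List.mem_append.1 hb with h | h
      · exact h1 b h
      · rw [List.mem_singleton.1 h, val_redAll V cs v B hv hB h1, h2]

theorem val_foldl_ins {p e r : ℕ} [Fact p.Prime] {K : Type} [AddCommGroup K]
    (V : (Fin r → ℤ) → Vec p e →+ K) (cs : List (Fin r → ℤ)) (vs : List (List (Vec p e)))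
    (hlen : ∀ v ∈ vs, v.length = cs.length) (B : List (List (Vec p e)))
    (hB : ∀ b ∈ B, b.length = cs.length) :
    (∀ v ∈ vs.foldl ins B, val V cs v = 0) ↔
      (∀ b ∈ B, val V cs b = 0) ∧ ∀ v ∈ vs, val V cs v = 0 := by
  induction vs generalizing B with
  | nil => simp
  | cons v vs ih =>
    rw [List.foldl_cons, ih (fun v' hv' => hlen v' (List.mem_cons_of_mem _ hv')) _
      (length_mem_ins _ B v (hlen v List.mem_cons_self) hB),
      val_ins V cs B v (hlen v List.mem_cons_self) hB, List.forall_mem_cons, and_assoc]

theorem val_prune {p e r : ℕ} [Fact p.Prime] {K : Type} [AddCommGroup K]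
    (V : (Fin r → ℤ) → Vec p e →+ K) (cs : List (Fin r → ℤ)) (vs : List (List (Vec p e)))
    (hlen : ∀ v ∈ vs, v.length = cs.length) :
    (∀ v ∈ prune vs, val V cs v = 0) ↔ ∀ v ∈ vs, val V cs v = 0 := by
  unfold prune
  rw [val_foldl_ins V cs vs hlen [] (by simp)]
  simp

end Pool.Agent.WPM
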