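import Pool.Agent.Lib.MP_2da099_lc.S03

/-!
# S04: the number of reduced rows is at most the dimension
-/

set_option autoImplicit false

namespace Pool.Agent.WPM

/-- A nonzero row has a pivot, which every reduction by it kills. -/
theorem exists_pivot {p e : ℕ} [Fact p.Prime] (b : List (Vec p e)) (hb : ¬ isZ b = true) :
    ∃ i, i < b.length ∧ ∃ j : Fin e, (b.getD i 0) j ≠ 0 ∧
      ∀ r : List (Vec p e), r.length = b.length → ((red r b).getD i 0) j = 0 := by
  induction b with
  | nil => exact absurd (by rw [isZ_iff]; simp) hb
  | cons y b ih =>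
    by_cases hy : y = 0
    · have hb' : ¬ isZ b = true := by
        intro h
        apply hb
        rw [isZ_iff] at h ⊢
        intro v hv
        rcases List.mem_cons.1 hv with h1 | h1
        · rw [h1, hy]
        · exact h v h1
      obtain ⟨i, hi, j, hj, hr⟩ := ih hb'
      refine ⟨i + 1, by simpa using hi, j, by simpa using hj, ?_⟩
      intro r hlen
      cases r with
      | nil => simp at hlen
      | cons x r =>
        unfold red at hr ⊢
        rw [trans_redStep_none_zero _ _ _ _ hy]
        simpa using hr r (by simpa using hlen)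
    · have hex : ∃ i, y i ≠ 0 := by
        by_contra hne
        push Not at hne
        exact hy (funext hne)
      refine ⟨0, by simp, hex.choose, by simpa using hex.choose_spec, ?_⟩
      intro r hlen
      cases r with
      | nil => simp at hlen
      | cons x r =>
        unfold red
        rw [trans_redStep_none_ne _ _ _ _ hy, List.zipWith_cons_cons, List.getD_cons_zero]
        have e1 : coef x y = x hex.choose * (y hex.choose)⁻¹ := by
          unfold coef
          rw [dif_pos hex]
        rw [e1]
        have := hex.choose_spec
        simp only [Pi.sub_apply, Pi.smul_apply, smul_eq_mul]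
        field_simp
        ring

/-- Reduction keeps common zeros. -/
theorem red_getD_zero {p e : ℕ} [Fact p.Prime] (r b : List (Vec p e)) (i : ℕ) (j : Fin e)
    (hr : (r.getD i 0) j = 0) (hb : (b.getD i 0) j = 0) : ((red r b).getD i 0) j = 0 := by
  obtain ⟨c, hc⟩ := red_eq r b
  rw [hc]
  simp only [List.getD_eq_getElem?_getD, List.getElem?_zipWith] at *
  cases h1 : r[i]? with
  | none => simp
  | some x =>
    cases h2 : b[i]? with
    | none => simp
    | some y =>
      rw [h1] at hr
      rw [h2] at hb
      simp only [Option.getD_some] at hr hb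
      simp [hr, hb]

theorem redAll_append {p e : ℕ} (v b : List (Vec p e)) (B : List (List (Vec p e))) :
    redAll v (B ++ [b]) = red (redAll v B) b := by
  unfold redAll
  rw [List.foldl_append]
  rfl

/-- The invariant of the pruning. -/
def PInv {p e : ℕ} (n : ℕ) (B : List (List (Vec p e))) : Prop :=
  (∀ b ∈ B, b.length = n) ∧ ∃ S : Finset (Fin n × Fin e), S.card = B.length ∧
    ∀ v : List (Vec p e), v.length = n → ∀ x ∈ S, ((redAll v B).getD x.1.1 0) x.2 = 0

theorem pinv_ins {p e : ℕ} [Fact p.Prime] (n : ℕ) (B : List (List (Vec p e)))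
    (v : List (Vec p e)) (hv : v.length = n) (h : PInv n B) : PInv n (ins B v) := by
  classical
  refine ⟨length_mem_ins n B v hv h.1, ?_⟩
  obtain ⟨hB, S, hS, hz⟩ := h
  unfold ins
  split_ifs with hZ
  · exact ⟨S, hS, hz⟩
  · have hl : (redAll v B).length = n := length_redAll n v B hv hB
    obtain ⟨i, hi, j, hj, hr⟩ := exists_pivot _ hZ
    have hin : i < n := by rw [← hl]; exact hi
    refine ⟨insert (⟨i, hin⟩, j) S, ?_, ?_⟩
    · rw [Finset.card_insert_of_notMem, hS, List.length_append, List.length_singleton]
      intro hmem
      exact hj (hz v hv _ hmem)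
    · intro v' hv' x hx
      rw [redAll_append]
      rcases Finset.mem_insert.1 hx with h1 | h1
      · rw [h1]
        exact hr (redAll v' B) (by rw [hl, length_redAll n v' B hv' hB])
      · exact red_getD_zero _ _ _ _ (hz v' hv' x h1) (hz v hv x h1)

theorem prune_length_le_dim {p e : ℕ} [Fact p.Prime] (n : ℕ) (vs : List (List (Vec p e)))
    (h : ∀ v ∈ vs, v.length = n) : (prune vs).length ≤ e * n := by
  have key : ∀ B : List (List (Vec p e)), PInv n B → PInv n (vs.foldl ins B) := by
    induction vs with
    | nil => intro B hB; exact hB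
    | cons v vs ih =>
      intro B hB
      rw [List.foldl_cons]
      exact ih (fun v' hv' => h v' (List.mem_cons_of_mem _ hv')) _
        (pinv_ins n B v (h v List.mem_cons_self) hB)
  obtain ⟨_, S, hS, _⟩ := key [] ⟨by simp, ∅, by simp, by simp⟩
  unfold prune
  rw [← hS]
  refine (Finset.card_le_univ S).trans ?_
  rw [Fintype.card_prod, Fintype.card_fin, Fintype.card_fin, mul_comm]

end Pool.Agent.WPM
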