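import Pool.Agent.Lib.MP_2da099_lc.S02
import Pool.Agent.Lib.MP_2da099_lc.S04

/-!
# S05: one level is correct

HINTS.  `(level D x).1 = nxt (ann p r x.1)` and `(level D x).2 = prune (news ..)`.  For a row `u` of
length `x.1.length` and `j`, `brow_spec` with `H a δ u = D.step a δ j u` says: the value of the new row
`j` is `Σ V (fl p c_i) (D.step (md p c_i) 0 j u_i)` over `cs = posd 0 x.1`; the third property of `V`,
for the list `cs.zip u`, says that all these vanish (for all `j`) iff `val V cs u = 0`.  Then
`val_prune` (rows of length `(nxt ..).length` by `length_brow`).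
-/

set_option autoImplicit false

namespace Pool.Agent.WPM

variable {p r : ℕ} [Fact p.Prime]

theorem s05_zipWith {α β γ : Type*} (f : α → β → γ) (l : List α) (l' : List β) :
    List.zipWith f l l' = (l.zip l').map (fun x => f x.1 x.2) := by
  induction l generalizing l' with
  | nil => rfl
  | cons a l ih =>
    cases l' with
    | nil => rfl
    | cons b l' =>
      rw [List.zipWith_cons_cons, List.zip_cons_cons, List.map_cons, ih]

theorem s05_mem_news (D : Data p r) (an : List (Ann p r)) (rows : List (List (Vec p D.e)))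
    (v : List (Vec p D.e)) : v ∈ news D an rows ↔
      ∃ u ∈ rows, ∃ j : Fin D.d, v = brow (fun y u => D.step y.1 y.2.1 j u) (an.zip u) := by
  unfold news
  rw [List.mem_flatMap]
  constructor
  · rintro ⟨u, hu, hv⟩
    obtain ⟨j, _, hj⟩ := List.mem_map.mp hv
    exact ⟨u, hu, j, hj.symm⟩
  · rintro ⟨u, hu, j, hj⟩
    exact ⟨u, hu, List.mem_map.mpr ⟨j, List.mem_finRange j, hj.symm⟩⟩

theorem level_length_fst (D : Data p r) (x : List (Sg r) × List (List (Vec p D.e))) :
    (level D x).1.length = (x.1.length + p - 1) / p :=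
  length_nxt p r x.1

theorem news_rows (D : Data p r) (x : List (Sg r) × List (List (Vec p D.e)))
    (hx : ∀ row ∈ x.2, row.length = x.1.length) :
    ∀ row ∈ news D (ann p r x.1) x.2, row.length = (level D x).1.length := by
  intro row hrow
  obtain ⟨u, hu, j, rfl⟩ := (s05_mem_news D _ _ _).mp hrow
  exact length_brow _ x.1 u (hx u hu)

theorem level_rows (D : Data p r) (x : List (Sg r) × List (List (Vec p D.e)))
    (hx : ∀ row ∈ x.2, row.length = x.1.length) :
    ∀ row ∈ (level D x).2, row.length = (level D x).1.length :=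
  length_mem_prune _ _ (news_rows D x hx)

theorem level_card_le (D : Data p r) (x : List (Sg r) × List (List (Vec p D.e))) :
    (level D x).2.length ≤ D.d * x.2.length := by
  refine (prune_length_le _).trans (le_of_eq ?_)
  unfold news
  rw [List.length_flatMap]
  have h1 : (x.2.map fun row => ((List.finRange D.d).map
      (fun j => brow (fun y u => D.step y.1 y.2.1 j u) ((ann p r x.1).zip row))).length)
      = x.2.map (fun _ => D.d) := by
    refine List.map_congr_left fun row _ => ?_
    rw [List.length_map, List.length_finRange]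
  rw [h1, List.map_const', List.sum_replicate, smul_eq_mul, mul_comm]

theorem level_card_le_dim (D : Data p r) (x : List (Sg r) × List (List (Vec p D.e)))
    (hx : ∀ row ∈ x.2, row.length = x.1.length) :
    (level D x).2.length ≤ D.e * (level D x).1.length :=
  prune_length_le_dim _ _ (news_rows D x hx)

theorem level_iff (D : Data p r) {K : Type} [AddCommGroup K]
    (V : (Fin r → ℤ) → Vec p D.e →+ K)
    (h2 : ∀ (c : Fin r → ℤ) (δ : Sg r) (a : Fin r → Fin p) (j : Fin D.d) (u : Vec p D.e),
      V (c + sz δ) (D.step a (fun _ => 0) j u) = V c (D.step a δ j u))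
    (h3 : ∀ l : List ((Fin r → ℤ) × Vec p D.e), (l.map (fun x => V x.1 x.2)).sum = 0 ↔
      ∀ j, (l.map (fun x => V (fl p x.1) (D.step (md p x.1) (fun _ => 0) j x.2))).sum = 0)
    (x : List (Sg r) × List (List (Vec p D.e))) (hx : ∀ row ∈ x.2, row.length = x.1.length) :
    (∀ row ∈ (level D x).2, val V (posd 0 (level D x).1) row = 0) ↔
      ∀ row ∈ x.2, val V (posd 0 x.1) row = 0 := by
  have h4 : (∀ row ∈ (level D x).2, val V (posd 0 (level D x).1) row = 0) ↔
      ∀ row ∈ news D (ann p r x.1) x.2, val V (posd 0 (level D x).1) row = 0 := by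
    apply val_prune
    intro v hv
    rw [length_posd]
    exact news_rows D x hx v hv
  have h5 : ∀ u ∈ x.2, ∀ j : Fin D.d,
      val V (posd 0 (level D x).1) (brow (fun y u => D.step y.1 y.2.1 j u) ((ann p r x.1).zip u))
        = (((posd 0 x.1).zip u).map
          (fun x => V (fl p x.1) (D.step (md p x.1) (fun _ => 0) j x.2))).sum := by
    intro u hu j
    have h6 := brow_spec V (fun a δ u => D.step a δ j u) (fun c δ a u => h2 c δ a j u) x.1 u
      (hx u hu)
    rw [s05_zipWith] at h6
    exact h6
  have h7 : ∀ u : List (Vec p D.e), val V (posd 0 x.1) u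
      = (((posd 0 x.1).zip u).map (fun x => V x.1 x.2)).sum := by
    intro u
    unfold val
    rw [s05_zipWith]
  rw [h4]
  constructor
  · intro h u hu
    rw [h7, h3]
    intro j
    rw [← h5 u hu j]
    exact h _ ((s05_mem_news D _ _ _).mpr ⟨u, hu, j, rfl⟩)
  · intro h v hv
    obtain ⟨u, hu, j, rfl⟩ := (s05_mem_news D _ _ _).mp hv
    rw [h5 u hu j]
    have h8 := h u hu
    rw [h7, h3] at h8
    exact h8 j

end Pool.Agent.WPM
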